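import Pool.Agent.X150.TG.Conv

/-! Steep ends: one graph is semiconcave or semiconvex with an infinite slope at the end. -/

set_option autoImplicit false
open Set Topology Filter

namespace Pool.Agent.X150.TG

variable {f g k h : ℝ → ℝ} {m ρ δ ε L M : ℝ}

/-- steep bottom graph with a one-sided bound for second differences -/
theorem tip_steep (T : Two f g) (ρ0 : 0 < ρ) (ρ1 : ρ < 1) (M0 : 0 ≤ M) (m0 : 0 < m)
    (hm : 2 * M ≤ m)
    (b : ((∀ x y q, 0 ≤ q → 0 ≤ y - q → y ≤ x → x ≤ ρ →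
        (g x - g (x - q)) - (g y - g (y - q)) ≤ M * q * (x - y)) ∧
      ∀ x y, 0 ≤ x → x ≤ y → y ≤ ρ → m * (y - x) ≤ g y - g x) ∨
      ((∀ x y q, 0 ≤ q → 0 ≤ x - q → x ≤ y → y ≤ ρ →
        (g x - g (x - q)) - (g y - g (y - q)) ≤ M * q * (y - x)) ∧
      ∀ x y, 0 ≤ x → x ≤ y → y ≤ ρ → g y - g x ≤ -(m * (y - x)))) : Tip f g := by
  have e0 := T.e0
  obtain ⟨r1, r10, hr1⟩ := Metric.continuous_iff.1 T.cf 0 (min (1 / 2) (m * ρ)) (by positivity)
  obtain ⟨r2, r20, hr2⟩ := Metric.continuous_iff.1 T.cg 0 (1 / 2) (by norm_num)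
  obtain ⟨x1, x10, l1, l2, l3⟩ : ∃ x1 : ℝ, 0 < x1 ∧ x1 ≤ r1 / 2 ∧ x1 ≤ r2 / 2 ∧ x1 ≤ ρ / 2 :=
    ⟨min (r1 / 2) (min (r2 / 2) (ρ / 2)), by positivity, min_le_left _ _,
      (min_le_right _ _).trans (min_le_left _ _), (min_le_right _ _).trans (min_le_right _ _)⟩
  have nf : ∀ x, 0 ≤ x → x ≤ x1 → |f x - f 0| < 1 / 2 ∧ |f x - f 0| < m * ρ := by
    intro x h0 h1
    have := hr1 x (by rw [Real.dist_eq, sub_zero, abs_of_nonneg h0]; linarith)
    rw [Real.dist_eq] at this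
    exact ⟨this.trans_le (min_le_left _ _), this.trans_le (min_le_right _ _)⟩
  have ng : ∀ x, 0 ≤ x → x ≤ x1 → |g x - g 0| < 1 / 2 := by
    intro x h0 h1
    have := hr2 x (by rw [Real.dist_eq, sub_zero, abs_of_nonneg h0]; linarith)
    rwa [Real.dist_eq] at this
  obtain ⟨t0, c, t0p, t0x, cp, cc, htouch, hbelow⟩ := exists_touch (κ := 0) (c1 := 1) T.cf T.cg
    e0 x10 one_pos (T.lt x1 x10 (by linarith))
    (by intro c h0 _; simpa using h0)
    (by
      intro x h0 h1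
      have h4 := abs_lt.1 (nf x h0 h1).1
      have h5 := abs_lt.1 (ng x h0 h1)
      simp only [zero_mul, add_zero, one_mul]
      linarith [h4.2, h5.1])
  simp only [zero_mul, add_zero] at htouch hbelow
  refine tip_L ρ0 ρ1 t0p (by linarith) ?_ ?_
  · rintro t ht0 ht1 hq ⟨hD, -⟩
    have d1 : 0 < ρ - (f t - g ρ) := hD.1
    have d3 : g (ρ - (f t - g ρ)) < g ρ + (t - ρ) := hD.2.2.1
    rcases b with ⟨-, b2⟩ | ⟨-, b2⟩
    · have h1 := b2 0 ρ le_rfl ρ0.le le_rfl
      have h2 := (abs_lt.1 (nf t ht0 (by linarith)).2).2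
      rw [sub_zero] at h1
      linarith
    · have h1 := b2 (ρ - (f t - g ρ)) ρ d1.le (by linarith) le_rfl
      have h2 : 0 ≤ m * (ρ - (ρ - (f t - g ρ))) := mul_nonneg m0.le (by linarith)
      linarith
  · rintro s hs0 hs1 hq ⟨hD, hE⟩
    have d1 : 0 < s - (f t0 - g s) := hD.1
    have d3 : g (s - (f t0 - g s)) < g s + (t0 - s) := hD.2.2.1
    have v1 : 0 < t0 - (f t0 - g s) := hE.1
    have v4 : f t0 + (t0 - s) < f (t0 - (f t0 - g s)) := hE.2.2.2
    obtain ⟨q, hq'⟩ : ∃ q, q = f t0 - g s := ⟨_, rfl⟩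
    rw [← hq'] at d1 d3 v1 v4
    have q0 : 0 ≤ q := by linarith
    have hb := hbelow (t0 - q) v1.le (by linarith)
    have eb : c * (t0 - q) = c * t0 - c * q := by ring
    rw [eb] at hb
    have eii : g t0 - g (t0 - q) + c * q < s - t0 := by linarith
    have ei : s - t0 < g s - g (s - q) := by linarith
    have ct : c * t0 ≤ c := by
      have := mul_le_mul_of_nonneg_left (show t0 ≤ 1 by linarith) cp.le
      linarith
    have cq : 0 ≤ c * q := mul_nonneg cp.le q0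
    have qpos : 0 < q := by
      rcases q0.lt_or_eq with h | h
      · exact h
      · rw [← h] at ei eii
        simp only [sub_zero, sub_self, mul_zero, add_zero] at ei eii
        linarith
    have fin : ∀ X, 0 ≤ X → m * X ≤ 2 * c → c * q < M * q * X → False := by
      intro X X0 h1 h2
      have h3 : 2 * M * X ≤ m * X := mul_le_mul_of_nonneg_right hm X0
      have h4 : q * (2 * M * X) ≤ q * (2 * c) := mul_le_mul_of_nonneg_left (h3.trans h1) q0
      linarith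
    rcases b with ⟨b1, b2⟩ | ⟨b1, b2⟩
    · have h1 := b2 (t0 - q) t0 v1.le (by linarith) (by linarith)
      have h1' : 0 ≤ m * (t0 - (t0 - q)) := mul_nonneg m0.le (by linarith)
      have hst : t0 < s := by linarith
      have h2 := b1 s t0 q q0 v1.le hst.le hs1
      have h3 := b2 t0 s t0p.le hst.le hs1
      exact fin (s - t0) (by linarith) (by linarith) (by linarith)
    · have h1 := b2 (s - q) s d1.le (by linarith) hs1
      have h1' : 0 ≤ m * (s - (s - q)) := mul_nonneg m0.le (by linarith)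
      have hst : s < t0 := by linarith
      have h2 := b1 s t0 q q0 d1.le hst.le (by linarith)
      have h3 := b2 s t0 hs0 hst.le (by linarith)
      exact fin (t0 - s) (by linarith) (by linarith) (by linarith)

/-- the slopes near an end with infinite slope -/
theorem slopes_steep (δ0 : 0 < δ) (ck : Continuous k) (hk : ConcaveOn ℝ (Icc 0 δ) k)
    (hL : ¬ ∃ L, ∀ x, 0 < x → x ≤ δ → k x - k 0 ≤ L * x) (L : ℝ) :
    ∃ ρ, 0 < ρ ∧ ρ ≤ δ ∧ ∀ x y, 0 ≤ x → x ≤ y → y ≤ ρ → L * (y - x) ≤ k y - k x := by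
  push Not at hL
  obtain ⟨x0, x00, x0δ, hm⟩ := hL L
  have cφ : Continuous fun y => k x0 - k y - L * (x0 - y) := by fun_prop
  have hφ0 : 0 < k x0 - k 0 - L * (x0 - 0) := by linarith
  obtain ⟨r, r0, hr⟩ := Metric.continuous_iff.1 cφ 0 _ hφ0
  refine ⟨min (r / 2) (x0 / 2), lt_min (by linarith) (by linarith),
    (min_le_right _ _).trans (by linarith), ?_⟩
  intro x y hx hxy hy
  have hy1 : y ≤ r / 2 := hy.trans (min_le_left _ _)
  have hy2 : y ≤ x0 / 2 := hy.trans (min_le_right _ _)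
  rcases hxy.lt_or_eq with h | h
  · have h1 := hk.slope_anti_adjacent (x := x) (y := y) (z := x0) ⟨hx, by linarith⟩
      ⟨x00.le, x0δ⟩ h (by linarith)
    rw [div_le_div_iff₀ (by linarith) (by linarith)] at h1
    have h2 := hr y (by rw [Real.dist_eq, sub_zero, abs_of_nonneg (by linarith)]; linarith)
    rw [Real.dist_eq] at h2
    have h3 := (abs_lt.1 h2).1
    have h4 : L * (x0 - y) ≤ k x0 - k y := by linarith
    have h5 := mul_le_mul_of_nonneg_right h4 (sub_nonneg.2 h.le)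
    have h6 : (x0 - y) * (L * (y - x)) ≤ (x0 - y) * (k y - k x) := by linarith
    exact le_of_mul_le_mul_left h6 (by linarith)
  · subst h
    simp

/-- bottom graph semiconcave -/
theorem tip_semiconc (T : Two f g) (δ0 : 0 < δ) (M0 : 0 ≤ M)
    (hk : ConcaveOn ℝ (Icc 0 δ) fun x => g x - M * x ^ 2) : Tip f g := by
  have ck : Continuous fun x => g x - M * x ^ 2 := by
    have := T.cg
    fun_prop
  by_cases hL : ∃ L, ∀ x, 0 < x → x ≤ δ →
      (g x - M * x ^ 2) - (g 0 - M * 0 ^ 2) ≤ L * x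
  · obtain ⟨L, hL⟩ := hL
    refine tip_conc (L := L + M * δ) T δ0 M0 hk ?_
    intro x h0 h1
    have h2 := hL x h0 h1
    have h3 : M * (x * x) ≤ M * (δ * x) :=
      mul_le_mul_of_nonneg_left (mul_le_mul_of_nonneg_right h1 h0.le) M0
    have e1 : M * x ^ 2 = M * (x * x) := by ring
    have e2 : M * (0:ℝ) ^ 2 = 0 := by ring
    linarith
  · obtain ⟨ρ1, ρ10, ρ1δ, hρ1⟩ := slopes_steep (k := fun x => g x - M * x ^ 2) δ0 ck hk hL
      (4 * M + 1)
    obtain ⟨ρ, ρ0, ρl1, ρl2⟩ : ∃ ρ : ℝ, 0 < ρ ∧ ρ ≤ ρ1 ∧ ρ ≤ 1 / 2 :=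
      ⟨min ρ1 (1 / 2), by positivity, min_le_left _ _, min_le_right _ _⟩
    refine tip_steep (M := 2 * M) (m := 4 * M + 1) T ρ0 (by linarith) (by linarith) (by linarith)
      (by linarith) (Or.inl ⟨?_, ?_⟩)
    · intro x y q hq h0 h1 h2
      have h3 := conc_diff hk hq h1 (show x ∈ Icc 0 δ from ⟨by linarith, by linarith⟩)
        (show y - q ∈ Icc 0 δ from ⟨h0, by linarith⟩)
      have h4 : M * x ^ 2 - M * (x - q) ^ 2 - (M * y ^ 2 - M * (y - q) ^ 2) =
        2 * M * q * (x - y) := by ring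
      linarith
    · intro x y h0 h1 h2
      have h3 := hρ1 x y h0 h1 (h2.trans ρl1)
      have h4 : M * x ^ 2 ≤ M * y ^ 2 :=
        mul_le_mul_of_nonneg_left (pow_le_pow_left₀ h0 h1 2) M0
      linarith

/-- bottom graph semiconvex -/
theorem tip_semiconv (T : Two f g) (δ0 : 0 < δ) (M0 : 0 ≤ M)
    (hk : ConvexOn ℝ (Icc 0 δ) fun x => g x + M * x ^ 2) : Tip f g := by
  have ck : Continuous fun x => -(g x + M * x ^ 2) := by
    have := T.cg
    fun_prop
  have hk' : ConcaveOn ℝ (Icc 0 δ) fun x => -(g x + M * x ^ 2) := hk.neg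
  by_cases hL : ∃ L, ∀ x, 0 < x → x ≤ δ →
      -(g x + M * x ^ 2) - -(g 0 + M * 0 ^ 2) ≤ L * x
  · obtain ⟨L, hL⟩ := hL
    refine tip_conv (L := L + M * δ) T δ0 M0 hk ?_
    intro x h0 h1
    have h2 := hL x h0 h1
    have h3 : M * (x * x) ≤ M * (δ * x) :=
      mul_le_mul_of_nonneg_left (mul_le_mul_of_nonneg_right h1 h0.le) M0
    have e1 : M * x ^ 2 = M * (x * x) := by ring
    have e2 : M * (0:ℝ) ^ 2 = 0 := by ring
    linarith
  · obtain ⟨ρ1, ρ10, ρ1δ, hρ1⟩ := slopes_steep (k := fun x => -(g x + M * x ^ 2)) δ0 ck hk' hL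
      (4 * M + 1)
    obtain ⟨ρ, ρ0, ρl1, ρl2⟩ : ∃ ρ : ℝ, 0 < ρ ∧ ρ ≤ ρ1 ∧ ρ ≤ 1 / 2 :=
      ⟨min ρ1 (1 / 2), by positivity, min_le_left _ _, min_le_right _ _⟩
    refine tip_steep (M := 2 * M) (m := 4 * M + 1) T ρ0 (by linarith) (by linarith) (by linarith)
      (by linarith) (Or.inr ⟨?_, ?_⟩)
    · intro x y q hq h0 h1 h2
      have h3 := conc_diff hk' hq h1 (show y ∈ Icc 0 δ from ⟨by linarith, by linarith⟩)
        (show x - q ∈ Icc 0 δ from ⟨h0, by linarith⟩)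
      have h4 : M * y ^ 2 - M * (y - q) ^ 2 - (M * x ^ 2 - M * (x - q) ^ 2) =
        2 * M * q * (y - x) := by ring
      linarith
    · intro x y h0 h1 h2
      have h3 := hρ1 x y h0 h1 (h2.trans ρl1)
      have h4 : M * x ^ 2 ≤ M * y ^ 2 :=
        mul_le_mul_of_nonneg_left (pow_le_pow_left₀ h0 h1 2) M0
      linarith

/-- One graph is semiconcave or semiconvex near the left end; the other is arbitrary. -/
theorem tip_semi (T : Two f g) (δ0 : 0 < δ) (M0 : 0 ≤ M)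
    (H : (ConcaveOn ℝ (Icc 0 δ) fun x => f x - M * x ^ 2) ∨
      (ConvexOn ℝ (Icc 0 δ) fun x => f x + M * x ^ 2) ∨
      (ConcaveOn ℝ (Icc 0 δ) fun x => g x - M * x ^ 2) ∨
      (ConvexOn ℝ (Icc 0 δ) fun x => g x + M * x ^ 2)) : Tip f g := by
  rcases H with H | H | H | H
  · refine tip_refl (tip_semiconv (M := M) T.refl δ0 M0 ?_)
    refine H.neg.congr ?_
    intro x _
    simp only [Pi.neg_apply]
    ring
  · refine tip_refl (tip_semiconc (M := M) T.refl δ0 M0 ?_)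
    refine H.neg.congr ?_
    intro x _
    simp only [Pi.neg_apply]
    ring
  · exact tip_semiconc T δ0 M0 H
  · exact tip_semiconv T δ0 M0 H

end Pool.Agent.X150.TG
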