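import Pool.Agent.X150.TG.Curv

/-! Ends where one graph is semiconcave or semiconvex and the other graph is arbitrary. -/

set_option autoImplicit false
open Set Topology Filter

namespace Pool.Agent.X150.TG

variable {f g k h : ℝ → ℝ} {A B ρ δ ε L M : ℝ}

/-- the linear extension to the left -/
noncomputable def lext (k : ℝ → ℝ) (A ρ : ℝ) (x : ℝ) : ℝ := k (max 0 (min x ρ)) + A * min x 0

theorem lext_neg (ρ0 : 0 < ρ) {x : ℝ} (hx : x ≤ 0) : lext k A ρ x = k 0 + A * x := by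
  unfold lext
  rw [min_eq_left hx, min_eq_left (by linarith : x ≤ ρ), max_eq_left hx]

theorem lext_pos {x : ℝ} (hx : 0 ≤ x) (hx1 : x ≤ ρ) : lext k A ρ x = k x := by
  unfold lext
  rw [min_eq_right hx, min_eq_left hx1, max_eq_right hx, mul_zero, add_zero]

theorem lext_cont (ck : Continuous k) : Continuous (lext k A ρ) := by
  unfold lext
  fun_prop

theorem lext_le (ρ0 : 0 < ρ)
    (a : ∀ x y, 0 ≤ x → x ≤ y → y ≤ ρ → k y - k x ≤ A * (y - x))
    {x y : ℝ} (hxy : x ≤ y) (hy : y ≤ ρ) : lext k A ρ y - lext k A ρ x ≤ A * (y - x) := by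
  rcases le_total y 0 with h | h
  · rw [lext_neg ρ0 h, lext_neg ρ0 (hxy.trans h)]
    linarith
  · rw [lext_pos h hy]
    rcases le_total x 0 with h' | h'
    · rw [lext_neg ρ0 h']
      have := a 0 y le_rfl h hy
      linarith
    · rw [lext_pos h' (hxy.trans hy)]
      exact a x y h' hxy hy

theorem lext_ge (ρ0 : 0 < ρ) (hAB : B ≤ A)
    (a : ∀ x y, 0 ≤ x → x ≤ y → y ≤ ρ → B * (y - x) ≤ k y - k x)
    {x y : ℝ} (hxy : x ≤ y) (hy : y ≤ ρ) : B * (y - x) ≤ lext k A ρ y - lext k A ρ x := by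
  rcases le_total y 0 with h | h
  · rw [lext_neg ρ0 h, lext_neg ρ0 (hxy.trans h)]
    have := mul_le_mul_of_nonneg_right hAB (sub_nonneg.2 hxy)
    linarith
  · rw [lext_pos h hy]
    rcases le_total x 0 with h' | h'
    · rw [lext_neg ρ0 h']
      have h1 := a 0 y le_rfl h hy
      have h2 := mul_le_mul_of_nonneg_right hAB (neg_nonneg.2 h')
      linarith
    · rw [lext_pos h' (hxy.trans hy)]
      exact a x y h' hxy hy

theorem lext_conc (ρ0 : 0 < ρ) (hk : ConcaveOn ℝ (Icc 0 ρ) k)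
    (a : ∀ x y, 0 ≤ x → x ≤ y → y ≤ ρ → k y - k x ≤ A * (y - x)) :
    ConcaveOn ℝ (Iic ρ) (lext k A ρ) := by
  refine concaveOn_of_slope_anti_adjacent (convex_Iic ρ) ?_
  intro x y z hx hz hxy hyz
  have hz' : z ≤ ρ := hz
  rw [div_le_div_iff₀ (by linarith) (by linarith)]
  rcases le_total y 0 with h | h
  · have e1 : lext k A ρ y - lext k A ρ x = A * (y - x) := by
      rw [lext_neg ρ0 h, lext_neg ρ0 (hxy.le.trans h)]; ring
    rw [e1]
    have h1 := mul_le_mul_of_nonneg_right (lext_le ρ0 a hyz.le hz') (sub_nonneg.2 hxy.le)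
    linarith
  · rcases h.lt_or_eq with h0 | h0
    · rw [lext_pos h (by linarith), lext_pos (by linarith) hz']
      rcases le_total 0 x with h' | h'
      · rw [lext_pos h' (by linarith)]
        have := hk.slope_anti_adjacent (x := x) (y := y) (z := z) ⟨h', by linarith⟩
          ⟨by linarith, hz'⟩ hxy hyz
        rwa [div_le_div_iff₀ (by linarith) (by linarith)] at this
      · rw [lext_neg ρ0 h']
        have h1 := hk.slope_anti_adjacent (x := 0) (y := y) (z := z) ⟨le_rfl, ρ0.le⟩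
          ⟨by linarith, hz'⟩ h0 hyz
        rw [div_le_div_iff₀ (by linarith) (by linarith)] at h1
        have h2 := mul_le_mul_of_nonneg_right (a y z h hyz.le hz') (neg_nonneg.2 h')
        linarith
    · subst h0
      have e1 : lext k A ρ 0 - lext k A ρ x = A * (0 - x) := by
        rw [lext_neg ρ0 le_rfl, lext_neg ρ0 hxy.le]; ring
      rw [e1]
      have h1 := mul_le_mul_of_nonneg_right (lext_le ρ0 a hyz.le hz') (sub_nonneg.2 hxy.le)
      linarith

/-- second differences of a concave function -/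
theorem conc_diff {S : Set ℝ} (hh : ConcaveOn ℝ S h) {x y q : ℝ} (hq : 0 ≤ q) (hyx : y ≤ x)
    (hx : x ∈ S) (hyq : y - q ∈ S) : h x - h (x - q) ≤ h y - h (y - q) := by
  rcases (show 0 ≤ x - y + q by linarith).lt_or_eq with d0 | d0
  · have s0 : 0 ≤ (x - y) / (x - y + q) := by
      apply div_nonneg <;> linarith
    have r0 : 0 ≤ q / (x - y + q) := by positivity
    have sr : (x - y) / (x - y + q) + q / (x - y + q) = 1 := by
      rw [← add_div, div_self d0.ne']
    have h1 := hh.2 hx hyq r0 s0 (by linarith)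
    have h2 := hh.2 hx hyq s0 r0 sr
    have e1 : (q / (x - y + q)) • x + ((x - y) / (x - y + q)) • (y - q) = y := by
      simp only [smul_eq_mul]
      field_simp
      ring
    have e2 : ((x - y) / (x - y + q)) • x + (q / (x - y + q)) • (y - q) = x - q := by
      simp only [smul_eq_mul]
      field_simp
      ring
    rw [e1] at h1
    rw [e2] at h2
    simp only [smul_eq_mul] at h1 h2
    have e3 : q / (x - y + q) * h x + (x - y) / (x - y + q) * h (y - q) +
        ((x - y) / (x - y + q) * h x + q / (x - y + q) * h (y - q)) =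
        ((x - y) / (x - y + q) + q / (x - y + q)) * (h x + h (y - q)) := by ring
    rw [sr] at e3
    linarith
  · have e1 : x = y := by linarith
    rw [e1]

/-- the slopes of a concave function near the end of an interval -/
theorem slopes_near (δ0 : 0 < δ) (ck : Continuous k) (hk : ConcaveOn ℝ (Icc 0 δ) k)
    (hL : ∀ x, 0 < x → x ≤ δ → k x - k 0 ≤ L * x) :
    ∃ A, ∀ ε, 0 < ε → ∃ ρ, 0 < ρ ∧ ρ ≤ δ ∧ ∀ x y, 0 ≤ x → x ≤ y → y ≤ ρ →
      (A - ε) * (y - x) ≤ k y - k x ∧ k y - k x ≤ A * (y - x) := by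
  set S : Set ℝ := (fun x => (k x - k 0) / x) '' Ioc 0 δ with hS
  have bS : BddAbove S := by
    refine ⟨L, ?_⟩
    rintro _ ⟨x, hx, rfl⟩
    simp only
    rw [div_le_iff₀ hx.1]
    exact hL x hx.1 hx.2
  have nS : S.Nonempty := ⟨_, δ, ⟨δ0, le_rfl⟩, rfl⟩
  refine ⟨sSup S, fun ε ε0 => ?_⟩
  obtain ⟨_, ⟨x0, hx0, rfl⟩, hm⟩ := exists_lt_of_lt_csSup nS (show sSup S - ε < sSup S by linarith)
  simp only at hm
  rw [lt_div_iff₀ hx0.1] at hm
  have cφ : Continuous fun y => k x0 - k y - (sSup S - ε) * (x0 - y) := by fun_prop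
  have hφ0 : 0 < k x0 - k 0 - (sSup S - ε) * (x0 - 0) := by linarith
  obtain ⟨r, r0, hr⟩ := Metric.continuous_iff.1 cφ 0 _ hφ0
  refine ⟨min (r / 2) (x0 / 2), lt_min (by linarith) (by linarith [hx0.1]),
    (min_le_right _ _).trans (by linarith [hx0.1, hx0.2]), ?_⟩
  intro x y hx hxy hy
  have hy1 : y ≤ r / 2 := hy.trans (min_le_left _ _)
  have hy2 : y ≤ x0 / 2 := hy.trans (min_le_right _ _)
  have x00 := hx0.1
  have x0δ := hx0.2
  rcases hxy.lt_or_eq with h | h
  · constructor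
    · have h1 := hk.slope_anti_adjacent (x := x) (y := y) (z := x0) ⟨hx, by linarith⟩
        ⟨x00.le, x0δ⟩ h (by linarith)
      rw [div_le_div_iff₀ (by linarith) (by linarith)] at h1
      have h2 := hr y (by rw [Real.dist_eq, sub_zero, abs_of_nonneg (by linarith)]; linarith)
      rw [Real.dist_eq] at h2
      have h3 := (abs_lt.1 h2).1
      have h4 : (sSup S - ε) * (x0 - y) ≤ k x0 - k y := by linarith
      have h5 := mul_le_mul_of_nonneg_right h4 (sub_nonneg.2 h.le)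
      have h6 : (x0 - y) * ((sSup S - ε) * (y - x)) ≤ (x0 - y) * (k y - k x) := by linarith
      exact le_of_mul_le_mul_left h6 (by linarith)
    · rcases hx.lt_or_eq with h' | h'
      · have h1 := hk.slope_anti_adjacent (x := 0) (y := x) (z := y) ⟨le_rfl, δ0.le⟩
          ⟨by linarith, by linarith⟩ h' h
        rw [sub_zero] at h1
        have h2 : (k x - k 0) / x ≤ sSup S := le_csSup bS ⟨x, ⟨h', by linarith⟩, rfl⟩
        have h3 := h1.trans h2
        rwa [div_le_iff₀ (by linarith)] at h3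
      · subst h'
        have h2 : (k y - k 0) / y ≤ sSup S := le_csSup bS ⟨y, ⟨h, by linarith⟩, rfl⟩
        rw [div_le_iff₀ h] at h2
        rwa [sub_zero]
  · subst h
    simp

/-- semiconcave bottom graph -/
theorem tip_conc (T : Two f g) (δ0 : 0 < δ) (M0 : 0 ≤ M)
    (hk : ConcaveOn ℝ (Icc 0 δ) fun x => g x - M * x ^ 2)
    (hL : ∀ x, 0 < x → x ≤ δ → g x - g 0 ≤ L * x) : Tip f g := by
  have ck : Continuous fun x => g x - M * x ^ 2 := by
    have := T.cg
    fun_prop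
  obtain ⟨A, hA⟩ := slopes_near (L := L) δ0 ck hk (by
    intro x h0 h1
    have h2 := hL x h0 h1
    have h3 : 0 ≤ M * x ^ 2 := by positivity
    simp only [ne_eq, OfNat.ofNat_ne_zero, not_false_eq_true, zero_pow, mul_zero, sub_zero]
    linarith)
  have a0 := abs_nonneg A
  obtain ⟨e, he⟩ : ∃ e, e = 1 / (16 * (|A| + 2 * M + 3)) := ⟨_, rfl⟩
  have e0 : 0 < e := by rw [he]; positivity
  have eA : 16 * (|A| * e) + 32 * (M * e) + 48 * e = 1 := by
    have : (16 * (|A| + 2 * M + 3)) * e = 1 := by rw [he]; field_simp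
    linarith
  have Ae0 : 0 ≤ |A| * e := by positivity
  have Me0 : 0 ≤ M * e := by positivity
  obtain ⟨ρ1, ρ10, ρ1δ, hρ1⟩ := hA (e / 4) (by linarith)
  obtain ⟨ρ, ρ0, ρl1, ρl2, ρl3⟩ : ∃ ρ : ℝ, 0 < ρ ∧ ρ ≤ ρ1 ∧ ρ ≤ 1 / 2 ∧ ρ ≤ e / (16 * (M + 1)) :=
    ⟨min ρ1 (min (1 / 2) (e / (16 * (M + 1)))), by positivity, min_le_left _ _,
      (min_le_right _ _).trans (min_le_left _ _), (min_le_right _ _).trans (min_le_right _ _)⟩
  have ρe : M * ρ ≤ e / 16 := by
    have h1 : (M + 1) * ρ ≤ (M + 1) * (e / (16 * (M + 1))) :=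
      mul_le_mul_of_nonneg_left ρl3 (by linarith)
    have h2 : (M + 1) * (e / (16 * (M + 1))) = e / 16 := by field_simp
    linarith
  have up : ∀ x y, 0 ≤ x → x ≤ y → y ≤ ρ →
      (g y - M * y ^ 2) - (g x - M * x ^ 2) ≤ A * (y - x) :=
    fun x y h0 h1 h2 => (hρ1 x y h0 h1 (h2.trans ρl1)).2
  have lo : ∀ x y, 0 ≤ x → x ≤ y → y ≤ ρ →
      (A - e / 4) * (y - x) ≤ (g y - M * y ^ 2) - (g x - M * x ^ 2) :=
    fun x y h0 h1 h2 => (hρ1 x y h0 h1 (h2.trans ρl1)).1
  have hcon := lext_conc (k := fun x => g x - M * x ^ 2) (A := A) ρ0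
    (hk.subset (Icc_subset_Icc le_rfl (by linarith)) (convex_Icc 0 ρ)) up
  have sl : ∀ x y, -ρ ≤ x → x ≤ y → y ≤ ρ →
      |M * y ^ 2 - M * x ^ 2| ≤ e / 8 * (y - x) := by
    intro x y h0 h1 h2
    have e1 : M * y ^ 2 - M * x ^ 2 = (M * (y + x)) * (y - x) := by ring
    rw [e1, abs_mul, abs_of_nonneg (sub_nonneg.2 h1)]
    refine mul_le_mul_of_nonneg_right ?_ (sub_nonneg.2 h1)
    rw [abs_mul, abs_of_nonneg M0]
    have h3 : |y + x| ≤ 2 * ρ := by rw [abs_le]; constructor <;> linarith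
    have h4 := mul_le_mul_of_nonneg_left h3 M0
    linarith
  have hκ : |A - 3 / 8 * e - e / 2| ≤ |A| + e := by
    have h1 := abs_le.1 (le_refl |A|)
    rw [abs_le]; constructor <;> linarith [neg_abs_le A, le_abs_self A]
  have slU : ∀ x y, -ρ ≤ x → x ≤ y → y ≤ ρ →
      (lext (fun x => g x - M * x ^ 2) A ρ y + M * y ^ 2) -
        (lext (fun x => g x - M * x ^ 2) A ρ x + M * x ^ 2) ≤ (A + e / 8) * (y - x) := by
    intro x y h0 h1 h2
    have h3 := lext_le (k := fun x => g x - M * x ^ 2) ρ0 up h1 h2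
    have h4 := abs_le.1 (sl x y h0 h1 h2)
    linarith [h4.2]
  have slL : ∀ x y, -ρ ≤ x → x ≤ y → y ≤ ρ → (A - 3 / 8 * e) * (y - x) ≤
      (lext (fun x => g x - M * x ^ 2) A ρ y + M * y ^ 2) -
        (lext (fun x => g x - M * x ^ 2) A ρ x + M * x ^ 2) := by
    intro x y h0 h1 h2
    have h3 := lext_ge (k := fun x => g x - M * x ^ 2) (A := A) ρ0 (by linarith) lo h1 h2
    have h4 := abs_le.1 (sl x y h0 h1 h2)
    linarith [h4.1]
  refine tip_curv (κ := A - 3 / 8 * e - e / 2) (e := e) (M := 2 * M + 1)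
    (gh := fun x => lext (fun x => g x - M * x ^ 2) A ρ x + M * x ^ 2) T ρ0 (by linarith) e0
    (by linarith) (by have := lext_cont (A := A) (ρ := ρ) ck; fun_prop) ?_ ?_ (by linarith) ?_
    (Or.inl ⟨?_, ?_⟩)
  · intro x h0 h1
    rw [lext_pos h0 h1]
    ring
  · have h1 : 4 * (|A - 3 / 8 * e - e / 2| + 1) * e ≤ 4 * (|A| + e + 1) * e :=
      mul_le_mul_of_nonneg_right (by linarith) e0.le
    have h2 : 4 * (|A| + e + 1) * e = 4 * (|A| * e) + 4 * (e * e) + 4 * e := by ring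
    have h3 : e * e ≤ 1 * e := mul_le_mul_of_nonneg_right (by linarith) e0.le
    linarith
  · intro x y h0 h1 h2
    have h3 := slU x y h0 h1 h2
    have h4 := slL x y h0 h1 h2
    have h5 : 0 ≤ e * (y - x) := mul_nonneg e0.le (sub_nonneg.2 h1)
    constructor <;> linarith
  · intro x y q hq h0 h1 h2
    have h3 := conc_diff hcon hq h1 (mem_Iic.2 h2) (mem_Iic.2 (by linarith))
    have h4 : M * x ^ 2 - M * (x - q) ^ 2 - (M * y ^ 2 - M * (y - q) ^ 2) =
      2 * (M * (q * (x - y))) := by ring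
    have h5 : 0 ≤ q * (x - y) := mul_nonneg hq (sub_nonneg.2 h1)
    have h6 : (2 * M + 1) * q * (x - y) = 2 * (M * (q * (x - y))) + q * (x - y) := by ring
    linarith
  · intro x y h0 h1 h2
    have h4 := slL x y h0 h1 h2
    have h5 : 0 ≤ e * (y - x) := mul_nonneg e0.le (sub_nonneg.2 h1)
    linarith

/-- semiconvex bottom graph -/
theorem tip_conv (T : Two f g) (δ0 : 0 < δ) (M0 : 0 ≤ M)
    (hk : ConvexOn ℝ (Icc 0 δ) fun x => g x + M * x ^ 2)
    (hL : ∀ x, 0 < x → x ≤ δ → g 0 - g x ≤ L * x) : Tip f g := by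
  have ck : Continuous fun x => -(g x + M * x ^ 2) := by
    have := T.cg
    fun_prop
  have hk' : ConcaveOn ℝ (Icc 0 δ) fun x => -(g x + M * x ^ 2) := hk.neg
  obtain ⟨A, hA⟩ := slopes_near (L := L) δ0 ck hk' (by
    intro x h0 h1
    have h2 := hL x h0 h1
    have h3 : 0 ≤ M * x ^ 2 := by positivity
    simp only [ne_eq, OfNat.ofNat_ne_zero, not_false_eq_true, zero_pow, mul_zero, add_zero]
    linarith)
  have a0 := abs_nonneg A
  obtain ⟨e, he⟩ : ∃ e, e = 1 / (16 * (|A| + 2 * M + 3)) := ⟨_, rfl⟩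
  have e0 : 0 < e := by rw [he]; positivity
  have eA : 16 * (|A| * e) + 32 * (M * e) + 48 * e = 1 := by
    have : (16 * (|A| + 2 * M + 3)) * e = 1 := by rw [he]; field_simp
    linarith
  have Ae0 : 0 ≤ |A| * e := by positivity
  have Me0 : 0 ≤ M * e := by positivity
  obtain ⟨ρ1, ρ10, ρ1δ, hρ1⟩ := hA (e / 4) (by linarith)
  obtain ⟨ρ, ρ0, ρl1, ρl2, ρl3⟩ : ∃ ρ : ℝ, 0 < ρ ∧ ρ ≤ ρ1 ∧ ρ ≤ 1 / 2 ∧ ρ ≤ e / (16 * (M + 1)) :=
    ⟨min ρ1 (min (1 / 2) (e / (16 * (M + 1)))), by positivity, min_le_left _ _,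
      (min_le_right _ _).trans (min_le_left _ _), (min_le_right _ _).trans (min_le_right _ _)⟩
  have ρe : M * ρ ≤ e / 16 := by
    have h1 : (M + 1) * ρ ≤ (M + 1) * (e / (16 * (M + 1))) :=
      mul_le_mul_of_nonneg_left ρl3 (by linarith)
    have h2 : (M + 1) * (e / (16 * (M + 1))) = e / 16 := by field_simp
    linarith
  have up : ∀ x y, 0 ≤ x → x ≤ y → y ≤ ρ →
      -(g y + M * y ^ 2) - -(g x + M * x ^ 2) ≤ A * (y - x) :=
    fun x y h0 h1 h2 => (hρ1 x y h0 h1 (h2.trans ρl1)).2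
  have lo : ∀ x y, 0 ≤ x → x ≤ y → y ≤ ρ →
      (A - e / 4) * (y - x) ≤ -(g y + M * y ^ 2) - -(g x + M * x ^ 2) :=
    fun x y h0 h1 h2 => (hρ1 x y h0 h1 (h2.trans ρl1)).1
  have hcon := lext_conc (k := fun x => -(g x + M * x ^ 2)) (A := A) ρ0
    (hk'.subset (Icc_subset_Icc le_rfl (by linarith)) (convex_Icc 0 ρ)) up
  have sl : ∀ x y, -ρ ≤ x → x ≤ y → y ≤ ρ →
      |M * y ^ 2 - M * x ^ 2| ≤ e / 8 * (y - x) := by
    intro x y h0 h1 h2
    have e1 : M * y ^ 2 - M * x ^ 2 = (M * (y + x)) * (y - x) := by ring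
    rw [e1, abs_mul, abs_of_nonneg (sub_nonneg.2 h1)]
    refine mul_le_mul_of_nonneg_right ?_ (sub_nonneg.2 h1)
    rw [abs_mul, abs_of_nonneg M0]
    have h3 : |y + x| ≤ 2 * ρ := by rw [abs_le]; constructor <;> linarith
    have h4 := mul_le_mul_of_nonneg_left h3 M0
    linarith
  have hκ : |-A + 3 / 8 * e + e / 2| ≤ |A| + e := by
    rw [abs_le]; constructor <;> linarith [neg_abs_le A, le_abs_self A]
  have slU : ∀ x y, -ρ ≤ x → x ≤ y → y ≤ ρ →
      (-lext (fun x => -(g x + M * x ^ 2)) A ρ y - M * y ^ 2) -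
        (-lext (fun x => -(g x + M * x ^ 2)) A ρ x - M * x ^ 2) ≤
        (-A + 3 / 8 * e) * (y - x) := by
    intro x y h0 h1 h2
    have h3 := lext_ge (k := fun x => -(g x + M * x ^ 2)) (A := A) ρ0 (by linarith) lo h1 h2
    have h4 := abs_le.1 (sl x y h0 h1 h2)
    linarith [h4.1]
  have slL : ∀ x y, -ρ ≤ x → x ≤ y → y ≤ ρ → (-A - e / 8) * (y - x) ≤
      (-lext (fun x => -(g x + M * x ^ 2)) A ρ y - M * y ^ 2) -
        (-lext (fun x => -(g x + M * x ^ 2)) A ρ x - M * x ^ 2) := by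
    intro x y h0 h1 h2
    have h3 := lext_le (k := fun x => -(g x + M * x ^ 2)) ρ0 up h1 h2
    have h4 := abs_le.1 (sl x y h0 h1 h2)
    linarith [h4.2]
  refine tip_curv (κ := -A + 3 / 8 * e + e / 2) (e := e) (M := 2 * M + 1)
    (gh := fun x => -lext (fun x => -(g x + M * x ^ 2)) A ρ x - M * x ^ 2) T ρ0 (by linarith) e0
    (by linarith) (by have := lext_cont (A := A) (ρ := ρ) ck; fun_prop) ?_ ?_ (by linarith) ?_
    (Or.inr ⟨?_, ?_⟩)
  · intro x h0 h1
    rw [lext_pos h0 h1]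
    ring
  · have h1 : 4 * (|-A + 3 / 8 * e + e / 2| + 1) * e ≤ 4 * (|A| + e + 1) * e :=
      mul_le_mul_of_nonneg_right (by linarith) e0.le
    have h2 : 4 * (|A| + e + 1) * e = 4 * (|A| * e) + 4 * (e * e) + 4 * e := by ring
    have h3 : e * e ≤ 1 * e := mul_le_mul_of_nonneg_right (by linarith) e0.le
    linarith
  · intro x y h0 h1 h2
    have h3 := slU x y h0 h1 h2
    have h4 := slL x y h0 h1 h2
    have h5 : 0 ≤ e * (y - x) := mul_nonneg e0.le (sub_nonneg.2 h1)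
    constructor <;> linarith
  · intro x y q hq h0 h1 h2
    have h3 := conc_diff hcon hq h1 (mem_Iic.2 h2) (mem_Iic.2 (by linarith))
    have h4 : M * y ^ 2 - M * (y - q) ^ 2 - (M * x ^ 2 - M * (x - q) ^ 2) =
      2 * (M * (q * (y - x))) := by ring
    have h5 : 0 ≤ q * (y - x) := mul_nonneg hq (sub_nonneg.2 h1)
    have h6 : (2 * M + 1) * q * (y - x) = 2 * (M * (q * (y - x))) + q * (y - x) := by ring
    linarith
  · intro x y h0 h1 h2
    have h4 := slU x y h0 h1 h2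
    have h5 : 0 ≤ e * (y - x) := mul_nonneg e0.le (sub_nonneg.2 h1)
    linarith

/-- the reflected pair -/
theorem Two.refl (T : Two f g) : Two (fun x => -g x) (fun x => -f x) where
  cf := T.cg.neg
  cg := T.cf.neg
  e0 := by rw [T.e0]
  e1 := by rw [T.e1]
  lt := fun x h0 h1 => neg_lt_neg (T.lt x h0 h1)

/-- semiconcave top graph -/
theorem tip_conc' (T : Two f g) (δ0 : 0 < δ) (M0 : 0 ≤ M)
    (hk : ConcaveOn ℝ (Icc 0 δ) fun x => f x - M * x ^ 2)
    (hL : ∀ x, 0 < x → x ≤ δ → f x - f 0 ≤ L * x) : Tip f g := by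
  refine tip_refl (tip_conv (L := L) (M := M) T.refl δ0 M0 ?_ ?_)
  · have := hk.neg
    refine this.congr ?_
    intro x _
    simp only [Pi.neg_apply]
    ring
  · intro x h0 h1
    have := hL x h0 h1
    linarith

/-- semiconvex top graph -/
theorem tip_conv' (T : Two f g) (δ0 : 0 < δ) (M0 : 0 ≤ M)
    (hk : ConvexOn ℝ (Icc 0 δ) fun x => f x + M * x ^ 2)
    (hL : ∀ x, 0 < x → x ≤ δ → f 0 - f x ≤ L * x) : Tip f g := by
  refine tip_refl (tip_conc (L := L) (M := M) T.refl δ0 M0 ?_ ?_)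
  · have := hk.neg
    refine this.congr ?_
    intro x _
    simp only [Pi.neg_apply]
    ring
  · intro x h0 h1
    have := hL x h0 h1
    linarith

end Pool.Agent.X150.TG
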