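import Pool.Agent.X150.TG.Curv2

/-! Ends where one graph has a curvature bound on one side and the other graph is arbitrary:
the criterion. -/

set_option autoImplicit false
open Set Topology Filter

namespace Pool.Agent.X150.TG

variable {f g gh : ℝ → ℝ} {κ e M ρ c t0 s q : ℝ}

/-- translation in the direction `(−κ, 1)` raises the graph -/
theorem rise (he : 0 < e) (hκe : |κ| * e ≤ 1 / 4)
    (hκc : |κ * c| ≤ ρ / 4) (hc : 0 ≤ c) {x : ℝ} (x0 : 0 ≤ x) (x1 : x ≤ ρ / 2) (ρ0 : 0 < ρ)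
    (a : ∀ x y, -ρ ≤ x → x ≤ y → y ≤ ρ →
      (κ - e) * (y - x) ≤ gh y - gh x ∧ gh y - gh x ≤ (κ + e) * (y - x)) :
    gh x - c / 4 ≤ gh (x + κ * c) := by
  have hb := abs_le.1 hκc
  have hc4 : |κ| * e * c ≤ 1 / 4 * c := mul_le_mul_of_nonneg_right hκe hc
  rcases le_total 0 (κ * c) with hs | hs
  · have := (a x (x + κ * c) (by linarith) (by linarith) (by linarith)).1
    have e1 : (κ - e) * (x + κ * c - x) = κ ^ 2 * c - e * (κ * c) := by ring
    rw [e1] at this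
    have e2 : κ * c ≤ |κ| * c := mul_le_mul_of_nonneg_right (le_abs_self κ) hc
    have e3 : e * (κ * c) ≤ e * (|κ| * c) := mul_le_mul_of_nonneg_left e2 he.le
    have e4 : 0 ≤ κ ^ 2 * c := by positivity
    linarith
  · have := (a (x + κ * c) x (by linarith) (by linarith) (by linarith)).2
    have e1 : (κ + e) * (x - (x + κ * c)) = -(κ ^ 2 * c) - e * (κ * c) := by ring
    rw [e1] at this
    have e2 : -(κ * c) ≤ |κ| * c := by
      have := mul_le_mul_of_nonneg_right (neg_abs_le κ) hc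
      linarith
    have e3 : e * (-(κ * c)) ≤ e * (|κ| * c) := mul_le_mul_of_nonneg_left e2 he.le
    have e4 : 0 ≤ κ ^ 2 * c := by positivity
    linarith

/-- the chords from the far point of the bottom graph -/
theorem far_case {t : ℝ} (ρ0 : 0 < ρ) (he : 0 < e) (hκe : |κ| * e ≤ 1 / 4) (he1 : e ≤ 1 / 4)
    (hgh : ∀ x, 0 ≤ x → x ≤ ρ → gh x = g x)
    (g0 : g 0 = f 0) (hφ : |f t - f 0| ≤ ρ / (16 * (|κ| + 1)))
    (ht : t ≤ ρ / 16) (hq : g ρ ≤ f t)
    (a : ∀ x y, -ρ ≤ x → x ≤ y → y ≤ ρ →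
      (κ - e) * (y - x) ≤ gh y - gh x ∧ gh y - gh x ≤ (κ + e) * (y - x)) :
    ¬ Ins f g (ρ - (f t - g ρ)) (g ρ + (t - ρ)) := by
  intro hD
  have d1 : 0 < ρ - (f t - g ρ) := hD.1
  have d3 : g (ρ - (f t - g ρ)) < g ρ + (t - ρ) := hD.2.2.1
  have hqρ : ρ - (f t - g ρ) ≤ ρ := by linarith
  have hg1 := hgh ρ ρ0.le le_rfl
  have hg2 := hgh (ρ - (f t - g ρ)) d1.le hqρ
  have hg0 := hgh 0 le_rfl ρ0.le
  have lo1 : -ρ ≤ ρ - (f t - g ρ) := by linarith
  have lo2 : -ρ ≤ 0 := by linarith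
  have a1 := (a (ρ - (f t - g ρ)) ρ lo1 hqρ le_rfl).2
  have a2 := a 0 ρ lo2 ρ0.le le_rfl
  rw [hg1, hg2] at a1
  rw [hg1, hg0, g0] at a2
  have e0 : ρ - (ρ - (f t - g ρ)) = (f t - f 0) - (g ρ - f 0) := by ring
  rw [e0] at a1
  have K0 : 0 < |κ| + 1 := by positivity
  have h1 : (|κ| + 1) * |f t - f 0| ≤ ρ / 16 := by
    have h2 : (|κ| + 1) * |f t - f 0| ≤ (|κ| + 1) * (ρ / (16 * (|κ| + 1))) :=
      mul_le_mul_of_nonneg_left hφ K0.le
    have h3 : (|κ| + 1) * (ρ / (16 * (|κ| + 1))) = ρ / 16 := by field_simp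
    linarith
  have h2 : |(g ρ - f 0) - κ * ρ| ≤ e * ρ := by
    rw [abs_le]; constructor <;> linarith [a2.1, a2.2]
  have h3 := far_point he ρ0 hκe he1 h1 h2
  have h4 : (κ + e) * ((f t - f 0) - (g ρ - f 0)) =
    κ * ((f t - f 0) - (g ρ - f 0)) + e * ((f t - f 0) - (g ρ - f 0)) := by ring
  rw [h4] at a1
  linarith

/-- the main criterion -/
theorem tip_curv (T : Two f g) (ρ0 : 0 < ρ) (ρ1 : ρ < 1) (he : 0 < e) (hM : 1 ≤ M)
    (cgh : Continuous gh) (hgh : ∀ x, 0 ≤ x → x ≤ ρ → gh x = g x)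
    (hκ : 4 * (|κ| + 1) * e ≤ 1) (hMe : 16 * M * e ≤ 1)
    (a : ∀ x y, -ρ ≤ x → x ≤ y → y ≤ ρ →
      (κ - e) * (y - x) ≤ gh y - gh x ∧ gh y - gh x ≤ (κ + e) * (y - x))
    (b : ((∀ x y q, 0 ≤ q → -ρ ≤ y - q → y ≤ x → x ≤ ρ →
        (gh x - gh (x - q)) - (gh y - gh (y - q)) ≤ M * q * (x - y)) ∧
      ∀ x y, -ρ ≤ x → x ≤ y → y ≤ ρ → (κ + e / 2) * (y - x) ≤ gh y - gh x) ∨
      ((∀ x y q, 0 ≤ q → -ρ ≤ x - q → x ≤ y → y ≤ ρ →
        (gh x - gh (x - q)) - (gh y - gh (y - q)) ≤ M * q * (y - x)) ∧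
      ∀ x y, -ρ ≤ x → x ≤ y → y ≤ ρ → gh y - gh x ≤ (κ - e / 2) * (y - x))) : Tip f g := by
  have k0 := abs_nonneg κ
  have kee : 0 ≤ |κ| * e := by positivity
  have hκe' : 4 * (|κ| * e) + 4 * e ≤ 1 := by linarith
  have he1 : e ≤ 1 / 4 := by linarith
  have hκe : |κ| * e ≤ 1 / 4 := by linarith
  have e0 := T.e0
  have g0 : gh 0 = g 0 := hgh 0 le_rfl ρ0.le
  have K0 : 0 < |κ| + 1 := by linarith
  obtain ⟨c1, hc1⟩ : ∃ c1, c1 = ρ / (4 * (|κ| + 1)) := ⟨_, rfl⟩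
  have c10 : 0 < c1 := by rw [hc1]; positivity
  have c1K : |κ| * c1 + c1 = ρ / 4 := by
    have : (|κ| + 1) * c1 = ρ / 4 := by rw [hc1]; field_simp
    linarith
  have κc1 : 0 ≤ |κ| * c1 := by positivity
  have c1ρ : 4 * c1 ≤ ρ := by linarith
  have κc : ∀ c, 0 ≤ c → c ≤ c1 → |κ * c| ≤ ρ / 4 := by
    intro c h0 h1
    rw [abs_mul, abs_of_nonneg h0]
    have := mul_le_mul_of_nonneg_left h1 k0
    linarith
  -- continuity at the end
  obtain ⟨r1, r10, hr1⟩ := Metric.continuous_iff.1 T.cf 0 (min (c1 / 4) (ρ / (16 * (|κ| + 1))))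
    (by positivity)
  obtain ⟨r2, r20, hr2⟩ := Metric.continuous_iff.1 T.cg 0 (c1 / 4) (by positivity)
  have M0 : 0 < M := by linarith
  obtain ⟨x1, x10, l1, l2, l3, l4, l5, l6⟩ : ∃ x1 : ℝ, 0 < x1 ∧ x1 ≤ r1 / 2 ∧ x1 ≤ r2 / 2 ∧
      x1 ≤ ρ / 16 ∧ x1 ≤ e / (2 * (|κ| + 1)) ∧ x1 ≤ 1 / (2 * M) ∧ x1 ≤ 1 / (|κ| + 2) := by
    refine ⟨min (min (r1 / 2) (r2 / 2)) (min (min (ρ / 16) (e / (2 * (|κ| + 1))))
      (min (1 / (2 * M)) (1 / (|κ| + 2)))), by positivity,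
      (min_le_left _ _).trans (min_le_left _ _), (min_le_left _ _).trans (min_le_right _ _),
      (min_le_right _ _).trans ((min_le_left _ _).trans (min_le_left _ _)),
      (min_le_right _ _).trans ((min_le_left _ _).trans (min_le_right _ _)),
      (min_le_right _ _).trans ((min_le_right _ _).trans (min_le_left _ _)),
      (min_le_right _ _).trans ((min_le_right _ _).trans (min_le_right _ _))⟩
  have nf : ∀ x, 0 ≤ x → x ≤ x1 → |f x - f 0| < c1 / 4 ∧ |f x - f 0| < ρ / (16 * (|κ| + 1)) := by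
    intro x h0 h1
    have := hr1 x (by rw [Real.dist_eq, sub_zero, abs_of_nonneg h0]; linarith)
    rw [Real.dist_eq] at this
    exact ⟨this.trans_le (min_le_left _ _), this.trans_le (min_le_right _ _)⟩
  have ng : ∀ x, 0 ≤ x → x ≤ x1 → |g x - g 0| < c1 / 4 := by
    intro x h0 h1
    have := hr2 x (by rw [Real.dist_eq, sub_zero, abs_of_nonneg h0]; linarith)
    rwa [Real.dist_eq] at this
  obtain ⟨t0, c, t0p, t0x, cp, cc, htouch, hbelow⟩ := exists_touch (κ := κ) T.cf cgh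
    (by rw [g0, e0]) x10 c10 (by rw [hgh x1 x10.le (by linarith)]; exact T.lt x1 x10 (by linarith))
    (by
      intro c h0 h1
      have := rise (x := 0) he hκe (κc c h0.le h1) h0.le le_rfl (by linarith) ρ0 a
      rw [zero_add] at this
      linarith)
    (by
      intro x h0 h1
      have h3 := rise (x := x) he hκe (κc c1 c10.le le_rfl) c10.le h0 (by linarith) ρ0 a
      rw [hgh x h0 (by linarith)] at h3
      have h4 := abs_lt.1 (nf x h0 h1).1
      have h5 := abs_lt.1 (ng x h0 h1)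
      have h6 : 0 ≤ c1 * x := by positivity
      linarith [h4.2, h5.1])
  have t0K : |κ| * t0 ≤ e / 2 := by
    have h1 : (|κ| + 1) * t0 ≤ (|κ| + 1) * (e / (2 * (|κ| + 1))) :=
      mul_le_mul_of_nonneg_left (by linarith) K0.le
    have h2 : (|κ| + 1) * (e / (2 * (|κ| + 1))) = e / 2 := by field_simp
    linarith
  have t0M : M * t0 ≤ 1 / 2 := by
    have h1 : M * t0 ≤ M * (1 / (2 * M)) := mul_le_mul_of_nonneg_left (by linarith) (by linarith)
    have h2 : M * (1 / (2 * M)) = 1 / 2 := by field_simp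
    linarith
  have t0K1 : (|κ| + 2) * t0 ≤ 1 := by
    have h3 : (|κ| + 2) * t0 ≤ (|κ| + 2) * (1 / (|κ| + 2)) :=
      mul_le_mul_of_nonneg_left (by linarith) (by linarith)
    have h2 : (|κ| + 2) * (1 / (|κ| + 2)) = 1 := by field_simp
    linarith
  have hκc := abs_le.1 (κc c cp.le cc)
  have hτ1 : t0 + κ * c ≤ ρ := by linarith
  refine tip_L ρ0 ρ1 t0p (by linarith) ?_ ?_
  · rintro t ht0 ht1 hq ⟨hD, -⟩
    exact far_case ρ0 he hκe he1 hgh e0.symm (nf t ht0 (by linarith)).2.le (by linarith) hq a hD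
  · rintro s hs0 hs1 hq ⟨hD, hE⟩
    have d1 : 0 < s - (f t0 - g s) := hD.1
    have d3 : g (s - (f t0 - g s)) < g s + (t0 - s) := hD.2.2.1
    have v1 : 0 < t0 - (f t0 - g s) := hE.1
    have v4 : f t0 + (t0 - s) < f (t0 - (f t0 - g s)) := hE.2.2.2
    obtain ⟨q, hq'⟩ : ∃ q, q = f t0 - g s := ⟨_, rfl⟩
    rw [← hq'] at d1 d3 v1 v4
    have q0 : 0 ≤ q := by linarith
    have hb := hbelow (t0 - q) v1.le (by linarith)
    rw [← hgh s hs0 hs1] at hq' d3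
    rw [← hgh (s - q) d1.le (by linarith)] at d3
    have eτ : t0 - q + κ * c = t0 + κ * c - q := by ring
    rw [eτ] at hb
    refine near_point (τ := t0 + κ * c) (s := s) (q := q) he cp t0p hM hκ hκe he1 hMe t0M t0K1
      t0K rfl ?_ q0 hs1 hτ1 (by linarith) (by linarith) (by linarith) ?_ a b
    · rw [hq', htouch]; ring
    · have h1 : c * (t0 - q) = c * t0 - c * q := by ring
      rw [h1] at hb
      linarith

end Pool.Agent.X150.TG
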