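import Pool.Agent.X150.TG.Tips2

/-! Ends where one graph has a curvature bound on one side and the other graph is arbitrary. -/

set_option autoImplicit false
open Set Topology Filter

namespace Pool.Agent.X150.TG

variable {f g gh : ℝ → ℝ} {κ e M ρ c t0 s q : ℝ}

/-- reflection in a horizontal line -/
theorem tip_refl (h : Tip (fun x => -g x) (fun x => -f x)) : Tip f g := by
  obtain ⟨Φ, cΦ, pΦ, nΦ, oΦ⟩ := h
  refine ⟨fun s t => Φ t s, cΦ.comp (by fun_prop : Continuous fun p : ℝ × ℝ => ((p.2, p.1) : ℝ × ℝ)),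
    pΦ, fun s h0 h1 => ⟨(nΦ s h0 h1).2, (nΦ s h0 h1).1⟩, ?_⟩
  rintro s t s0 s1 t0 t1 hz hq ⟨hD, hE⟩
  refine oΦ t s t0 t1 s0 s1 hz (by linarith) ⟨?_, ?_⟩
  · obtain ⟨u1, u2, u3, u4⟩ := hE
    have e1 : t - (-g s - -f t) = t - (f t - g s) := by ring
    rw [e1]
    exact ⟨u1, u2, by linarith, by linarith⟩
  · obtain ⟨u1, u2, u3, u4⟩ := hD
    have e1 : s - (-g s - -f t) = s - (f t - g s) := by ring
    rw [e1]
    exact ⟨u1, u2, by linarith, by linarith⟩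

/-- the distance of the chord from the translated position -/
theorem core_bound (he : 0 < e) (hc : 0 < c) (ht0 : 0 < t0) (hq : 0 ≤ q)
    (h1 : 4 * (|κ| + 1) * e ≤ 1) (h2 : (|κ| + 2) * t0 ≤ 1)
    {X θ θ' : ℝ} (hθ : |θ| ≤ e * |X|) (hθ' : |θ'| ≤ e * q)
    (eX : X = θ' + κ * (c * t0 - κ * X + θ)) (eq : q = c + c * t0 - κ * X + θ) :
    |X| ≤ c * (t0 + 8 * e) ∧ q ≤ 4 * c := by
  have k0 := abs_nonneg κ
  have x0 := abs_nonneg X
  have he1 : 4 * e ≤ 1 := by nlinarith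
  have hsq : |κ| ^ 2 = κ ^ 2 := sq_abs κ
  have a1 : (1 + κ ^ 2) * |X| ≤ e * q + |κ| * (c * t0) + |κ| * (e * |X|) := by
    have e1 : (1 + κ ^ 2) * X = θ' + κ * (c * t0) + κ * θ := by linear_combination eX
    have e2 : (1 + κ ^ 2) * |X| = |(1 + κ ^ 2) * X| := by
      rw [abs_mul, abs_of_pos (by positivity : 0 < 1 + κ ^ 2)]
    rw [e2, e1]
    have b1 := abs_add_le (θ' + κ * (c * t0)) (κ * θ)
    have b2 := abs_add_le θ' (κ * (c * t0))
    have b3 : |κ * (c * t0)| = |κ| * (c * t0) := by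
      rw [abs_mul, abs_of_pos (by positivity : 0 < c * t0)]
    have b4 : |κ * θ| ≤ |κ| * (e * |X|) := by
      rw [abs_mul]; exact mul_le_mul_of_nonneg_left hθ k0
    linarith
  have a2 : 2 * |κ| ≤ 1 + κ ^ 2 := by nlinarith [sq_nonneg (|κ| - 1)]
  have a3 : |κ| * (e * |X|) ≤ (1 + κ ^ 2) / 4 * |X| := by
    have : |κ| * e ≤ 1 / 4 := by nlinarith
    have h3 : |κ| * e * |X| ≤ 1 / 4 * |X| := mul_le_mul_of_nonneg_right this x0
    nlinarith [mul_nonneg (sq_nonneg κ) x0]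
  have a4 : |κ| * (c * t0) ≤ (1 + κ ^ 2) / 2 * (c * t0) :=
    mul_le_mul_of_nonneg_right (by linarith) (by positivity)
  have hct : 0 < c * t0 := by positivity
  have a5 : |X| ≤ 2 * (e * q) + c * t0 := by
    have h3 : (1 + κ ^ 2) / 2 * |X| ≤ e * q + (1 + κ ^ 2) / 2 * (c * t0) := by nlinarith
    have h4 : e * q ≤ (1 + κ ^ 2) / 2 * (2 * (e * q)) := by
      nlinarith [mul_nonneg (sq_nonneg κ) (mul_nonneg he.le hq)]
    have h5 : (1 + κ ^ 2) / 2 * |X| ≤ (1 + κ ^ 2) / 2 * (2 * (e * q) + c * t0) := by linarith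
    exact le_of_mul_le_mul_left h5 (by positivity)
  have a6 : q ≤ c + c * t0 + (|κ| + 1) * |X| := by
    have b1 : -(κ * X) ≤ |κ| * |X| := by rw [← abs_mul]; exact neg_le_abs _
    have b2 : θ ≤ e * |X| := (le_abs_self θ).trans hθ
    have b3 : e * |X| ≤ 1 * |X| := mul_le_mul_of_nonneg_right (by linarith) x0
    linarith
  have a7 : q ≤ 4 * c := by
    have b1 : (|κ| + 1) * |X| ≤ (|κ| + 1) * (2 * (e * q) + c * t0) :=
      mul_le_mul_of_nonneg_left a5 (by positivity)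
    have b2 : (4 * (|κ| + 1) * e) * q ≤ 1 * q := mul_le_mul_of_nonneg_right h1 hq
    have b3 : ((|κ| + 2) * t0) * c ≤ 1 * c := mul_le_mul_of_nonneg_right h2 hc.le
    nlinarith
  refine ⟨?_, a7⟩
  have : e * q ≤ e * (4 * c) := mul_le_mul_of_nonneg_left a7 he.le
  linarith

/-- a touching translate -/
theorem exists_touch (cf : Continuous f) (cg : Continuous gh) (h0 : f 0 = gh 0)
    {x1 c1 : ℝ} (hx1 : 0 < x1) (hc1 : 0 < c1) (hlt : gh x1 < f x1)
    (hpos : ∀ c, 0 < c → c ≤ c1 → gh 0 < gh (κ * c) + c)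
    (hup : ∀ x, 0 ≤ x → x ≤ x1 → f x < gh (x + κ * c1) + c1 + c1 * x) :
    ∃ t0 c, 0 < t0 ∧ t0 ≤ x1 ∧ 0 < c ∧ c ≤ c1 ∧ f t0 = gh (t0 + κ * c) + c + c * t0 ∧
      ∀ x, 0 ≤ x → x ≤ x1 → f x ≤ gh (x + κ * c) + c + c * x := by
  set K : Set (ℝ × ℝ) := (Icc 0 x1 ×ˢ Icc 0 c1) ∩
    {p | f p.1 = gh (p.1 + κ * p.2) + p.2 + p.2 * p.1} with hK
  have cK : IsCompact K := (isCompact_Icc.prod isCompact_Icc).inter_right
    (isClosed_eq (by fun_prop) (by fun_prop))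
  have root : ∀ x c, 0 ≤ x → x ≤ x1 → 0 ≤ c → c ≤ c1 → gh (x + κ * c) + c + c * x < f x →
      ∃ c', c < c' ∧ (x, c') ∈ K := by
    intro x c hx hx' hc hc' hlt
    have cont : Continuous fun c => gh (x + κ * c) + c + c * x := by fun_prop
    obtain ⟨c', hc2, hc3⟩ := intermediate_value_Icc hc' cont.continuousOn
      (show f x ∈ Icc _ _ from ⟨hlt.le, (hup x hx hx').le⟩)
    simp only at hc3
    refine ⟨c', ?_, ⟨⟨hx, hx'⟩, ⟨hc.trans hc2.1, hc2.2⟩⟩, hc3.symm⟩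
    rcases hc2.1.lt_or_eq with h | h
    · exact h
    · rw [← h] at hc3
      linarith
  obtain ⟨c2, hc2, hm2⟩ := root x1 0 hx1.le le_rfl le_rfl hc1.le (by simpa using hlt)
  obtain ⟨p, hp, hmax⟩ := cK.exists_isMaxOn ⟨_, hm2⟩
    (continuous_snd : Continuous fun p : ℝ × ℝ => p.2).continuousOn
  have hpm : c2 ≤ p.2 := hmax hm2
  obtain ⟨⟨⟨q1, q2⟩, q3, q4⟩, q5⟩ := hp
  have c0 : 0 < p.2 := lt_of_lt_of_le hc2 hpm
  simp only [mem_ofPred_eq] at q5
  refine ⟨p.1, p.2, ?_, q2, c0, q4, q5, ?_⟩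
  · rcases q1.lt_or_eq with h | h
    · exact h
    · rw [← h] at q5
      have := hpos p.2 c0 q4
      simp only [zero_add, mul_zero, add_zero] at q5
      linarith
  · intro x hx hx'
    by_contra hcon
    push Not at hcon
    obtain ⟨c', hc', hm'⟩ := root x p.2 hx hx' c0.le q4 hcon
    have : c' ≤ p.2 := hmax hm'
    linarith

/-- the point cannot lie on the left (concave type) -/
theorem side_conc {Y m : ℝ} (he : 0 < e) (hc : 0 < c) (ht0 : 0 < t0)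
    (hκ : 4 * (|κ| + 1) * e ≤ 1) (hκe : |κ| * e ≤ 1 / 4) (he1 : e ≤ 1 / 4)
    (t0K : |κ| * t0 ≤ e / 2) (Y0 : 0 < Y)
    (hm1 : |m - κ * Y| ≤ e * Y)
    (n3 : κ * (c * t0 + m) + e / 2 * (c + c * t0 + m) < -Y) : False := by
  have k0 := abs_nonneg κ
  have hmA : κ ^ 2 * Y - 1 / 4 * Y ≤ κ * m := by
    have h1 : |κ * (m - κ * Y)| ≤ |κ| * (e * Y) := by
      rw [abs_mul]; exact mul_le_mul_of_nonneg_left hm1 k0
    have h2 := (abs_le.1 h1).1
    have h3 : |κ| * e * Y ≤ 1 / 4 * Y := mul_le_mul_of_nonneg_right hκe Y0.le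
    have h4 : κ * (m - κ * Y) = κ * m - κ ^ 2 * Y := by ring
    have h5 : |κ| * (e * Y) = |κ| * e * Y := by ring
    linarith
  have hmB : -(|κ| * Y) - e * Y ≤ m := by
    have h1 : -(|κ| * Y) ≤ κ * Y := by
      have := mul_le_mul_of_nonneg_right (neg_abs_le κ) Y0.le
      linarith
    linarith [(abs_le.1 hm1).1]
  have h5 : e / 2 * (-(|κ| * Y) - e * Y) ≤ e / 2 * m :=
    mul_le_mul_of_nonneg_left hmB (by linarith)
  have h5' : e / 2 * (-(|κ| * Y) - e * Y) = -(1 / 2 * (|κ| * e * Y)) - 1 / 2 * (e * e * Y) := by ring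
  have h6 : |κ| * e * Y ≤ 1 / 4 * Y := mul_le_mul_of_nonneg_right hκe Y0.le
  have hee : e * e ≤ 1 / 4 := by nlinarith
  have h7 : e * e * Y ≤ 1 / 4 * Y := mul_le_mul_of_nonneg_right hee Y0.le
  have hct : 0 < c * t0 := by positivity
  have h8 : -(|κ| * (c * t0)) ≤ κ * (c * t0) := by
    have := mul_le_mul_of_nonneg_right (neg_abs_le κ) hct.le
    linarith
  have h9 : |κ| * (c * t0) ≤ e / 2 * c := by
    have := mul_le_mul_of_nonneg_right t0K hc.le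
    linarith
  have h10 : 0 ≤ κ ^ 2 * Y := by positivity
  have h11 : 0 ≤ e / 2 * (c * t0) := by positivity
  have e1 : κ * (c * t0 + m) + e / 2 * (c + c * t0 + m)
      = κ * (c * t0) + κ * m + e / 2 * c + e / 2 * (c * t0) + e / 2 * m := by ring
  rw [e1] at n3
  linarith

/-- the point cannot lie on the right (convex type) -/
theorem side_conv {Y m : ℝ} (he : 0 < e) (hc : 0 < c) (ht0 : 0 < t0)
    (hκ : 4 * (|κ| + 1) * e ≤ 1) (hκe : |κ| * e ≤ 1 / 4) (he1 : e ≤ 1 / 4)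
    (t0K : |κ| * t0 ≤ e / 2) (Y0 : 0 < Y)
    (hm1 : |m - κ * Y| ≤ e * Y)
    (n3 : Y < κ * (c * t0 - m) - e / 2 * (c + c * t0 - m)) : False := by
  have k0 := abs_nonneg κ
  have hmA : κ ^ 2 * Y - 1 / 4 * Y ≤ κ * m := by
    have h1 : |κ * (m - κ * Y)| ≤ |κ| * (e * Y) := by
      rw [abs_mul]; exact mul_le_mul_of_nonneg_left hm1 k0
    have h2 := (abs_le.1 h1).1
    have h3 : |κ| * e * Y ≤ 1 / 4 * Y := mul_le_mul_of_nonneg_right hκe Y0.le
    have h4 : κ * (m - κ * Y) = κ * m - κ ^ 2 * Y := by ring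
    have h5 : |κ| * (e * Y) = |κ| * e * Y := by ring
    linarith
  have hmB : m ≤ |κ| * Y + e * Y := by
    have h1 : κ * Y ≤ |κ| * Y := mul_le_mul_of_nonneg_right (le_abs_self κ) Y0.le
    linarith [(abs_le.1 hm1).2]
  have h5 : e / 2 * m ≤ e / 2 * (|κ| * Y + e * Y) :=
    mul_le_mul_of_nonneg_left hmB (by linarith)
  have h5' : e / 2 * (|κ| * Y + e * Y) = 1 / 2 * (|κ| * e * Y) + 1 / 2 * (e * e * Y) := by ring
  have h6 : |κ| * e * Y ≤ 1 / 4 * Y := mul_le_mul_of_nonneg_right hκe Y0.le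
  have hee : e * e ≤ 1 / 4 := by nlinarith
  have h7 : e * e * Y ≤ 1 / 4 * Y := mul_le_mul_of_nonneg_right hee Y0.le
  have hct : 0 < c * t0 := by positivity
  have h8 : κ * (c * t0) ≤ |κ| * (c * t0) := mul_le_mul_of_nonneg_right (le_abs_self κ) hct.le
  have h9 : |κ| * (c * t0) ≤ e / 2 * c := by
    have := mul_le_mul_of_nonneg_right t0K hc.le
    linarith
  have h10 : 0 ≤ κ ^ 2 * Y := by positivity
  have h11 : 0 ≤ e / 2 * (c * t0) := by positivity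
  have e1 : κ * (c * t0 - m) - e / 2 * (c + c * t0 - m)
      = κ * (c * t0) - κ * m - e / 2 * c - e / 2 * (c * t0) + e / 2 * m := by ring
  rw [e1] at n3
  linarith

end Pool.Agent.X150.TG
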