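import Pool.Agent.X150.TG.Curv1

/-! Ends where one graph has a curvature bound on one side and the other graph is arbitrary:
the position of the touching point. -/

set_option autoImplicit false
open Set Topology Filter

namespace Pool.Agent.X150.TG

variable {gh : ℝ → ℝ} {κ e M ρ c t0 s q τ : ℝ}

/-- the far point -/
theorem far_point {φ γ : ℝ} (he : 0 < e) (ρ0 : 0 < ρ) (hκe : |κ| * e ≤ 1 / 4) (he1 : e ≤ 1 / 4)
    (hφ : (|κ| + 1) * |φ| ≤ ρ / 16) (hγ : |γ - κ * ρ| ≤ e * ρ) :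
    κ * (φ - γ) + e * (φ - γ) ≤ 11 / 16 * ρ := by
  have k0 := abs_nonneg κ
  have φ0 := abs_nonneg φ
  have b1 : κ * (φ - γ) = κ * φ - κ ^ 2 * ρ - κ * (γ - κ * ρ) := by ring
  have b2 : κ * φ ≤ |κ| * |φ| := by rw [← abs_mul]; exact le_abs_self _
  have b3 : -(κ * (γ - κ * ρ)) ≤ |κ| * (e * ρ) := by
    have h1 : |κ * (γ - κ * ρ)| ≤ |κ| * (e * ρ) := by
      rw [abs_mul]; exact mul_le_mul_of_nonneg_left hγ k0
    have := neg_le_abs (κ * (γ - κ * ρ))
    linarith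
  have b4 : 0 ≤ κ ^ 2 * ρ := by positivity
  have b5 : |κ| * (e * ρ) ≤ 1 / 4 * ρ := by
    have := mul_le_mul_of_nonneg_right hκe ρ0.le
    linarith
  have b6 : 0 ≤ |κ| * |φ| := by positivity
  have b7 : φ - γ ≤ |φ| + |κ| * ρ + e * ρ := by
    have h1 := le_abs_self φ
    have h2 : -(κ * ρ) ≤ |κ| * ρ := by
      have := mul_le_mul_of_nonneg_right (neg_abs_le κ) ρ0.le
      linarith
    linarith [(abs_le.1 hγ).1]
  have b8 : e * (φ - γ) ≤ e * (|φ| + |κ| * ρ + e * ρ) := mul_le_mul_of_nonneg_left b7 he.le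
  have b9 : e * |φ| ≤ 1 / 4 * |φ| := mul_le_mul_of_nonneg_right he1 φ0
  have hee : e * e ≤ 1 / 16 := by nlinarith
  have b11 : e * (e * ρ) ≤ 1 / 16 * ρ := by
    have := mul_le_mul_of_nonneg_right hee ρ0.le
    linarith
  have e8 : e * (|φ| + |κ| * ρ + e * ρ) = e * |φ| + |κ| * (e * ρ) + e * (e * ρ) := by ring
  have e9 : (|κ| + 1) * |φ| = |κ| * |φ| + |φ| := by ring
  rw [e8] at b8
  rw [e9] at hφ
  linarith

/-- position of the point, concave type -/
theorem pos_conc (he : 0 < e) (hc : 0 < c) (ht0 : 0 < t0)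
    (hκ : 4 * (|κ| + 1) * e ≤ 1) (hκe : |κ| * e ≤ 1 / 4) (he1 : e ≤ 1 / 4)
    (t0K : |κ| * t0 ≤ e / 2) (hτ : τ = t0 + κ * c)
    (hqe : q = c + c * t0 + (gh τ - gh s))
    (hcq : 0 ≤ c * q)
    (eii : gh τ - gh (τ - q) + c * q < s - t0)
    (m1 : (κ + e / 2) * q ≤ gh τ - gh (τ - q))
    (m3 : (κ - e) * (τ - s) ≤ gh τ - gh s ∧ gh τ - gh s ≤ (κ + e) * (τ - s))
    (hst : s < τ) : False := by
  have Y0 : 0 < τ - s := by linarith
  have hm1 : |(gh τ - gh s) - κ * (τ - s)| ≤ e * (τ - s) := by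
    rw [abs_le]; constructor <;> linarith [m3.1, m3.2]
  have n3 : κ * (c * t0 + (gh τ - gh s)) + e / 2 * (c + c * t0 + (gh τ - gh s)) < -(τ - s) := by
    have h1 : (κ + e / 2) * q = κ * c + (κ * (c * t0 + (gh τ - gh s)) +
      e / 2 * (c + c * t0 + (gh τ - gh s))) := by rw [hqe]; ring
    rw [h1] at m1
    linarith
  exact side_conc he hc ht0 hκ hκe he1 t0K Y0 hm1 n3

/-- position of the point, convex type -/
theorem pos_conv (he : 0 < e) (hc : 0 < c) (ht0 : 0 < t0)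
    (hκ : 4 * (|κ| + 1) * e ≤ 1) (hκe : |κ| * e ≤ 1 / 4) (he1 : e ≤ 1 / 4)
    (t0K : |κ| * t0 ≤ e / 2) (hτ : τ = t0 + κ * c)
    (hqe : q = c + c * t0 + (gh τ - gh s))
    (ei : s - t0 < gh s - gh (s - q))
    (m1 : gh s - gh (s - q) ≤ (κ - e / 2) * q)
    (m3 : (κ - e) * (s - τ) ≤ gh s - gh τ ∧ gh s - gh τ ≤ (κ + e) * (s - τ))
    (hst : τ < s) : False := by
  have Y0 : 0 < s - τ := by linarith
  have hm1 : |(gh s - gh τ) - κ * (s - τ)| ≤ e * (s - τ) := by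
    rw [abs_le]; constructor <;> linarith [m3.1, m3.2]
  have n3 : s - τ < κ * (c * t0 - (gh s - gh τ)) - e / 2 * (c + c * t0 - (gh s - gh τ)) := by
    have h1 : (κ - e / 2) * q = κ * c + (κ * (c * t0 - (gh s - gh τ)) -
      e / 2 * (c + c * t0 - (gh s - gh τ))) := by rw [hqe]; ring
    rw [h1] at m1
    linarith
  exact side_conv he hc ht0 hκ hκe he1 t0K Y0 hm1 n3

/-- no inner chord ends at the touching point -/
theorem near_point (he : 0 < e) (hc : 0 < c) (ht0 : 0 < t0) (hM : 1 ≤ M)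
    (hκ : 4 * (|κ| + 1) * e ≤ 1) (hκe : |κ| * e ≤ 1 / 4) (he1 : e ≤ 1 / 4)
    (hMe : 16 * M * e ≤ 1) (t0M : M * t0 ≤ 1 / 2) (t0K1 : (|κ| + 2) * t0 ≤ 1)
    (t0K : |κ| * t0 ≤ e / 2) (hτ : τ = t0 + κ * c)
    (hqe : q = c + c * t0 + (gh τ - gh s)) (q0 : 0 ≤ q)
    (hs1 : s ≤ ρ) (hτ1 : τ ≤ ρ) (slo : -ρ ≤ s - q) (τlo : -ρ ≤ τ - q)
    (ei : s - t0 < gh s - gh (s - q))
    (eii : gh τ - gh (τ - q) + c * q < s - t0)
    (a : ∀ x y, -ρ ≤ x → x ≤ y → y ≤ ρ →
      (κ - e) * (y - x) ≤ gh y - gh x ∧ gh y - gh x ≤ (κ + e) * (y - x))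
    (b : ((∀ x y q, 0 ≤ q → -ρ ≤ y - q → y ≤ x → x ≤ ρ →
        (gh x - gh (x - q)) - (gh y - gh (y - q)) ≤ M * q * (x - y)) ∧
      ∀ x y, -ρ ≤ x → x ≤ y → y ≤ ρ → (κ + e / 2) * (y - x) ≤ gh y - gh x) ∨
      ((∀ x y q, 0 ≤ q → -ρ ≤ x - q → x ≤ y → y ≤ ρ →
        (gh x - gh (x - q)) - (gh y - gh (y - q)) ≤ M * q * (y - x)) ∧
      ∀ x y, -ρ ≤ x → x ≤ y → y ≤ ρ → gh y - gh x ≤ (κ - e / 2) * (y - x))) : False := by
  have hs' : -ρ ≤ s := by linarith
  have hτ' : -ρ ≤ τ := by linarith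
  have sqs : s - q ≤ s := by linarith
  have τqτ : τ - q ≤ τ := by linarith
  have as1 := a (s - q) s slo sqs hs1
  have aτ1 := a (τ - q) τ τlo τqτ hτ1
  have er1 : s - (s - q) = q := by ring
  have er2 : τ - (τ - q) = q := by ring
  rw [er1] at as1
  rw [er2] at aτ1
  have hcq : 0 ≤ c * q := mul_nonneg hc.le q0
  have hθ : |gh τ - gh s - κ * (τ - s)| ≤ e * |s - τ| := by
    rcases le_total s τ with h | h
    · have := a s τ hs' h hτ1
      rw [abs_of_nonpos (by linarith : s - τ ≤ 0), abs_le]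
      constructor <;> linarith [this.1, this.2]
    · have := a τ s hτ' h hs1
      rw [abs_of_nonneg (by linarith : 0 ≤ s - τ), abs_le]
      constructor <;> linarith [this.1, this.2]
  have hθ' : |s - t0 - κ * q| ≤ e * q := by
    rw [abs_le]; constructor <;> linarith [as1.2, aτ1.1]
  have hq1 : q = c + c * t0 - κ * (s - τ) + (gh τ - gh s - κ * (τ - s)) := by
    rw [hqe]; ring
  have hXe : s - τ = (s - t0 - κ * q) +
      κ * (c * t0 - κ * (s - τ) + (gh τ - gh s - κ * (τ - s))) := by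
    have h1 : c * t0 - κ * (s - τ) + (gh τ - gh s - κ * (τ - s)) = q - c := by
      rw [hqe]; ring
    rw [h1, hτ]; ring
  obtain ⟨X1, X2⟩ := core_bound he hc ht0 q0 hκ t0K1 hθ hθ' hXe hq1
  have qpos : 0 < q := by
    rcases q0.lt_or_eq with h | h
    · exact h
    · rw [← h] at ei eii
      simp only [sub_zero, sub_self, mul_zero, add_zero] at ei eii
      linarith
  have M0 : 0 < M := by linarith
  have fin : c * q < M * q * |s - τ| → False := by
    intro h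
    have h1 : M * q * |s - τ| ≤ M * q * (c * (t0 + 8 * e)) :=
      mul_le_mul_of_nonneg_left X1 (by positivity)
    have h2 : M * (t0 + 8 * e) ≤ 1 := by linarith
    have h3 : (q * c) * (M * (t0 + 8 * e)) ≤ (q * c) * 1 :=
      mul_le_mul_of_nonneg_left h2 (by positivity)
    linarith
  have hsec : c * q < (gh s - gh (s - q)) - (gh τ - gh (τ - q)) := by linarith
  rcases b with ⟨b1, b2⟩ | ⟨b1, b2⟩
  · have hsτ : τ ≤ s := by
      by_contra hcon
      push Not at hcon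
      have m1 := b2 (τ - q) τ τlo τqτ hτ1
      rw [er2] at m1
      exact pos_conc he hc ht0 hκ hκe he1 t0K hτ hqe hcq eii m1 (a s τ hs' hcon.le hτ1) hcon
    have h1 := b1 s τ q q0 τlo hsτ hs1
    apply fin
    rw [abs_of_nonneg (by linarith : 0 ≤ s - τ)]
    linarith
  · have hsτ : s ≤ τ := by
      by_contra hcon
      push Not at hcon
      have m1 := b2 (s - q) s slo sqs hs1
      rw [er1] at m1
      exact pos_conv he hc ht0 hκ hκe he1 t0K hτ hqe ei m1 (a τ s hτ' hcon.le hs1) hcon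
    have h1 := b1 s τ q q0 slo hsτ hτ1
    apply fin
    rw [abs_of_nonpos (by linarith : s - τ ≤ 0)]
    have : M * q * -(s - τ) = M * q * (τ - s) := by ring
    rw [this]
    linarith

end Pool.Agent.X150.TG
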