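import Pool.Agent.X150.TG.Zero
import Pool.Agent.TH829.Peg.Sep

/-! The closed curve formed by two graphs. -/

set_option autoImplicit false
open Complex Set Topology Metric

namespace Pool.Agent.X150.TG

open Pool.Agent.H763R2 Pool.Agent.H763R2.An Pool.Agent.H765R3.Peg Pool.Agent.TH829.Peg
open Pool.Agent.H763R2.Dm (NoSq)

/-- distance to the nearest integer -/
noncomputable def dd (z : ℝ) : ℝ := ‖(z : UnitAddCircle)‖

theorem dd_cont : Continuous dd := continuous_norm.comp (AddCircle.continuous_mk' 1)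

theorem dd_abs {z : ℝ} (h : |z| ≤ 1 / 2) : dd z = |z| := by
  unfold dd
  exact (AddCircle.norm_coe_eq_abs_iff (1:ℝ) one_ne_zero).2 (by rwa [abs_one])

theorem dd_add_int (z : ℝ) (n : ℤ) : dd (z + n) = dd z := by
  unfold dd
  congr 1
  have : ((n : ℝ) : UnitAddCircle) = 0 := by
    have := AddCircle.coe_period (1:ℝ)
    have h2 : ((n : ℝ) : UnitAddCircle) = n • ((1:ℝ) : UnitAddCircle) := by
      rw [← AddCircle.coe_zsmul]; simp
    rw [h2, this, smul_zero]
  rw [AddCircle.coe_add, this, add_zero]

theorem dd_nonneg (z : ℝ) : 0 ≤ dd z := norm_nonneg _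

theorem dd_one_sub (z : ℝ) : dd (1 - z) = dd z := by
  have h := dd_add_int (-z) 1
  push_cast at h
  rw [show 1 - z = -z + 1 by ring, h]
  unfold dd
  rw [AddCircle.coe_neg, norm_neg]

theorem dd_le_half (z : ℝ) : dd z ≤ 1 / 2 := by
  have := AddCircle.norm_le_half_period (1:ℝ) (x := (z : UnitAddCircle)) one_ne_zero
  rwa [abs_one] at this

/-- the curve on a period -/
noncomputable def gam (f g : ℝ → ℝ) (t : ℝ) : ℂ :=
  ⟨2 * |t|, if t ≤ 0 then f (2 * |t|) else g (2 * |t|)⟩

/-- the closed curve formed by the graphs of `f` and `g` -/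
noncomputable def crv (f g : ℝ → ℝ) (t : ℝ) : ℂ :=
  AddCircle.liftIco 1 (-(1 / 2) : ℝ) (gam f g) (t : AddCircle (1:ℝ))

/-- the two functions -/
structure Two (f g : ℝ → ℝ) : Prop where
  cf : Continuous f
  cg : Continuous g
  e0 : f 0 = g 0
  e1 : f 1 = g 1
  lt : ∀ x, 0 < x → x < 1 → g x < f x

variable {f g : ℝ → ℝ}

theorem gam_cont (T : Two f g) : Continuous (gam f g) := by
  have h1 : Continuous fun t : ℝ => if t ≤ 0 then f (2 * |t|) else g (2 * |t|) := by
    refine Continuous.if_le (T.cf.comp (by fun_prop)) (T.cg.comp (by fun_prop)) continuous_id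
      continuous_const (fun t ht => ?_)
    rw [ht]; simp only [abs_zero, mul_zero, T.e0]
  have h2 : gam f g = fun t => (((2 * |t| : ℝ)) : ℂ) +
      (((if t ≤ 0 then f (2 * |t|) else g (2 * |t|) : ℝ)) : ℂ) * I := by
    funext t
    apply Complex.ext <;> simp [gam]
  rw [h2]
  fun_prop

theorem gam_ends (T : Two f g) : gam f g (-(1 / 2)) = gam f g (-(1 / 2) + 1) := by
  unfold gam
  have e1 : 2 * |(-(1 / 2) : ℝ)| = 1 := by rw [abs_neg, abs_of_pos (by norm_num)]; norm_num
  have e2 : 2 * |(-(1 / 2) + 1 : ℝ)| = 1 := by rw [abs_of_pos (by norm_num)]; norm_num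
  rw [e1, e2, if_pos (by norm_num), if_neg (by norm_num), T.e1]

theorem crv_cont (T : Two f g) : Continuous (crv f g) := by
  unfold crv
  exact (AddCircle.liftIco_continuous (gam_ends T) (gam_cont T).continuousOn).comp
    (AddCircle.continuous_mk' 1)

theorem crv_per (t : ℝ) : crv f g (t + 1) = crv f g t := by
  unfold crv
  rw [AddCircle.coe_add, AddCircle.coe_period, add_zero]

theorem crv_loop (T : Two f g) : Loop (crv f g) := ⟨crv_cont T, crv_per⟩

theorem crv_int (t : ℝ) (n : ℤ) : crv f g (t + n) = crv f g t := by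
  have h : Function.Periodic (crv f g) 1 := crv_per
  have := h.int_mul n t
  simpa using this

theorem crv_gam (T : Two f g) {t : ℝ} (h1 : -(1 / 2) ≤ t) (h2 : t ≤ 1 / 2) :
    crv f g t = gam f g t := by
  rcases h2.lt_or_eq with h | h
  · exact AddCircle.liftIco_coe_apply ⟨h1, by linarith⟩
  · have e := crv_per (f := f) (g := g) (-(1 / 2))
    rw [show -(1 / 2) + 1 = t by rw [h]; norm_num] at e
    rw [e]
    have e2 : crv f g (-(1 / 2)) = gam f g (-(1 / 2)) :=
      AddCircle.liftIco_coe_apply ⟨le_rfl, by norm_num⟩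
    rw [e2, gam_ends T, h]
    norm_num

/-- every parameter has a representative in the basic period -/
theorem exists_rep (t : ℝ) : ∃ n : ℤ, -(1 / 2) ≤ t - n ∧ t - n < 1 / 2 :=
  ⟨⌊t + 1 / 2⌋, by have := Int.floor_le (t + 1 / 2); linarith,
    by have := Int.lt_floor_add_one (t + 1 / 2); linarith⟩

theorem crv_re (T : Two f g) (t : ℝ) : (crv f g t).re = 2 * dd t := by
  obtain ⟨n, h1, h2⟩ := exists_rep t
  have e : t = (t - n) + n := by ring
  have e2 : crv f g t = gam f g (t - n) := by
    conv_lhs => rw [e]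
    rw [crv_int, crv_gam T h1 h2.le]
  have e3 : dd t = |t - n| := by
    conv_lhs => rw [e]
    rw [dd_add_int, dd_abs (abs_le.2 ⟨by linarith, h2.le⟩)]
  rw [e2, e3]
  rfl

/-- points of the curve -/
theorem crv_mem (T : Two f g) (t : ℝ) : 0 ≤ (crv f g t).re ∧ (crv f g t).re ≤ 1 ∧
    ((crv f g t).im = f (crv f g t).re ∨ (crv f g t).im = g (crv f g t).re) := by
  have h1 := dd_nonneg t
  have h2 := dd_le_half t
  refine ⟨by rw [crv_re T]; linarith, by rw [crv_re T]; linarith, ?_⟩
  obtain ⟨n, h1, h2⟩ := exists_rep t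
  have e2 : crv f g t = gam f g (t - n) := by
    rw [← crv_gam T h1 h2.le, ← crv_int (t - n) n]; ring_nf
  rw [e2]
  unfold gam
  simp only
  split_ifs
  · left; rfl
  · right; rfl

theorem top_mem (T : Two f g) {x : ℝ} (h0 : 0 ≤ x) (h1 : x ≤ 1) :
    (⟨x, f x⟩ : ℂ) ∈ range (crv f g) := by
  refine ⟨-(x / 2), ?_⟩
  rw [crv_gam T (by linarith) (by linarith)]
  unfold gam
  have e : 2 * |-(x / 2)| = x := by rw [abs_neg, abs_of_nonneg (by linarith)]; ring
  rw [if_pos (by linarith), e]

theorem bot_mem (T : Two f g) {x : ℝ} (h0 : 0 ≤ x) (h1 : x ≤ 1) :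
    (⟨x, g x⟩ : ℂ) ∈ range (crv f g) := by
  rcases h0.lt_or_eq with h | h
  · refine ⟨x / 2, ?_⟩
    rw [crv_gam T (by linarith) (by linarith)]
    unfold gam
    have e : 2 * |x / 2| = x := by rw [abs_of_nonneg (by linarith)]; ring
    rw [if_neg (by push Not; linarith), e]
  · have := top_mem T h0 h1
    rw [← h] at this ⊢
    rwa [T.e0] at this

theorem crv_inj (T : Two f g) : Inj (crv f g) := by
  intro x y h1 h2 he
  obtain ⟨n, a1, a2⟩ := exists_rep x
  obtain ⟨m, b1, b2⟩ := exists_rep y
  have ex : crv f g x = gam f g (x - n) := by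
    rw [← crv_gam T a1 a2.le, ← crv_int (x - n) n]; ring_nf
  have ey : crv f g y = gam f g (y - m) := by
    rw [← crv_gam T b1 b2.le, ← crv_int (y - m) m]; ring_nf
  rw [ex, ey] at he
  have hre := congrArg Complex.re he
  have him := congrArg Complex.im he
  unfold gam at hre him
  simp only at hre him
  have habs : |x - n| = |y - m| := by linarith
  have hxy : x - n = y - m := by
    rcases abs_eq_abs.1 habs with h | h
    · exact h
    · -- opposite parameters
      rcases lt_trichotomy (x - n) 0 with h3 | h3 | h3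
      · have h4 : 0 < y - m := by linarith
        rw [if_pos h3.le, if_neg (by push Not; exact h4), habs] at him
        have := T.lt (2 * |y - m|) (by rw [abs_of_pos h4]; linarith)
          (by rw [abs_of_pos h4]; linarith)
        linarith
      · linarith
      · have h4 : y - m < 0 := by linarith
        rw [if_neg (by push Not; exact h3), if_pos h4.le, ← habs] at him
        have := T.lt (2 * |x - n|) (by rw [abs_of_pos h3]; linarith)
          (by rw [abs_of_pos h3]; linarith)
        linarith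
  have h3 : ((m - n : ℤ) : ℝ) = y - x := by push_cast; linarith
  have h4 : (0:ℤ) < m - n := by
    have : (0:ℝ) < ((m - n : ℤ) : ℝ) := by rw [h3]; linarith
    exact_mod_cast this
  have h5 : m - n < (1:ℤ) := by
    have : ((m - n : ℤ) : ℝ) < 1 := by rw [h3]; linarith
    exact_mod_cast this
  omega

/-- points with positive signed distance are strictly between the graphs -/
theorem ins_of_pos (T : Two f g) {z : ℂ} (h : 0 < mgc (crv f g) z) : Ins f g z.re z.im := by
  have L := crv_loop T
  have hz : z ∉ range (crv f g) := fun hm => by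
    rw [((mgc_sg L).zero L).2 hm] at h; exact lt_irrefl _ h
  obtain ⟨s1, hs1, t1, e1⟩ := ray L (v := I) I_ne_zero h.le
  obtain ⟨s2, hs2, t2, e2⟩ := ray L (v := -I) (neg_ne_zero.2 I_ne_zero) h.le
  have r1 := congrArg Complex.re e1
  have i1 := congrArg Complex.im e1
  have r2 := congrArg Complex.re e2
  have i2 := congrArg Complex.im e2
  simp at r1 i1 r2 i2
  obtain ⟨a1, a2, a3⟩ := crv_mem T t1
  obtain ⟨b1, b2, b3⟩ := crv_mem T t2
  rw [r1] at a1 a2 a3
  rw [r2] at b3
  have hgf : g z.re ≤ f z.re := by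
    rcases a1.lt_or_eq with h | h
    · rcases a2.lt_or_eq with h' | h'
      · exact (T.lt _ h h').le
      · rw [h', T.e1]
    · rw [← h, T.e0]
  have up : z.im ≤ f z.re := by
    rcases a3 with h | h <;> rw [i1] at h <;> linarith
  have dn : g z.re ≤ z.im := by
    rcases b3 with h | h <;> rw [i2] at h <;> linarith
  have nf : z.im ≠ f z.re := fun h => hz (by
    have := top_mem T a1 a2
    rw [← h] at this; exact this)
  have ng : z.im ≠ g z.re := fun h => hz (by
    have := bot_mem T a1 a2
    rw [← h] at this; exact this)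
  refine ⟨?_, ?_, lt_of_le_of_ne dn ng.symm, lt_of_le_of_ne up nf⟩
  · rcases a1.lt_or_eq with h | h
    · exact h
    · exfalso
      rw [← h] at up dn nf
      rw [T.e0] at up nf
      exact nf (le_antisymm up dn)
  · rcases a2.lt_or_eq with h | h
    · exact h
    · exfalso
      rw [h] at up dn nf
      rw [T.e1] at up nf
      exact nf (le_antisymm up dn)

end Pool.Agent.X150.TG
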