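import Pool.Agent.X150.TG.Main

/-! The data at the ends. -/

set_option autoImplicit false
open Set Topology Metric

namespace Pool.Agent.X150.TG

variable {f g : ℝ → ℝ}

/-- the cut near the left end -/
theorem exists_cut (T : Two f g) {η : ℝ} (hη : 0 < η) : ∃ c, 0 < c ∧ c < η ∧
    ∀ t, c ≤ t → t ≤ 1 → f c ≤ g t → ¬ Ins f g (c - (g t - f c)) (f c + (t - c)) := by
  by_cases hrec : ∀ ε > 0, ∃ c, 0 < c ∧ c < ε ∧ ∀ x, 0 ≤ x → x ≤ c → f x ≤ f c
  · obtain ⟨c, c0, c1, hc⟩ := hrec η hη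
    refine ⟨c, c0, c1, fun t ht _ hfg hI => ?_⟩
    have h1 := hc _ hI.1.le (by linarith)
    have h2 := hI.2.2.2
    linarith
  · push Not at hrec
    obtain ⟨ε, ε0, hε⟩ := hrec
    have below : ∀ x, 0 < x → x < ε → f x < f 0 := by
      intro x x0 xε
      by_contra hcon
      push Not at hcon
      obtain ⟨c, hc, hmax⟩ := isCompact_Icc.exists_isMaxOn (nonempty_Icc.2 x0.le)
        (T.cf.continuousOn (s := Icc 0 x))
      have hmax' : ∀ y, 0 ≤ y → y ≤ x → f y ≤ f c := fun y h1 h2 => hmax ⟨h1, h2⟩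
      rcases hc.1.lt_or_eq with h | h
      · obtain ⟨x', a1, a2, a3⟩ := hε c h (hc.2.trans_lt xε)
        have := hmax' x' a1 (a2.trans hc.2)
        linarith
      · rw [← h] at hmax'
        obtain ⟨x', a1, a2, a3⟩ := hε x x0 xε
        have := hmax' x' a1 a2
        linarith
    set δ := min ε 1 / 2 with hδ
    have hm : min ε 1 ≤ ε := min_le_left _ _
    have hm1 : min ε 1 ≤ 1 := min_le_right _ _
    have hm0 : 0 < min ε 1 := lt_min ε0 one_pos
    have δ0 : 0 < δ := by rw [hδ]; linarith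
    have δε : δ < ε := by rw [hδ]; linarith
    have δ1 : δ < 1 := by rw [hδ]; linarith
    obtain ⟨ρ, ρ0, hρ⟩ := Metric.continuous_iff.1 T.cf 0 (δ / 2) (by linarith)
    have hρ' : ∀ x, 0 ≤ x → x < ρ → |f x - f 0| < δ / 2 := fun x h1 h2 => by
      have := hρ x (by rw [Real.dist_eq, sub_zero, abs_of_nonneg h1]; exact h2)
      rwa [Real.dist_eq] at this
    set η1 := min (min η (δ / 2)) ρ with hη1
    have η10 : 0 < η1 := by positivity
    have l1 : η1 ≤ η := (min_le_left _ _).trans (min_le_left _ _)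
    have l2 : η1 ≤ δ / 2 := (min_le_left _ _).trans (min_le_right _ _)
    have l3 : η1 ≤ ρ := min_le_right _ _
    obtain ⟨m, hm', hmax⟩ := isCompact_Icc.exists_isMaxOn (nonempty_Icc.2 (show η1 ≤ δ by linarith))
      (T.cf.continuousOn (s := Icc η1 δ))
    have fm : f m < f 0 := below m (by linarith [hm'.1]) (by linarith [hm'.2])
    obtain ⟨ρ', ρ'0, hρ2⟩ := Metric.continuous_iff.1 T.cf 0 (f 0 - f m) (by linarith)
    set x1 := min η1 ρ' / 2 with hx1
    have x10 : 0 < x1 := by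
      have : 0 < min η1 ρ' := lt_min η10 ρ'0
      rw [hx1]; linarith
    have x1η : x1 < η1 := by
      have : min η1 ρ' ≤ η1 := min_le_left _ _
      rw [hx1]; linarith
    have x1ρ : x1 < ρ' := by
      have : min η1 ρ' ≤ ρ' := min_le_right _ _
      rw [hx1]; linarith
    have fx1 : f m < f x1 := by
      have := hρ2 x1 (by rw [Real.dist_eq, sub_zero, abs_of_pos x10]; exact x1ρ)
      rw [Real.dist_eq, abs_lt] at this
      linarith [this.1]
    obtain ⟨c, hc, hcmax⟩ := isCompact_Icc.exists_isMaxOn (nonempty_Icc.2 (show x1 ≤ δ by linarith))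
      (T.cf.continuousOn (s := Icc x1 δ))
    have hcm : ∀ y, x1 ≤ y → y ≤ δ → f y ≤ f c := fun y h1 h2 => hcmax ⟨h1, h2⟩
    have cη : c < η1 := by
      by_contra hcon
      push Not at hcon
      have h1 : f c ≤ f m := hmax ⟨hcon, hc.2⟩
      have h2 := hcm x1 le_rfl (by linarith)
      linarith
    have c0 : 0 < c := by linarith [hc.1]
    refine ⟨c, c0, by linarith, fun t ht t1 hfg hI => ?_⟩
    rcases le_or_gt t δ with h | h
    · have h1 := T.lt t (by linarith) (by linarith)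
      have h2 := hcm t (by linarith [hc.1]) h
      linarith
    · have h1 := below _ hI.1 (by linarith)
      have h2 := hI.2.2.2
      have h3 := abs_lt.1 (hρ' c c0.le (by linarith))
      linarith [h3.1]

/-- uniform negativity near an edge -/
theorem edge_neg {Φ : ℝ → ℝ → ℝ} (hΦ : Continuous fun p : ℝ × ℝ => Φ p.1 p.2)
    (h : ∀ t, 0 ≤ t → t ≤ 1 → Φ 0 t < 0) :
    ∃ η > 0, ∀ s t, 0 ≤ s → s < η → 0 ≤ t → t ≤ 1 → Φ s t < 0 := by
  have hO : IsOpen {p : ℝ × ℝ | Φ p.1 p.2 < 0} := isOpen_lt hΦ continuous_const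
  obtain ⟨u, v, hu, hv, hu1, hv1, huv⟩ := generalized_tube_lemma (s := {(0:ℝ)})
    isCompact_singleton (t := Icc (0:ℝ) 1) isCompact_Icc hO (by
      rintro ⟨x, y⟩ ⟨hx, hy⟩
      simp only [mem_singleton_iff] at hx
      subst hx
      exact h y hy.1 hy.2)
  obtain ⟨η, hη, hη1⟩ := Metric.isOpen_iff.1 hu 0 (hu1 rfl)
  refine ⟨η, hη, fun s t hs hs' ht ht' => ?_⟩
  exact huv (show (s, t) ∈ u ×ˢ v from ⟨hη1 (by
    rw [Metric.mem_ball, Real.dist_eq, sub_zero, abs_of_nonneg hs]; exact hs'), hv1 ⟨ht, ht'⟩⟩)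

theorem dat1 (T : Two f g) {Φ : ℝ → ℝ → ℝ} (hΦ : Continuous fun p : ℝ × ℝ => Φ p.1 p.2)
    (h : ∀ t, 0 ≤ t → t ≤ 1 → Φ 0 t < 0) : ∃ c, 0 < c ∧ c < 1 ∧
    (∀ s t, 0 ≤ s → s ≤ c → 0 ≤ t → t ≤ 1 → Φ s t < 0) ∧
    (∀ s x, 0 ≤ s → s ≤ c → 0 ≤ x → x ≤ c → f x ≤ f s + (1 - s)) ∧
    ∀ t, c ≤ t → t ≤ 1 → f c ≤ g t → ¬ Ins f g (c - (g t - f c)) (f c + (t - c)) := by
  obtain ⟨η, η0, hη⟩ := edge_neg hΦ h
  obtain ⟨ρ, ρ0, hρ⟩ := Metric.continuous_iff.1 T.cf 0 (1 / 4) (by norm_num)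
  have hρ' : ∀ x, 0 ≤ x → x < ρ → |f x - f 0| < 1 / 4 := fun x h1 h2 => by
    have := hρ x (by rw [Real.dist_eq, sub_zero, abs_of_nonneg h1]; exact h2)
    rwa [Real.dist_eq] at this
  obtain ⟨c, c0, c1, hc⟩ := exists_cut T (show 0 < min (min η ρ) (1 / 2) by positivity)
  have l1 : c < η := c1.trans_le ((min_le_left _ _).trans (min_le_left _ _))
  have l2 : c < ρ := c1.trans_le ((min_le_left _ _).trans (min_le_right _ _))
  have l3 : c < 1 / 2 := c1.trans_le (min_le_right _ _)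
  refine ⟨c, c0, by linarith, fun s t hs hs' => hη s t hs (by linarith), ?_, hc⟩
  intro s x hs hs' hx hx'
  have h1 := abs_lt.1 (hρ' s hs (by linarith))
  have h2 := abs_lt.1 (hρ' x hx (by linarith))
  linarith [h1.1, h2.2]

/-- the mirror image -/
theorem Two.mir (T : Two f g) : Two (fun x => f (1 - x)) (fun x => g (1 - x)) where
  cf := T.cf.comp (by fun_prop)
  cg := T.cg.comp (by fun_prop)
  e0 := by simpa using T.e1
  e1 := by simpa using T.e0
  lt x h0 h1 := T.lt (1 - x) (by linarith) (by linarith)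

/-- the curve turned by a half turn -/
theorem Two.rot (T : Two f g) : Two (fun x => -g (1 - x)) (fun x => -f (1 - x)) where
  cf := (T.cg.comp (by fun_prop)).neg
  cg := (T.cf.comp (by fun_prop)).neg
  e0 := by simpa using T.e1.symm
  e1 := by simpa using T.e0.symm
  lt x h0 h1 := neg_lt_neg (T.lt (1 - x) (by linarith) (by linarith))

theorem ins_mir {x y : ℝ} (h : Ins f g x y) :
    Ins (fun x => f (1 - x)) (fun x => g (1 - x)) (1 - x) y := by
  obtain ⟨a, b, c, d⟩ := h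
  refine ⟨by linarith, by linarith, ?_, ?_⟩ <;> simp only [sub_sub_cancel] <;> assumption

theorem dat2 (T : Two f g) {Φ : ℝ → ℝ → ℝ} (hΦ : Continuous fun p : ℝ × ℝ => Φ p.1 p.2)
    (h : ∀ t, 0 ≤ t → t ≤ 1 → Φ t 1 < 0) : ∃ c, 0 < c ∧ c < 1 ∧
    (∀ s t, 0 ≤ s → s ≤ 1 → c ≤ t → t ≤ 1 → Φ s t < 0) ∧
    (∀ t x, c ≤ t → t ≤ 1 → c ≤ x → x ≤ 1 → f x ≤ f t + t) ∧
    ∀ s, 0 ≤ s → s ≤ c → f c ≤ g s → ¬ Ins f g (c - (f c - g s)) (f c + (c - s)) := by
  obtain ⟨c, c0, c1, h1, h2, h3⟩ := dat1 T.mir (Φ := fun s t => Φ (1 - t) (1 - s))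
    (hΦ.comp (by fun_prop : Continuous fun p : ℝ × ℝ => ((1 - p.2, 1 - p.1) : ℝ × ℝ)))
    (fun t ht ht' => by simpa using h (1 - t) (by linarith) (by linarith))
  refine ⟨1 - c, by linarith, by linarith, ?_, ?_, ?_⟩
  · intro s t hs hs' ht ht'
    have := h1 (1 - t) (1 - s) (by linarith) (by linarith) (by linarith) (by linarith)
    simpa using this
  · intro t x ht ht' hx hx'
    have := h2 (1 - t) (1 - x) (by linarith) (by linarith) (by linarith) (by linarith)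
    simpa using this
  · intro s hs hs' hfg hI
    have := h3 (1 - s) (by linarith) (by linarith) (by simpa using hfg)
    apply this
    have h4 := ins_mir hI
    simp only [sub_sub_cancel]
    convert h4 using 1 <;> ring

theorem exists_Cut (T : Two f g) {Φa Φb : ℝ → ℝ → ℝ}
    (ca : Continuous fun p : ℝ × ℝ => Φa p.1 p.2) (cb : Continuous fun p : ℝ × ℝ => Φb p.1 p.2)
    (ha : ∀ t, 0 ≤ t → t ≤ 1 → Φa t 1 < 0) (hb : ∀ t, 0 ≤ t → t ≤ 1 → Φb 0 t < 0)
    (okA : ∀ s t, 0 ≤ s → s ≤ t → t ≤ 1 → Φa s t = 0 → g s ≤ f t →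
      ¬ (Ins f g (s - (f t - g s)) (g s + (t - s)) ∧ Ins f g (t - (f t - g s)) (f t + (t - s))))
    (okB : ∀ s t, 0 ≤ s → s ≤ t → t ≤ 1 → Φb s t = 0 → g t ≤ f s →
      ¬ (Ins f g (s - (g t - f s)) (f s + (t - s)) ∧ Ins f g (t - (g t - f s)) (g t + (t - s)))) :
    ∃ c1 c2, Cut f g Φa Φb c1 c2 := by
  obtain ⟨c1, p1, p2, p3, p4, p5⟩ := dat1 T cb hb
  obtain ⟨c2, q1, q2, q3, q4, q5⟩ := dat2 T ca ha
  exact ⟨c1, c2, p1, p2, q1, q2, q3, p3, q4, p4, q5, p5, okA, okB⟩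

/-- condition at the left end -/
def Tip (f g : ℝ → ℝ) : Prop := ∃ Φ : ℝ → ℝ → ℝ, (Continuous fun p : ℝ × ℝ => Φ p.1 p.2) ∧
  0 < Φ 0 0 ∧ (∀ s, 0 ≤ s → s ≤ 1 → Φ s 1 < 0 ∧ Φ 1 s < 0) ∧
  ∀ s t, 0 ≤ s → s ≤ 1 → 0 ≤ t → t ≤ 1 → Φ s t = 0 → g s ≤ f t →
    ¬ (Ins f g (s - (f t - g s)) (g s + (t - s)) ∧ Ins f g (t - (f t - g s)) (f t + (t - s)))

open Pool.Agent.H763R2.Dm (NoSq) in
theorem tips (T : Two f g) (h : Tip f g) (h' : Tip (fun x => f (1 - x)) (fun x => g (1 - x))) :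
    ¬ NoSq (range (crv f g)) := by
  obtain ⟨Φ, cΦ, pΦ, nΦ, oΦ⟩ := h
  obtain ⟨Ψ, cΨ, pΨ, nΨ, oΨ⟩ := h'
  have cb : Continuous fun p : ℝ × ℝ => Ψ (1 - p.2) (1 - p.1) :=
    cΨ.comp (by fun_prop : Continuous fun p : ℝ × ℝ => ((1 - p.2, 1 - p.1) : ℝ × ℝ))
  -- chords from the top graph to the bottom graph
  have okB : ∀ s t, 0 ≤ s → s ≤ 1 → 0 ≤ t → t ≤ 1 → Ψ (1 - t) (1 - s) = 0 → g t ≤ f s →
      ¬ (Ins f g (s - (g t - f s)) (f s + (t - s)) ∧
        Ins f g (t - (g t - f s)) (g t + (t - s))) := by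
    rintro s t s0 s1 t0 t1 hz hfg ⟨h1, h2⟩
    refine oΨ (1 - t) (1 - s) (by linarith) (by linarith) (by linarith) (by linarith) hz
      (by simpa using hfg) ⟨?_, ?_⟩
    · have := ins_mir h2
      simp only [sub_sub_cancel]
      convert this using 1 <;> ring
    · have := ins_mir h1
      simp only [sub_sub_cancel]
      convert this using 1 <;> ring
  obtain ⟨c1, c2, hC⟩ := exists_Cut T (Φa := Φ) (Φb := fun s t => Ψ (1 - t) (1 - s)) cΦ cb
    (fun t h0 h1 => (nΦ t h0 h1).1) (fun t h0 h1 => by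
      have := (nΨ (1 - t) (by linarith) (by linarith)).1
      simpa using this)
    (fun s t h0 h1 h2 => oΦ s t h0 (by linarith) (by linarith) h2)
    (fun s t h0 h1 h2 => okB s t h0 (by linarith) (by linarith) h2)
  obtain ⟨e1, e2, hC'⟩ := exists_Cut T.rot
    (Φa := fun s t => (fun s t => Ψ (1 - t) (1 - s)) (1 - s) (1 - t))
    (Φb := fun s t => Φ (1 - s) (1 - t))
    (cb.comp (by fun_prop : Continuous fun p : ℝ × ℝ => ((1 - p.1, 1 - p.2) : ℝ × ℝ)))
    (cΦ.comp (by fun_prop : Continuous fun p : ℝ × ℝ => ((1 - p.1, 1 - p.2) : ℝ × ℝ)))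
    (fun t h0 h1 => by
      have := (nΨ t h0 h1).2
      simpa using this)
    (fun t h0 h1 => by
      have := (nΦ (1 - t) (by linarith) (by linarith)).2
      simpa using this)
    (by
      rintro s t h0 h1 h2 hz hfg ⟨k1, k2⟩
      refine okB (1 - s) (1 - t) (by linarith) (by linarith) (by linarith) (by linarith) hz
        (by linarith) ⟨?_, ?_⟩
      · have := ins_rot k1
        simp only [sub_sub_cancel, neg_neg] at this
        convert this using 1 <;> ring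
      · have := ins_rot k2
        simp only [sub_sub_cancel, neg_neg] at this
        convert this using 1 <;> ring)
    (by
      rintro s t h0 h1 h2 hz hfg ⟨k1, k2⟩
      refine oΦ (1 - s) (1 - t) (by linarith) (by linarith) (by linarith) (by linarith) hz
        (by linarith) ⟨?_, ?_⟩
      · have := ins_rot k1
        simp only [sub_sub_cancel, neg_neg] at this
        convert this using 1 <;> ring
      · have := ins_rot k2
        simp only [sub_sub_cancel, neg_neg] at this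
        convert this using 1 <;> ring)
  exact exists_square ⟨T, cΦ, cb, pΦ, by simpa using pΨ, hC, hC'⟩

end Pool.Agent.X150.TG
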