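import Pool.Agent.X150.TG.Limit
import Pool.Agent.X150.TG.Ends

/-! Turned frames near an end. -/

set_option autoImplicit false
open Set Topology Filter

namespace Pool.Agent.X150.TG

variable {f g h : ℝ → ℝ} {c σ δ : ℝ}

/-- the chords of the graph of `h` over `[0, δ]` have directions in the closed right-angled sector
around `(c, σ)` -/
def Quad (h : ℝ → ℝ) (δ c σ : ℝ) : Prop :=
  ∀ x x', 0 ≤ x → x < x' → x' ≤ δ →
    |c * (h x' - h x) - σ * (x' - x)| ≤ c * (x' - x) + σ * (h x' - h x)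

/-- first coordinate in the turned frame -/
def XX (h : ℝ → ℝ) (c σ x : ℝ) : ℝ := c * x + σ * (h x - h 0)

/-- second coordinate in the turned frame -/
def YY (h : ℝ → ℝ) (c σ x : ℝ) : ℝ := c * (h x - h 0) - σ * x

theorem XX_zero : XX h c σ 0 = 0 := by unfold XX; ring

theorem YY_zero : YY h c σ 0 = 0 := by unfold YY; ring

theorem YX (Q : Quad h δ c σ) {x x' : ℝ} (h0 : 0 ≤ x) (h1 : x ≤ δ) (h0' : 0 ≤ x') (h1' : x' ≤ δ) :
    |YY h c σ x' - YY h c σ x| ≤ |XX h c σ x' - XX h c σ x| := by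
  have key : ∀ x x', 0 ≤ x → x < x' → x' ≤ δ →
      |YY h c σ x' - YY h c σ x| ≤ XX h c σ x' - XX h c σ x := by
    intro x x' a b d
    have := Q x x' a b d
    have e1 : YY h c σ x' - YY h c σ x = c * (h x' - h x) - σ * (x' - x) := by unfold YY; ring
    have e2 : XX h c σ x' - XX h c σ x = c * (x' - x) + σ * (h x' - h x) := by unfold XX; ring
    rw [e1, e2]; exact this
  rcases lt_trichotomy x x' with hx | hx | hx
  · exact (key x x' h0 hx h1').trans (le_abs_self _)
  · rw [hx]; simp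
  · have := (key x' x h0' hx h1).trans (le_abs_self _)
    rw [abs_sub_comm, abs_sub_comm (XX h c σ x')]
    exact this

theorem XX_lt (hcs : c ^ 2 + σ ^ 2 = 1) (Q : Quad h δ c σ) {x x' : ℝ} (h0 : 0 ≤ x) (hx : x < x')
    (h1 : x' ≤ δ) : XX h c σ x < XX h c σ x' := by
  have q := Q x x' h0 hx h1
  have hn := abs_nonneg (c * (h x' - h x) - σ * (x' - x))
  have e2 : XX h c σ x' - XX h c σ x = c * (x' - x) + σ * (h x' - h x) := by unfold XX; ring
  have hne : c * (x' - x) + σ * (h x' - h x) ≠ 0 := by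
    intro h0
    rw [h0] at q
    have h3 := abs_nonpos_iff.1 q
    have : x' - x = 0 := by
      linear_combination c * h0 - σ * h3 - (x' - x) * hcs
    linarith
  have : 0 < c * (x' - x) + σ * (h x' - h x) := lt_of_le_of_ne (hn.trans q) (Ne.symm hne)
  linarith

theorem XX_cont (hc : Continuous h) : Continuous (XX h c σ) := by unfold XX; fun_prop

/-- the graph in the turned frame -/
theorem exists_fun (hc : Continuous h) (hcs : c ^ 2 + σ ^ 2 = 1) (hδ : 0 < δ) (Q : Quad h δ c σ)
    {ρ : ℝ} (h0 : 0 < ρ) (h1 : ρ ≤ XX h c σ δ) :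
    ∃ φ : ℝ → ℝ, Slope φ (-1) 1 ∧
      (∀ x, 0 ≤ x → x ≤ δ → XX h c σ x ≤ ρ → φ (XX h c σ x) = YY h c σ x) ∧
      (∀ X, X ≤ 0 → φ X = 0) ∧ (∀ X, ρ ≤ X → φ X = φ ρ) ∧
      ∀ X, 0 ≤ X → X ≤ ρ → ∃ x, 0 ≤ x ∧ x ≤ δ ∧ XX h c σ x = X ∧ φ X = YY h c σ x := by
  have inv : ∀ X, ∃ x, (0 ≤ x ∧ x ≤ δ) ∧ XX h c σ x = max 0 (min X ρ) := by
    intro X
    obtain ⟨x, hx, hx2⟩ := intermediate_value_Icc hδ.le (XX_cont (c := c) (σ := σ) hc).continuousOn
      (show max 0 (min X ρ) ∈ Icc (XX h c σ 0) (XX h c σ δ) from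
        ⟨by rw [XX_zero]; exact le_max_left _ _, max_le (by linarith) ((min_le_right _ _).trans h1)⟩)
    exact ⟨x, hx, hx2⟩
  choose ι hι hX using inv
  have pos : ∀ x, 0 ≤ x → x ≤ δ → 0 ≤ XX h c σ x := by
    intro x a b
    rcases a.lt_or_eq with a | a
    · have := XX_lt hcs Q le_rfl a b
      rw [XX_zero] at this
      exact this.le
    · rw [← a, XX_zero]
  have eqv : ∀ X x, 0 ≤ x → x ≤ δ → XX h c σ x = max 0 (min X ρ) →
      YY h c σ (ι X) = YY h c σ x := by
    intro X x a b e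
    have := YX Q a b (hι X).1 (hι X).2
    rw [hX X, e, sub_self, abs_zero] at this
    have := abs_nonpos_iff.1 this
    linarith
  refine ⟨fun X => YY h c σ (ι X), ?_, ?_, ?_, ?_, ?_⟩
  · intro X X' hXX
    have k := YX Q (hι X).1 (hι X).2 (hι X').1 (hι X').2
    rw [hX X, hX X'] at k
    have m1 : max 0 (min X ρ) ≤ max 0 (min X' ρ) := max_le_max le_rfl (min_le_min hXX le_rfl)
    have m2 : max 0 (min X' ρ) - max 0 (min X ρ) ≤ X' - X := by
      rcases max_cases 0 (min X' ρ) with ⟨e, e'⟩ | ⟨e, e'⟩ <;>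
      rcases max_cases 0 (min X ρ) with ⟨u, u'⟩ | ⟨u, u'⟩ <;>
      rcases min_cases X' ρ with ⟨v, v'⟩ | ⟨v, v'⟩ <;>
      rcases min_cases X ρ with ⟨w, w'⟩ | ⟨w, w'⟩ <;>
      rw [e, u] <;> linarith
    rw [abs_of_nonneg (by linarith : 0 ≤ max 0 (min X' ρ) - max 0 (min X ρ))] at k
    have := abs_le.1 (k.trans m2)
    constructor
    · linarith [this.1]
    · linarith [this.2]
  · intro x a b hx
    refine eqv _ x a b ?_
    rw [min_eq_left hx, max_eq_right (pos x a b)]
  · intro X hX0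
    have := eqv X 0 le_rfl hδ.le (by
      rw [XX_zero, min_eq_left (by linarith), max_eq_left hX0])
    simp only
    rw [this, YY_zero]
  · intro X hXρ
    exact eqv X (ι ρ) (hι ρ).1 (hι ρ).2 (by rw [hX ρ, min_eq_right hXρ, min_self])
  · intro X a b
    refine ⟨ι X, (hι X).1, (hι X).2, ?_, rfl⟩
    rw [hX X, min_eq_left b, max_eq_right a]

/-- points above the graph of `g` -/
theorem above (hcs : c ^ 2 + σ ^ 2 = 1) (Q : Quad g δ c σ) {ρ : ℝ} {ψ : ℝ → ℝ}
    (hψ : ∀ X, 0 ≤ X → X ≤ ρ → ∃ x, 0 ≤ x ∧ x ≤ δ ∧ XX g c σ x = X ∧ ψ X = YY g c σ x)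
    {x y : ℝ} (x0 : 0 ≤ x) (x1 : x ≤ δ) (hy : g x < y)
    (p0 : 0 ≤ c * x + σ * (y - g 0)) (p1 : c * x + σ * (y - g 0) ≤ ρ) (hδ : 0 < δ) :
    ψ (c * x + σ * (y - g 0)) < c * (y - g 0) - σ * x := by
  obtain ⟨x', a, b, e1, e2⟩ := hψ _ p0 p1
  rw [e2]
  by_contra hcon
  push Not at hcon
  set k := YY g c σ x' - (c * (y - g 0) - σ * x) with hk
  have k0 : 0 ≤ k := by linarith
  unfold XX at e1
  unfold YY at hk
  have ex : x' = x - k * σ := by
    linear_combination c * e1 + σ * hk + (x - x') * hcs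
  have ey : g x' = y + k * c := by
    linear_combination σ * e1 - c * hk + (y - g x') * hcs
  rcases lt_trichotomy σ 0 with hσ | hσ | hσ
  · rcases k0.lt_or_eq with hk0 | hk0
    · have hxx : x < x' := by nlinarith
      have q := Q x x' x0 hxx b
      have hn := (abs_nonneg _).trans q
      have : σ * (g x' - g x) < σ * (k * c) := mul_lt_mul_of_neg_left (by linarith) hσ
      have e3 : c * (x' - x) = -(σ * (k * c)) := by rw [ex]; ring
      linarith
    · rw [← hk0] at ex ey
      have : x' = x := by linarith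
      rw [this] at ey
      linarith
  · rw [hσ] at ex hcs
    have hxx : x' = x := by linarith
    rw [hxx] at ey
    have hc2 : c ^ 2 = 1 := by linarith
    have hc : c = 1 := by
      have q := Q 0 δ le_rfl hδ le_rfl
      have hn := (abs_nonneg _).trans q
      rw [hσ] at hn
      have : 0 ≤ c := by
        by_contra hcon
        push Not at hcon
        have := mul_neg_of_neg_of_pos hcon hδ
        linarith
      nlinarith
    rw [hc] at ey
    linarith
  · rcases k0.lt_or_eq with hk0 | hk0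
    · have hxx : x' < x := by nlinarith
      have q := Q x' x a hxx x1
      have hn := (abs_nonneg _).trans q
      have : σ * (g x - g x') < σ * (-(k * c)) := mul_lt_mul_of_pos_left (by linarith) hσ
      have e3 : c * (x - x') = σ * (k * c) := by rw [ex]; ring
      linarith
    · rw [← hk0] at ex ey
      have : x' = x := by linarith
      rw [this] at ey
      linarith

/-- points below the graph of `f` -/
theorem below (hcs : c ^ 2 + σ ^ 2 = 1) (Q : Quad f δ c σ) {ρ : ℝ} {φ : ℝ → ℝ}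
    (hφ : ∀ X, 0 ≤ X → X ≤ ρ → ∃ x, 0 ≤ x ∧ x ≤ δ ∧ XX f c σ x = X ∧ φ X = YY f c σ x)
    {x y : ℝ} (x0 : 0 ≤ x) (x1 : x ≤ δ) (hy : y < f x)
    (p0 : 0 ≤ c * x + σ * (y - f 0)) (p1 : c * x + σ * (y - f 0) ≤ ρ) (hδ : 0 < δ) :
    c * (y - f 0) - σ * x < φ (c * x + σ * (y - f 0)) := by
  obtain ⟨x', a, b, e1, e2⟩ := hφ _ p0 p1
  rw [e2]
  by_contra hcon
  push Not at hcon
  set k := (c * (y - f 0) - σ * x) - YY f c σ x' with hk
  have k0 : 0 ≤ k := by linarith
  unfold XX at e1
  unfold YY at hk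
  have ex : x' = x + k * σ := by
    linear_combination c * e1 - σ * hk + (x - x') * hcs
  have ey : f x' = y - k * c := by
    linear_combination σ * e1 + c * hk + (y - f x') * hcs
  rcases lt_trichotomy σ 0 with hσ | hσ | hσ
  · rcases k0.lt_or_eq with hk0 | hk0
    · have hxx : x' < x := by nlinarith
      have q := Q x' x a hxx x1
      have hn := (abs_nonneg _).trans q
      have : σ * (f x - f x') < σ * (k * c) := mul_lt_mul_of_neg_left (by linarith) hσ
      have e3 : c * (x - x') = -(σ * (k * c)) := by rw [ex]; ring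
      linarith
    · rw [← hk0] at ex ey
      have : x' = x := by linarith
      rw [this] at ey
      linarith
  · rw [hσ] at ex hcs
    have hxx : x' = x := by linarith
    rw [hxx] at ey
    have hc2 : c ^ 2 = 1 := by linarith
    have hc : c = 1 := by
      have q := Q 0 δ le_rfl hδ le_rfl
      have hn := (abs_nonneg _).trans q
      rw [hσ] at hn
      have : 0 ≤ c := by
        by_contra hcon
        push Not at hcon
        have := mul_neg_of_neg_of_pos hcon hδ
        linarith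
      nlinarith
    rw [hc] at ey
    linarith
  · rcases k0.lt_or_eq with hk0 | hk0
    · have hxx : x < x' := by nlinarith
      have q := Q x x' x0 hxx b
      have hn := (abs_nonneg _).trans q
      have : σ * (f x' - f x) < σ * (-(k * c)) := mul_lt_mul_of_pos_left (by linarith) hσ
      have e3 : c * (x' - x) = σ * (k * c) := by rw [ex]; ring
      linarith
    · rw [← hk0] at ex ey
      have : x' = x := by linarith
      rw [this] at ey
      linarith

/-- ends with all chord directions in a closed right-angled sector -/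
theorem tip_quad (T : Two f g) (hδ : 0 < δ) (hδ1 : δ < 1) (hcs : c ^ 2 + σ ^ 2 = 1)
    (Qf : Quad f δ c σ) (Qg : Quad g δ c σ) : Tip f g := by
  have e0 := T.e0
  have Xf0 : 0 < XX f c σ δ := by
    have := XX_lt hcs Qf le_rfl hδ le_rfl
    rwa [XX_zero] at this
  have Xg0 : 0 < XX g c σ δ := by
    have := XX_lt hcs Qg le_rfl hδ le_rfl
    rwa [XX_zero] at this
  set ρ := min (XX f c σ δ) (XX g c σ δ) with hρ
  have ρ0 : 0 < ρ := lt_min Xf0 Xg0
  have ρf : ρ ≤ XX f c σ δ := min_le_left _ _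
  have ρg : ρ ≤ XX g c σ δ := min_le_right _ _
  obtain ⟨φ, Sφ, φ1, φ2, φ3, φ4⟩ := exists_fun T.cf hcs hδ Qf ρ0 ρf
  obtain ⟨ψ, Sψ, ψ1, ψ2, ψ3, ψ4⟩ := exists_fun T.cg hcs hδ Qg ρ0 ρg
  have hlt0 : ∀ X, 0 < X → X ≤ ρ → ψ X < φ X := by
    intro X X0 X1
    obtain ⟨x, a, b, e1, e2⟩ := φ4 X X0.le X1
    have x0 : 0 < x := by
      rcases a.lt_or_eq with h | h
      · exact h
      · rw [← h, XX_zero] at e1
        linarith
    have hx := T.lt x x0 (by linarith)
    rw [e2]
    have e3 : c * x + σ * (f x - g 0) = X := by rw [← e0, ← e1]; rfl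
    have e4 : YY f c σ x = c * (f x - g 0) - σ * x := by rw [← e0]; rfl
    rw [e4, ← e3]
    exact above hcs Qg ψ4 a b hx (by linarith) (by linarith) hδ
  have hlt : ∀ X, 0 < X → ψ X < φ X := by
    intro X X0
    rcases le_or_gt X ρ with h | h
    · exact hlt0 X X0 h
    · rw [φ3 X h.le, ψ3 X h.le]
      exact hlt0 ρ ρ0 le_rfl
  have ρ3 : 0 < ρ / 3 := by linarith
  obtain ⟨Φ, cΦ, pΦ, nΦ, oΦ⟩ := gauge_all Sφ Sψ φ2 ψ2 hlt ρ3
  have cl0 : ∀ x, 0 ≤ max 0 (min x δ) := fun x => le_max_left _ _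
  have cl1 : ∀ x, max 0 (min x δ) ≤ δ := fun x => max_le hδ.le (min_le_right _ _)
  have posf : ∀ x, 0 ≤ x → x ≤ δ → 0 ≤ XX f c σ x := by
    intro x a b
    rcases a.lt_or_eq with a | a
    · have := XX_lt hcs Qf le_rfl a b
      rw [XX_zero] at this
      exact this.le
    · rw [← a, XX_zero]
  have posg : ∀ x, 0 ≤ x → x ≤ δ → 0 ≤ XX g c σ x := by
    intro x a b
    rcases a.lt_or_eq with a | a
    · have := XX_lt hcs Qg le_rfl a b
      rw [XX_zero] at this
      exact this.le
    · rw [← a, XX_zero]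
  have cf := XX_cont (c := c) (σ := σ) T.cf
  have cg := XX_cont (c := c) (σ := σ) T.cg
  -- interior points
  have posI : ∀ x y, 0 < x → x ≤ δ → g x < y → y < f x → 0 < c * x + σ * (y - f 0) := by
    intro x y x0 x1 h1 h2
    rcases le_total 0 σ with hσ | hσ
    · have h3 := XX_lt hcs Qg le_rfl x0 x1
      rw [XX_zero] at h3
      unfold XX at h3
      have := mul_le_mul_of_nonneg_left (show g x - g 0 ≤ y - f 0 by linarith) hσ
      linarith
    · have h3 := XX_lt hcs Qf le_rfl x0 x1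
      rw [XX_zero] at h3
      unfold XX at h3
      have := mul_le_mul_of_nonpos_left (show y - f 0 ≤ f x - f 0 by linarith) hσ
      linarith
  refine ⟨fun s t => Φ (min (XX g c σ (max 0 (min s δ))) (ρ / 3))
    (min (XX f c σ (max 0 (min t δ))) (ρ / 3)), ?_, ?_, ?_, ?_⟩
  · exact cΦ.comp (by fun_prop : Continuous fun p : ℝ × ℝ =>
      ((min (XX g c σ (max 0 (min p.1 δ))) (ρ / 3),
        min (XX f c σ (max 0 (min p.2 δ))) (ρ / 3)) : ℝ × ℝ))
  · simp only
    rw [min_eq_left hδ.le, max_self, XX_zero, XX_zero, min_eq_left ρ3.le]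
    exact pΦ
  · intro s s0 s1
    have e1 : max 0 (min 1 δ) = δ := by rw [min_eq_right hδ1.le, max_eq_right hδ.le]
    simp only
    rw [e1, min_eq_right (show ρ / 3 ≤ XX f c σ δ by linarith),
      min_eq_right (show ρ / 3 ≤ XX g c σ δ by linarith)]
    constructor
    · exact (nΦ _ (le_min (posg _ (cl0 s) (cl1 s)) ρ3.le) (min_le_right _ _)).1
    · exact (nΦ _ (le_min (posf _ (cl0 s) (cl1 s)) ρ3.le) (min_le_right _ _)).2
  · rintro s t s0 s1 t0 t1 hz hq ⟨hD, hE⟩
    simp only at hz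
    have ag : 0 ≤ min (XX g c σ (max 0 (min s δ))) (ρ / 3) :=
      le_min (posg _ (cl0 s) (cl1 s)) ρ3.le
    have af : 0 ≤ min (XX f c σ (max 0 (min t δ))) (ρ / 3) :=
      le_min (posf _ (cl0 t) (cl1 t)) ρ3.le
    have lg : XX g c σ (max 0 (min s δ)) < ρ / 3 := by
      by_contra hcon
      push Not at hcon
      rw [min_eq_right hcon] at hz
      have := (nΦ _ af (min_le_right _ _)).2
      linarith
    have lf : XX f c σ (max 0 (min t δ)) < ρ / 3 := by
      by_contra hcon
      push Not at hcon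
      rw [min_eq_right hcon] at hz
      have := (nΦ _ ag (min_le_right _ _)).1
      linarith
    have sδ : s < δ := by
      by_contra hcon
      push Not at hcon
      rw [min_eq_right hcon, max_eq_right hδ.le] at lg
      linarith
    have tδ : t < δ := by
      by_contra hcon
      push Not at hcon
      rw [min_eq_right hcon, max_eq_right hδ.le] at lf
      linarith
    rw [min_eq_left sδ.le, max_eq_right s0] at hz ag lg
    rw [min_eq_left tδ.le, max_eq_right t0] at hz af lf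
    rw [min_eq_left lg.le] at hz ag
    rw [min_eq_left lf.le] at hz af
    have hψs := ψ1 s s0 sδ.le (by linarith)
    have hφt := φ1 t t0 tδ.le (by linarith)
    have Bψ := abs_le.1 (abs_le_of Sψ ψ2 _ ag)
    have Bφ := abs_le.1 (abs_le_of Sφ φ2 _ af)
    apply oΦ _ _ ag lg af lf hz
    have qe := hq
    -- the vertex near `A`
    have pD := posI _ _ hD.1 (by linarith) hD.2.2.1 hD.2.2.2
    have pE := posI _ _ hE.1 (by linarith) hE.2.2.1 hE.2.2.2
    have xD : c * (s - (f t - g s)) + σ * (g s + (t - s) - f 0) =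
        XX g c σ s - (φ (XX f c σ t) - ψ (XX g c σ s)) := by
      rw [hφt, hψs]; unfold XX YY; rw [e0]; ring
    have yD : c * (g s + (t - s) - f 0) - σ * (s - (f t - g s)) =
        ψ (XX g c σ s) + (XX f c σ t - XX g c σ s) := by
      rw [hψs]; unfold XX YY; rw [e0]; ring
    have xE : c * (t - (f t - g s)) + σ * (f t + (t - s) - f 0) =
        XX f c σ t - (φ (XX f c σ t) - ψ (XX g c σ s)) := by
      rw [hφt, hψs]; unfold XX YY; rw [e0]; ring
    have yE : c * (f t + (t - s) - f 0) - σ * (t - (f t - g s)) =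
        φ (XX f c σ t) + (XX f c σ t - XX g c σ s) := by
      rw [hφt]; unfold XX YY; rw [e0]; ring
    refine ⟨?_, ?_, ?_, ?_⟩
    · rw [← xD]; exact pD
    · rw [← xE]; exact pE
    · rw [← xD, ← yD, e0]
      rw [xD] at pD
      refine above hcs Qg ψ4 hD.1.le (by linarith) hD.2.2.1 ?_ ?_ hδ
      · rw [← e0, xD]; exact pD.le
      · rw [← e0, xD]; linarith
    · rw [← xE, ← yE]
      rw [xE] at pE
      refine below hcs Qf φ4 hE.1.le (by linarith) hE.2.2.2 ?_ ?_ hδ
      · rw [xE]; exact pE.le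
      · rw [xE]; linarith

end Pool.Agent.X150.TG
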