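import Pool.Agent.X150.TG.Sharp

/-! Gauges for ends which are Lipschitz graphs with constant one. -/

set_option autoImplicit false
open Set Topology Filter

namespace Pool.Agent.X150.TG

variable {φ ψ : ℝ → ℝ}

/-- chords whose square has both other vertices strictly between the graphs -/
def Bad (φ ψ : ℝ → ℝ) (a b : ℝ) : Prop :=
  0 < a - (φ b - ψ a) ∧ 0 < b - (φ b - ψ a) ∧ ψ (a - (φ b - ψ a)) < ψ a + (b - a) ∧
    φ b + (b - a) < φ (b - (φ b - ψ a))

/-- a gauge on `[0, ρ]` -/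
def Gauge (φ ψ : ℝ → ℝ) (ρ : ℝ) : Prop := ∃ Φ : ℝ → ℝ → ℝ,
  (Continuous fun p : ℝ × ℝ => Φ p.1 p.2) ∧ 0 < Φ 0 0 ∧
  (∀ s, 0 ≤ s → s ≤ ρ → Φ s ρ < 0 ∧ Φ ρ s < 0) ∧
  ∀ a b, 0 ≤ a → a < ρ → 0 ≤ b → b < ρ → Φ a b = 0 → ¬ Bad φ ψ a b

/-- an `L`-shaped gauge -/
theorem gauge_L {ρ a0 b0 : ℝ} (ha : 0 < a0) (ha' : a0 < ρ) (hb : 0 < b0) (hb' : b0 < ρ)
    (h1 : ∀ b, 0 ≤ b → b ≤ b0 → ¬ Bad φ ψ a0 b) (h2 : ∀ a, 0 ≤ a → a ≤ a0 → ¬ Bad φ ψ a b0) :
    Gauge φ ψ ρ := by
  refine ⟨fun a b => min (a0 - a) (b0 - b), by fun_prop, by simp [ha, hb], ?_, ?_⟩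
  · intro s s0 s1
    exact ⟨lt_of_le_of_lt (min_le_right _ _) (by linarith),
      lt_of_le_of_lt (min_le_left _ _) (by linarith)⟩
  · intro a b a1 a2 b1 b2 hz
    change min (a0 - a) (b0 - b) = 0 at hz
    have m1 := min_le_left (a0 - a) (b0 - b)
    have m2 := min_le_right (a0 - a) (b0 - b)
    rw [hz] at m1 m2
    rcases min_choice (a0 - a) (b0 - b) with h | h
    · rw [h] at hz
      have : a = a0 := by linarith
      rw [this]
      exact h1 b b1 (by linarith)
    · rw [h] at hz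
      have : b = b0 := by linarith
      rw [this]
      exact h2 a a1 (by linarith)

section
variable (Sφ : Slope φ (-1) 1) (Sψ : Slope ψ (-1) 1) (zφ : ∀ x, x ≤ 0 → φ x = 0)
  (zψ : ∀ x, x ≤ 0 → ψ x = 0)
include Sφ zφ

theorem abs_le_of (x : ℝ) (hx : 0 ≤ x) : |φ x| ≤ x := by
  have h := Sφ 0 x hx
  rw [zφ 0 le_rfl] at h
  rw [abs_le]; constructor <;> linarith

include Sψ zψ

theorem gauge_deg1 {ρ : ℝ} (hρ : 0 < ρ) (h1 : φ ρ = ρ) (h2 : -ρ < ψ ρ) : Gauge φ ψ ρ := by
  have hφ : ∀ x, 0 ≤ x → x ≤ ρ → φ x = x := by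
    intro x x0 x1
    have a := Sφ 0 x x0
    have b := Sφ x ρ x1
    rw [zφ 0 le_rfl] at a
    rw [h1] at b
    linarith
  set η := (ρ + ψ ρ) / 4 with hη
  have hψρ := abs_le.1 (abs_le_of Sψ zψ ρ hρ.le)
  have η0 : 0 < η := by rw [hη]; linarith
  set a0 := ρ - η with ha0
  have a0p : 0 < a0 := by rw [ha0, hη]; linarith
  have a1 := Sψ a0 ρ (by linarith)
  have s0 : 0 < a0 + ψ a0 := by
    have : ρ - a0 = η := by rw [ha0]; ring
    rw [this] at a1
    linarith
  have hψa := abs_le.1 (abs_le_of Sψ zψ a0 a0p.le)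
  set b0 := (a0 + ψ a0) / 2 with hb0
  have b0p : 0 < b0 := by linarith
  refine gauge_L a0p (by linarith) b0p (by linarith) ?_ ?_
  · rintro b hb hbb ⟨-, -, k, -⟩
    rw [hφ b hb (by linarith)] at k
    rcases le_total 0 (b - ψ a0) with h | h
    · have := (Sψ (a0 - (b - ψ a0)) a0 (by linarith)).2
      linarith
    · have := (Sψ a0 (a0 - (b - ψ a0)) (by linarith)).1
      linarith
  · rintro a ha haa ⟨-, k0, -, k⟩
    rw [hφ b0 b0p.le (by linarith)] at k k0
    have e : b0 - (b0 - ψ a) = ψ a := by ring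
    rw [e] at k k0
    have ha2 := abs_le.1 (abs_le_of Sψ zψ a ha)
    rw [hφ (ψ a) k0.le (by linarith)] at k
    have := (Sψ a a0 haa).1
    linarith

theorem gauge_deg2 {ρ : ℝ} (hρ : 0 < ρ) (h1 : ψ ρ = -ρ) (h2 : φ ρ < ρ) : Gauge φ ψ ρ := by
  have hψ : ∀ x, 0 ≤ x → x ≤ ρ → ψ x = -x := by
    intro x x0 x1
    have a := Sψ 0 x x0
    have b := Sψ x ρ x1
    rw [zψ 0 le_rfl] at a
    rw [h1] at b
    linarith
  set η := (ρ - φ ρ) / 4 with hη
  have hφρ := abs_le.1 (abs_le_of Sφ zφ ρ hρ.le)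
  have η0 : 0 < η := by rw [hη]; linarith
  set b0 := ρ - η with hb0
  have b0p : 0 < b0 := by rw [hb0, hη]; linarith
  have a1 := Sφ b0 ρ (by linarith)
  have s0 : 0 < b0 - φ b0 := by
    have : ρ - b0 = η := by rw [hb0]; ring
    rw [this] at a1
    linarith
  have hφb := abs_le.1 (abs_le_of Sφ zφ b0 b0p.le)
  set a0 := (b0 - φ b0) / 2 with ha0
  have a0p : 0 < a0 := by linarith
  refine gauge_L a0p (by linarith) b0p (by linarith) ?_ ?_
  · rintro b hb hbb ⟨k0, -, k, -⟩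
    rw [hψ a0 a0p.le (by linarith)] at k k0
    have e : a0 - (φ b - -a0) = -φ b := by ring
    rw [e] at k k0
    have hb2 := abs_le.1 (abs_le_of Sφ zφ b hb)
    rw [hψ (-φ b) k0.le (by linarith)] at k
    have := (Sφ b b0 hbb).2
    linarith
  · rintro a ha haa ⟨-, -, -, k⟩
    rw [hψ a ha (by linarith)] at k
    rcases le_total 0 (φ b0 - -a) with h | h
    · have := (Sφ (b0 - (φ b0 - -a)) b0 (by linarith)).1
      linarith
    · have := (Sφ b0 (b0 - (φ b0 - -a)) (by linarith)).2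
      linarith

theorem gauge_deg3 {ρ : ℝ} (hρ : 0 < ρ) (h1 : φ ρ = ρ) (h2 : ψ ρ = -ρ) : Gauge φ ψ ρ := by
  have hφ : ∀ x, 0 ≤ x → x ≤ ρ → φ x = x := by
    intro x x0 x1
    have a := Sφ 0 x x0
    have b := Sφ x ρ x1
    rw [zφ 0 le_rfl] at a
    rw [h1] at b
    linarith
  have hψ : ∀ x, 0 ≤ x → x ≤ ρ → ψ x = -x := by
    intro x x0 x1
    have a := Sψ 0 x x0
    have b := Sψ x ρ x1
    rw [zψ 0 le_rfl] at a
    rw [h2] at b
    linarith
  refine gauge_L (a0 := ρ / 2) (b0 := ρ / 2) (by linarith) (by linarith) (by linarith)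
    (by linarith) ?_ ?_
  · rintro b hb hbb ⟨k0, -, -, -⟩
    rw [hψ (ρ / 2) (by linarith) (by linarith), hφ b hb (by linarith)] at k0
    linarith
  · rintro a ha haa ⟨k0, -, -, -⟩
    rw [hψ a ha (by linarith), hφ (ρ / 2) (by linarith) (by linarith)] at k0
    linarith

/-- good levels for the contracted functions -/
theorem good_levels (hlt : ∀ x, 0 < x → ψ x < φ x) {r : ℝ} (hr : 0 < r) :
    ∃ r1 > 0, ∀ L, 1 / 2 ≤ L → L < 1 → ∃ m, r1 ≤ m ∧ m < r ∧
      ∀ a b, a + b - L * (φ b - ψ a) = 2 * m →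
        L * ψ (a - L * (φ b - ψ a)) < L * ψ a + (b - a) →
        L * φ b + (b - a) < L * φ (b - L * (φ b - ψ a)) → False := by
  obtain ⟨c, c0, hc⟩ := act_unif Sφ Sψ (hlt r hr)
  obtain ⟨n, hn⟩ := exists_nat_gt (20 / c)
  set r1 := min (r / 2) (min (c / 20) 1) with hr1
  have r10 : 0 < r1 := by positivity
  have l1 : r1 ≤ r / 2 := min_le_left _ _
  have l2 : r1 ≤ c / 20 := (min_le_right _ _).trans (min_le_left _ _)
  have l3 : r1 ≤ 1 := (min_le_right _ _).trans (min_le_right _ _)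
  have hle : ∀ x, ψ x ≤ φ x := by
    intro x
    rcases le_or_gt x 0 with h | h
    · rw [zφ x h, zψ x h]
    · exact (hlt x h).le
  refine ⟨r1, r10, fun L hL hL1 => ?_⟩
  have hL0 : 0 ≤ L := by linarith
  have S1 := Sφ.smul hL0
  have S2 := Sψ.smul hL0
  obtain ⟨m, u, v, hm, hmr, hcr, hκ⟩ := exists_good2 S1 S2 hL0 hL1 (r1 := r1) (r := r) (c := c)
    (by linarith) (by
      intro u v h
      obtain ⟨b1, b2⟩ := crit_bound Sφ Sψ (zφ 0 le_rfl) (zψ 0 le_rfl) (by linarith) hL1 hr h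
      exact hc L hL hL1.le u v b1 b2
        (crit_pos S1 S2 hL0 hL1 (fun x => mul_le_mul_of_nonneg_left (hle x) hL0)
          (mul_lt_mul_of_pos_left (hlt r hr) (by linarith)) h).le h) (by
      intro u v h
      obtain ⟨b1, b2⟩ := crit_bound Sφ Sψ (zφ 0 le_rfl) (zψ 0 le_rfl) (by linarith) hL1 r10 h
      rw [act_smul]
      have pb : ∀ h : ℝ → ℝ, Slope h (-1) 1 → h 0 = 0 → ∀ x, |x| ≤ 2 * r1 →
          |Pr h x| ≤ 4 * r1 ^ 2 := by
        intro h Sh h0 x hx
        have := Pr_err Sh le_rfl le_rfl 0 x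
        rw [h0] at this
        have e : Pr h 0 = 0 := by unfold Pr; simp
        rw [e] at this
        simp only [sub_zero, zero_mul, one_mul] at this
        refine this.trans ?_
        rw [← sq_abs]
        calc |x| ^ 2 ≤ (2 * r1) ^ 2 := pow_le_pow_left₀ (abs_nonneg _) hx 2
          _ = 4 * r1 ^ 2 := by ring
      have ab : ∀ x y, |x| ≤ r1 → y = r1 + x ∨ y = r1 - x → |y| ≤ 2 * r1 := by
        intro x y hx hy
        have := abs_le.1 hx
        rw [abs_le]
        rcases hy with rfl | rfl <;> constructor <;> linarith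
      have q1 := abs_le.1 (pb φ Sφ (zφ 0 le_rfl) (r1 + v) (ab v _ b2 (Or.inl rfl)))
      have q2 := abs_le.1 (pb ψ Sψ (zψ 0 le_rfl) (r1 - v) (ab v _ b2 (Or.inr rfl)))
      have q3 := abs_le.1 (pb φ Sφ (zφ 0 le_rfl) (r1 - u) (ab u _ b1 (Or.inr rfl)))
      have q4 := abs_le.1 (pb ψ Sψ (zψ 0 le_rfl) (r1 + u) (ab u _ b1 (Or.inl rfl)))
      set P := Pr φ (r1 + v) + Pr ψ (r1 - v) - Pr φ (r1 - u) - Pr ψ (r1 + u) with hP
      have hP1 : |P| ≤ 16 * r1 ^ 2 := by rw [abs_le]; constructor <;> linarith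
      have hLP : L * P ≤ 16 * r1 ^ 2 := by
        have h1 : |L * P| ≤ 1 * (16 * r1 ^ 2) := by
          rw [abs_mul, abs_of_nonneg hL0]
          exact mul_le_mul hL1.le hP1 (abs_nonneg _) zero_le_one
        have := le_abs_self (L * P)
        linarith
      have huv : -(u * v) ≤ r1 ^ 2 := by
        have h1 : |u * v| ≤ r1 * r1 := by
          rw [abs_mul]; exact mul_le_mul b1 b2 (abs_nonneg _) r10.le
        have := neg_abs_le (u * v)
        nlinarith
      have : r1 ^ 2 ≤ c / 20 := by nlinarith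
      linarith)
  refine ⟨m, hm, hmr, fun a b hab hD hE => ?_⟩
  have e : L * φ b - L * ψ a = L * (φ b - ψ a) := by ring
  refine good_not_both S1 S2 hL0 hL1 hcr hκ (s := a) (t := b) ?_ ?_ ?_
  · rw [e]; exact hab
  · rw [e]; exact hD
  · rw [e]; exact hE

/-- the gauge in the nondegenerate case -/
theorem gauge_gen (hlt : ∀ x, 0 < x → ψ x < φ x) {ρ : ℝ} (hρ : 0 < ρ) (h1 : φ ρ < ρ)
    (h2 : -ρ < ψ ρ) : Gauge φ ψ ρ := by
  have cφ := Sφ.cont
  have cψ := Sψ.cont
  set k := min ρ (min (ρ - φ ρ) (ρ + ψ ρ)) with hk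
  have k0 : 0 < k := lt_min hρ (lt_min (by linarith) (by linarith))
  have kl1 : k ≤ ρ := min_le_left _ _
  have kl2 : k ≤ ρ - φ ρ := (min_le_right _ _).trans (min_le_left _ _)
  have kl3 : k ≤ ρ + ψ ρ := (min_le_right _ _).trans (min_le_right _ _)
  obtain ⟨r1, r10, hr1⟩ := good_levels Sφ Sψ zφ zψ hlt (show 0 < k / 4 by linarith)
  set Ls : ℕ → ℝ := fun n => 1 - 1 / ((n:ℝ) + 2) with hLs
  have Ls1 : ∀ n, 1 / 2 ≤ Ls n := by
    intro n
    have : 1 / ((n:ℝ) + 2) ≤ 1 / 2 := by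
      apply one_div_le_one_div_of_le two_pos
      have : (0:ℝ) ≤ n := Nat.cast_nonneg n
      linarith
    simp only [hLs]; linarith
  have Ls2 : ∀ n, Ls n < 1 := by
    intro n
    have : 0 < 1 / ((n:ℝ) + 2) := by positivity
    simp only [hLs]; linarith
  have Lst : Tendsto Ls atTop (𝓝 1) := by
    have h := tendsto_one_div_add_atTop_nhds_zero_nat (𝕜 := ℝ)
    have h' := (tendsto_add_atTop_iff_nat 1).2 h
    have h'' := (tendsto_const_nhds (x := (1:ℝ))).sub h'
    rw [sub_zero] at h''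
    refine h''.congr fun n => ?_
    simp only [hLs]
    push_cast
    ring
  choose m hm using fun n => hr1 (Ls n) (Ls1 n) (Ls2 n)
  -- the level function
  set χ : ℝ → ℝ → ℝ → ℝ := fun L a b => a + b - L * (φ b - ψ a) with hχ
  have mono : ∀ L, 0 ≤ L → L < 1 → ∀ a b a' b', a < a' → b < b' → χ L a b < χ L a' b' := by
    intro L l0 l1 a b a' b' ha hb
    have s1 := (Sφ b b' hb.le).2
    have s2 := (Sψ a a' ha.le).1
    have t1 : L * (φ b' - φ b) ≤ L * (b' - b) := mul_le_mul_of_nonneg_left (by linarith) l0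
    have t2 : L * (ψ a - ψ a') ≤ L * (a' - a) := mul_le_mul_of_nonneg_left (by linarith) l0
    have t3 : L * (b' - b) < b' - b := by nlinarith
    have t4 : L * (a' - a) < a' - a := by nlinarith
    simp only [hχ]
    linarith
  have lip : ∀ L, 0 ≤ L → L ≤ 1 → ∀ a b a' b', a' ≤ a → b' ≤ b →
      χ L a b - 2 * (a - a') - 2 * (b - b') ≤ χ L a' b' := by
    intro L l0 l1 a b a' b' ha hb
    have s1 := (Sφ b' b hb).1
    have s2 := (Sψ a' a ha).2
    have t1 : L * (φ b' - φ b) ≤ L * (b - b') := mul_le_mul_of_nonneg_left (by linarith) l0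
    have t2 : L * (ψ a - ψ a') ≤ L * (a - a') := mul_le_mul_of_nonneg_left (by linarith) l0
    have t3 : L * (b - b') ≤ b - b' := by nlinarith
    have t4 : L * (a - a') ≤ a - a' := by nlinarith
    simp only [hχ]
    linarith
  have absx : ∀ x, |φ x| ≤ |x| ∧ |ψ x| ≤ |x| := by
    intro x
    rcases le_total 0 x with h | h
    · rw [abs_of_nonneg h]
      exact ⟨abs_le_of Sφ zφ x h, abs_le_of Sψ zψ x h⟩
    · rw [zφ x h, zψ x h]; simp
  have exs : ∀ L, 0 ≤ L → L < 1 → ∀ M, 0 ≤ M → ∀ x, ∃ y, χ L ((y - x) / 2) ((y + x) / 2) = M := by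
    intro L l0 l1 M hM x
    have cc : Continuous fun y => χ L ((y - x) / 2) ((y + x) / 2) := by
      simp only [hχ]; fun_prop
    set Y := |x| + M / (1 - L) with hY
    have hl : 0 < 1 - L := by linarith
    have hx := abs_nonneg x
    have hMl : 0 ≤ M / (1 - L) := by positivity
    have hYM : M ≤ (1 - L) * Y := by
      have : (1 - L) * (M / (1 - L)) = M := by field_simp
      rw [hY, mul_add, this]
      have := mul_nonneg hl.le hx
      linarith
    have bnd : ∀ y, |x| ≤ |y| → |φ ((y + x) / 2) - ψ ((y - x) / 2)| ≤ |y| := by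
      intro y hy
      have b1 := (absx ((y + x) / 2)).1
      have b2 := (absx ((y - x) / 2)).2
      have b3 := abs_sub (φ ((y + x) / 2)) (ψ ((y - x) / 2))
      have b4 : |(y + x) / 2| + |(y - x) / 2| ≤ |y| := by
        rw [abs_div, abs_div, abs_two]
        rcases abs_cases (y + x) with h | h <;> rcases abs_cases (y - x) with h' | h' <;>
          rw [h.1, h'.1] <;> rcases abs_cases x with h2 | h2 <;> rcases abs_cases y with h3 | h3 <;>
          rw [h2.1, h3.1] at hy <;> rw [h3.1] <;> linarith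
      linarith
    have Y0 : 0 ≤ Y := by positivity
    have e1 : χ L ((Y - x) / 2) ((Y + x) / 2) = Y - L * (φ ((Y + x) / 2) - ψ ((Y - x) / 2)) := by
      simp only [hχ]; ring
    have e2 : χ L ((-Y - x) / 2) ((-Y + x) / 2) =
        -Y - L * (φ ((-Y + x) / 2) - ψ ((-Y - x) / 2)) := by
      simp only [hχ]; ring
    have b1 := bnd Y (by rw [abs_of_nonneg Y0]; linarith)
    have b2 := bnd (-Y) (by rw [abs_neg, abs_of_nonneg Y0]; linarith)
    rw [abs_of_nonneg Y0] at b1
    rw [abs_neg, abs_of_nonneg Y0] at b2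
    have c1 := mul_le_mul_of_nonneg_left (abs_le.1 b1).2 l0
    have c2 := mul_le_mul_of_nonneg_left (abs_le.1 b2).1 l0
    obtain ⟨y, -, hy⟩ := intermediate_value_Icc (show -Y ≤ Y by linarith) cc.continuousOn
      (show M ∈ Icc _ _ from ⟨by rw [e2]; nlinarith, by rw [e1]; nlinarith⟩)
    exact ⟨y, hy⟩
  have m0 : ∀ n, 0 ≤ 2 * m n := fun n => by
    have := (hm n).1
    linarith
  choose η hη using fun n x => exs (Ls n) (by linarith [Ls1 n]) (Ls2 n) (2 * m n) (m0 n) x
  have ηlip : ∀ n x x', η n x' - η n x ≤ |x' - x| := by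
    intro n x x'
    by_contra hcon
    push Not at hcon
    have a1 := le_abs_self (x' - x)
    have a2 := neg_abs_le (x' - x)
    have := mono (Ls n) (by linarith [Ls1 n]) (Ls2 n) ((η n x - x) / 2) ((η n x + x) / 2)
      ((η n x' - x') / 2) ((η n x' + x') / 2) (by linarith) (by linarith)
    rw [hη, hη] at this
    exact lt_irrefl _ this
  -- bounds at the edges
  have edge : ∀ n a, 0 ≤ a → a ≤ ρ → k ≤ χ (Ls n) a ρ ∧ k ≤ χ (Ls n) ρ a := by
    intro n a a0 aρ
    have l1 := Ls1 n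
    have l2 := Ls2 n
    set L := Ls n with hL
    have b1 := abs_le.1 (abs_le_of Sψ zψ a a0)
    have b2 := abs_le.1 (abs_le_of Sφ zφ a a0)
    have b3 := abs_le.1 (abs_le_of Sφ zφ ρ hρ.le)
    have b4 := abs_le.1 (abs_le_of Sψ zψ ρ hρ.le)
    simp only [hχ]
    constructor
    · have c1 : 0 ≤ a + L * ψ a := by nlinarith
      have c2 : k ≤ ρ - L * φ ρ := by
        rcases le_total 0 (φ ρ) with h | h
        · nlinarith
        · nlinarith
      linarith
    · have c1 : 0 ≤ a - L * φ a := by nlinarith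
      have c2 : k ≤ ρ + L * ψ ρ := by
        rcases le_total 0 (ψ ρ) with h | h
        · nlinarith
        · nlinarith
      linarith
  have below : ∀ n x y, k ≤ χ (Ls n) ((y - x) / 2) ((y + x) / 2) → η n x ≤ y - k / 8 := by
    intro n x y hy
    by_contra hcon
    push Not at hcon
    have l1 := Ls1 n
    have l2 := Ls2 n
    have q1 := lip (Ls n) (by linarith) l2.le ((y - x) / 2) ((y + x) / 2) ((y - k / 8 - x) / 2)
      ((y - k / 8 + x) / 2) (by linarith) (by linarith)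
    have q2 := mono (Ls n) (by linarith) l2 ((y - k / 8 - x) / 2)
      ((y - k / 8 + x) / 2) ((η n x - x) / 2) ((η n x + x) / 2) (by linarith) (by linarith)
    rw [hη] at q2
    have := (hm n).2.1
    linarith
  have η0 : ∀ n, 2 * r1 ≤ η n 0 := by
    intro n
    have h := hη n 0
    simp only [hχ, sub_zero, add_zero] at h
    have l1 := Ls1 n
    have := (hm n).1
    have hd : 0 ≤ φ (η n 0 / 2) - ψ (η n 0 / 2) := by
      rcases le_or_gt (η n 0 / 2) 0 with h' | h'
      · rw [zφ _ h', zψ _ h']; simp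
      · have := hlt _ h'
        linarith
    have := mul_nonneg (show 0 ≤ Ls n by linarith) hd
    linarith
  have η1 : ∀ n, η n 0 ≤ 2 * ρ := by
    intro n
    have := below n 0 (2 * ρ) (by
      have e1 : (2 * ρ - 0) / 2 = ρ := by ring
      have e2 : (2 * ρ + 0) / 2 = ρ := by ring
      rw [e1, e2]
      exact (edge n ρ hρ.le le_rfl).1)
    linarith
  have ηb : ∀ n x, η n x ∈ Icc (-(2 * ρ + |x|)) (2 * ρ + |x|) := by
    intro n x
    have a1 := ηlip n 0 x
    have a2 := ηlip n x 0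
    rw [sub_zero] at a1
    rw [zero_sub, abs_neg] at a2
    have := η0 n
    have := η1 n
    constructor <;> linarith
  set U : Ultrafilter ℕ := hyperfilter ℕ with hU
  have UL : Tendsto Ls U (𝓝 1) := Lst.mono_left Nat.hyperfilter_le_atTop
  have lims : ∀ x, ∃ y, Tendsto (fun n => η n x) U (𝓝 y) := by
    intro x
    obtain ⟨y, -, hy⟩ := isCompact_Icc.ultrafilter_le_nhds (U.map (fun n => η n x))
      (by
        rw [Ultrafilter.coe_map, le_principal_iff, Filter.mem_map]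
        exact Filter.univ_mem' (fun n => ηb n x))
    exact ⟨y, hy⟩
  choose H hH using lims
  have Hlip : ∀ x x', H x' - H x ≤ |x' - x| := fun x x' =>
    le_of_tendsto ((hH x').sub (hH x)) (Eventually.of_forall fun n => ηlip n x x')
  have cH : Continuous H := by
    have : LipschitzWith 1 H := by
      apply LipschitzWith.of_dist_le_mul
      intro x y
      rw [Real.dist_eq, Real.dist_eq, NNReal.coe_one, one_mul, abs_le]
      have := Hlip x y
      have := Hlip y x
      rw [abs_sub_comm y x] at *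
      constructor <;> linarith
    exact this.continuous
  have Hb : ∀ x y, (∀ n, k ≤ χ (Ls n) ((y - x) / 2) ((y + x) / 2)) → H x ≤ y - k / 8 :=
    fun x y h => le_of_tendsto (hH x) (Eventually.of_forall fun n => below n x y (h n))
  refine ⟨fun a b => H (b - a) - (a + b), by fun_prop, ?_, ?_, ?_⟩
  · have h : 2 * r1 ≤ H 0 := ge_of_tendsto (hH 0) (Eventually.of_forall η0)
    simp only [sub_self, add_zero, sub_zero]
    linarith
  · intro s s0 s1
    constructor
    · have := Hb (ρ - s) (s + ρ) (fun n => by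
        have e1 : (s + ρ - (ρ - s)) / 2 = s := by ring
        have e2 : (s + ρ + (ρ - s)) / 2 = ρ := by ring
        rw [e1, e2]
        exact (edge n s s0 s1).1)
      simp only
      linarith
    · have := Hb (s - ρ) (ρ + s) (fun n => by
        have e1 : (ρ + s - (s - ρ)) / 2 = ρ := by ring
        have e2 : (ρ + s + (s - ρ)) / 2 = s := by ring
        rw [e1, e2]
        exact (edge n s s0 s1).2)
      simp only
      linarith
  · rintro a b a0 aρ b0 bρ hz ⟨-, -, hD, hE⟩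
    simp only at hz
    set x := b - a with hx
    have ea : (H x - x) / 2 = a := by rw [hx] at hz ⊢; linarith
    have eb : (H x + x) / 2 = b := by rw [hx] at hz ⊢; linarith
    set A : ℕ → ℝ := fun n => (η n x - x) / 2 with hA
    set B : ℕ → ℝ := fun n => (η n x + x) / 2 with hB
    have tA : Tendsto A U (𝓝 a) := by
      have := ((hH x).sub (tendsto_const_nhds (x := x))).div_const 2
      rwa [ea] at this
    have tB : Tendsto B U (𝓝 b) := by
      have := ((hH x).add (tendsto_const_nhds (x := x))).div_const 2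
      rwa [eb] at this
    have tp : Tendsto (fun n => (Ls n, A n, B n)) U (𝓝 (1, a, b)) := UL.prodMk_nhds (tA.prodMk_nhds tB)
    have o1 : ∀ᶠ n in (U : Filter ℕ), Ls n * ψ (A n - Ls n * (φ (B n) - ψ (A n))) <
        Ls n * ψ (A n) + (B n - A n) := by
      have c1 : Continuous fun p : ℝ × ℝ × ℝ => p.1 * ψ (p.2.1 - p.1 * (φ p.2.2 - ψ p.2.1)) := by
        fun_prop
      have c2 : Continuous fun p : ℝ × ℝ × ℝ => p.1 * ψ p.2.1 + (p.2.2 - p.2.1) := by fun_prop
      have t1 := (c1.tendsto (1, a, b)).comp tp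
      have t2 := (c2.tendsto (1, a, b)).comp tp
      exact t1.eventually_lt t2 (by simpa using hD)
    have o2 : ∀ᶠ n in (U : Filter ℕ), Ls n * φ (B n) + (B n - A n) <
        Ls n * φ (B n - Ls n * (φ (B n) - ψ (A n))) := by
      have c1 : Continuous fun p : ℝ × ℝ × ℝ => p.1 * φ p.2.2 + (p.2.2 - p.2.1) := by fun_prop
      have c2 : Continuous fun p : ℝ × ℝ × ℝ => p.1 * φ (p.2.2 - p.1 * (φ p.2.2 - ψ p.2.1)) := by
        fun_prop
      have t1 := (c1.tendsto (1, a, b)).comp tp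
      have t2 := (c2.tendsto (1, a, b)).comp tp
      exact t1.eventually_lt t2 (by simpa using hE)
    obtain ⟨n, h1, h2⟩ := (o1.and o2).exists
    exact (hm n).2.2 (A n) (B n) (by
      have := hη n x
      simp only [hχ] at this
      exact this) h1 h2

/-- the gauge in all cases -/
theorem gauge_all (hlt : ∀ x, 0 < x → ψ x < φ x) {ρ : ℝ} (hρ : 0 < ρ) : Gauge φ ψ ρ := by
  have b1 := abs_le.1 (abs_le_of Sφ zφ ρ hρ.le)
  have b2 := abs_le.1 (abs_le_of Sψ zψ ρ hρ.le)
  rcases lt_or_eq_of_le b1.2 with h | h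
  · rcases lt_or_eq_of_le b2.1 with h' | h'
    · exact gauge_gen Sφ Sψ zφ zψ hlt hρ h h'
    · exact gauge_deg2 Sφ Sψ zφ zψ hρ h'.symm h
  · rcases lt_or_eq_of_le b2.1 with h' | h'
    · exact gauge_deg1 Sφ Sψ zφ zψ hρ h h'
    · exact gauge_deg3 Sφ Sψ zφ zψ hρ h h'.symm

end

end Pool.Agent.X150.TG
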