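import Pool.Agent.X150.TG.Zero

/-! Ends with bounded slopes: a variational argument. -/

set_option autoImplicit false
open MeasureTheory intervalIntegral

namespace Pool.Agent.X150.TG

/-- the difference quotients of `φ` lie in `[m1, m2]` -/
def Slope (φ : ℝ → ℝ) (m1 m2 : ℝ) : Prop :=
  ∀ x y, x ≤ y → m1 * (y - x) ≤ φ y - φ x ∧ φ y - φ x ≤ m2 * (y - x)

variable {f g φ : ℝ → ℝ} {m1 m2 : ℝ}

theorem Slope.ex (h : Slope φ m1 m2) (hm : m1 ≤ m2) (x y : ℝ) :
    ∃ b, m1 ≤ b ∧ b ≤ m2 ∧ φ y - φ x = b * (y - x) := by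
  rcases lt_trichotomy x y with h1 | h1 | h1
  · obtain ⟨a1, a2⟩ := h x y h1.le
    have hp : 0 < y - x := by linarith
    refine ⟨(φ y - φ x) / (y - x), ?_, ?_, ?_⟩
    · rwa [le_div_iff₀ hp]
    · rwa [div_le_iff₀ hp]
    · field_simp
  · exact ⟨m1, le_rfl, hm, by rw [h1]; ring⟩
  · obtain ⟨a1, a2⟩ := h y x h1.le
    have hp : 0 < x - y := by linarith
    refine ⟨(φ x - φ y) / (x - y), ?_, ?_, ?_⟩
    · rwa [le_div_iff₀ hp]
    · rwa [div_le_iff₀ hp]
    · field_simp
      ring

theorem Slope.cont (h : Slope φ m1 m2) : Continuous φ := by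
  have hM : ∀ x y, |φ x - φ y| ≤ (|m1| + |m2|) * |x - y| := by
    intro x y
    have key : ∀ x y, x ≤ y → |φ y - φ x| ≤ (|m1| + |m2|) * |y - x| := by
      intro x y hxy
      obtain ⟨a1, a2⟩ := h x y hxy
      have hp : 0 ≤ y - x := by linarith
      rw [abs_of_nonneg hp, abs_le]
      have b1 := neg_abs_le m1
      have b2 := le_abs_self m2
      have b3 := abs_nonneg m1
      have b4 := abs_nonneg m2
      constructor <;> nlinarith
    rcases le_total x y with hxy | hxy
    · rw [abs_sub_comm, abs_sub_comm x y]; exact key x y hxy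
    · exact key y x hxy
  have hL : LipschitzWith (Real.toNNReal (|m1| + |m2|)) φ := by
    apply LipschitzWith.of_dist_le_mul
    intro x y
    rw [Real.dist_eq, Real.dist_eq, Real.coe_toNNReal _ (by positivity)]
    exact hM x y
  exact hL.continuous

theorem int_lin (a b k m : ℝ) : ∫ x in a..b, (k + m * x) = (b - a) * k + m * (b ^ 2 - a ^ 2) / 2 := by
  rw [intervalIntegral.integral_add (continuous_const.intervalIntegrable _ _)
    ((show Continuous fun x : ℝ => m * x by fun_prop).intervalIntegrable _ _),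
    intervalIntegral.integral_const, intervalIntegral.integral_const_mul, integral_id, smul_eq_mul]
  ring

/-- comparison of an integral with a linear function -/
theorem int_ge {a b : ℝ} (hab : a ≤ b) (hc : Continuous φ) {k m : ℝ}
    (h : ∀ x, a ≤ x → x ≤ b → k + m * x ≤ φ x) :
    (b - a) * k + m * (b ^ 2 - a ^ 2) / 2 ≤ ∫ x in a..b, φ x := by
  rw [← int_lin]
  exact intervalIntegral.integral_mono_on hab ((by fun_prop : Continuous fun x => k + m * x).intervalIntegrable _ _)
    (hc.intervalIntegrable _ _) (fun x hx => h x hx.1 hx.2)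

theorem int_le {a b : ℝ} (hab : a ≤ b) (hc : Continuous φ) {k m : ℝ}
    (h : ∀ x, a ≤ x → x ≤ b → φ x ≤ k + m * x) :
    ∫ x in a..b, φ x ≤ (b - a) * k + m * (b ^ 2 - a ^ 2) / 2 := by
  rw [← int_lin]
  exact intervalIntegral.integral_mono_on hab (hc.intervalIntegrable _ _)
    ((by fun_prop : Continuous fun x => k + m * x).intervalIntegrable _ _) (fun x hx => h x hx.1 hx.2)

/-- the primitive -/
noncomputable def Pr (φ : ℝ → ℝ) (x : ℝ) : ℝ := ∫ t in (0:ℝ)..x, φ t

theorem Pr_sub (hc : Continuous φ) (a b : ℝ) : Pr φ b - Pr φ a = ∫ x in a..b, φ x := by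
  unfold Pr
  exact integral_interval_sub_left (hc.intervalIntegrable _ _) (hc.intervalIntegrable _ _)

theorem Pr_err (h : Slope φ m1 m2) {M : ℝ} (h1 : -M ≤ m1) (h2 : m2 ≤ M) (a b : ℝ) :
    |Pr φ b - Pr φ a - φ a * (b - a)| ≤ M * (b - a) ^ 2 := by
  have hc := h.cont
  rw [Pr_sub hc]
  rcases le_total a b with hab | hab
  · have e1 := int_ge (k := φ a - m1 * a) (m := m1) hab hc (fun x hx _ => by
      have := (h a x hx).1; linarith)
    have e2 := int_le (k := φ a - m2 * a) (m := m2) hab hc (fun x hx _ => by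
      have := (h a x hx).2; linarith)
    have hs : 0 ≤ (b - a) ^ 2 := sq_nonneg _
    rw [abs_le]
    constructor <;> nlinarith
  · rw [intervalIntegral.integral_symm]
    have e1 := int_ge (k := φ a - m2 * a) (m := m2) hab hc (fun x _ hx => by
      have := (h x a hx).2; linarith)
    have e2 := int_le (k := φ a - m1 * a) (m := m1) hab hc (fun x _ hx => by
      have := (h x a hx).1; linarith)
    have hs : 0 ≤ (b - a) ^ 2 := sq_nonneg _
    rw [abs_le]
    constructor <;> nlinarith

/-- trapezoidal bounds -/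
theorem Pr_trap (h : Slope φ m1 m2) {a b : ℝ} (hab : a ≤ b) :
    (b - a) / 2 * (φ a + φ b) - (m2 - m1) * (b - a) ^ 2 / 8 ≤ Pr φ b - Pr φ a ∧
    Pr φ b - Pr φ a ≤ (b - a) / 2 * (φ a + φ b) + (m2 - m1) * (b - a) ^ 2 / 8 := by
  have hc := h.cont
  set c := (a + b) / 2 with hcd
  have hac : a ≤ c := by rw [hcd]; linarith
  have hcb : c ≤ b := by rw [hcd]; linarith
  have e : Pr φ b - Pr φ a = (∫ x in a..c, φ x) + ∫ x in c..b, φ x := by
    rw [← Pr_sub hc, ← Pr_sub hc]; ring
  have l1 := int_ge (k := φ a - m1 * a) (m := m1) hac hc (fun x hx _ => by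
    have := (h a x hx).1; linarith)
  have l2 := int_ge (k := φ b - m2 * b) (m := m2) hcb hc (fun x _ hx => by
    have := (h x b hx).2; linarith)
  have u1 := int_le (k := φ a - m2 * a) (m := m2) hac hc (fun x hx _ => by
    have := (h a x hx).2; linarith)
  have u2 := int_le (k := φ b - m1 * b) (m := m1) hcb hc (fun x _ hx => by
    have := (h x b hx).1; linarith)
  rw [e]
  rw [hcd] at l1 l2 u1 u2 ⊢
  constructor <;> nlinarith

/-- a function with superlinear increments does not increase -/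
theorem no_incr {lam : ℝ → ℝ} {b K : ℝ} (hb : 0 < b)
    (h : ∀ s s', 0 ≤ s → s < s' → s' ≤ b → lam s' - lam s ≤ K * (s' - s) ^ 2) : lam b ≤ lam 0 := by
  by_contra hcon
  push Not at hcon
  obtain ⟨n, hn⟩ := exists_nat_gt (K * b ^ 2 / (lam b - lam 0))
  have hd : 0 < lam b - lam 0 := by linarith
  have hn' : K * b ^ 2 < (n + 1) * (lam b - lam 0) := by
    rw [div_lt_iff₀ hd] at hn
    nlinarith
  have hN : (0:ℝ) < n + 1 := by positivity
  have key : ∀ k : ℕ, k ≤ n + 1 → lam (b * k / (n + 1)) - lam 0 ≤ k * (K * (b / (n + 1)) ^ 2) := by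
    intro k
    induction k with
    | zero => intro _; simp
    | succ k ih =>
      intro hk
      have h1 := ih (by omega)
      have h2 := h (b * k / (n + 1)) (b * (k + 1 : ℕ) / (n + 1)) (by positivity)
        (by
          rw [div_lt_div_iff_of_pos_right hN]
          push_cast
          nlinarith)
        (by
          rw [div_le_iff₀ hN]
          have : ((k + 1 : ℕ) : ℝ) ≤ n + 1 := by exact_mod_cast hk
          nlinarith)
      have e : b * ((k + 1 : ℕ) : ℝ) / (n + 1) - b * k / (n + 1) = b / (n + 1) := by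
        push_cast; field_simp; ring
      rw [e] at h2
      push_cast at h2 ⊢
      linarith
  have h3 := key (n + 1) le_rfl
  push_cast at h3
  have e1 : b * ((n:ℝ) + 1) / (n + 1) = b := by field_simp
  rw [e1] at h3
  have e2 : ((n:ℝ) + 1) * (K * (b / (n + 1)) ^ 2) = K * b ^ 2 / (n + 1) := by field_simp
  rw [e2, le_div_iff₀ hN] at h3
  linarith

/-- three vertices on the curves -/
def Sol (f g : ℝ → ℝ) (s t : ℝ) : Prop := g (s - (f t - g s)) = g s + (t - s)

theorem one_add_mul {m1 m2 b d : ℝ} (hb1 : m1 ≤ b) (hb2 : b ≤ m2) (hd1 : m1 ≤ d)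
    (hd2 : d ≤ m2) : min 1 (1 + m1 * m2) ≤ 1 + b * d := by
  rcases le_total 0 b with h | h
  · rcases le_total 0 d with h' | h'
    · exact (min_le_left _ _).trans (by nlinarith)
    · refine (min_le_right _ _).trans ?_
      nlinarith
  · rcases le_total 0 d with h' | h'
    · refine (min_le_right _ _).trans ?_
      nlinarith
    · exact (min_le_left _ _).trans (by nlinarith)

/-- existence of the solution -/
theorem exists_sol (Sf : Slope f m1 m2) (Sg : Slope g m1 m2) (hm : m1 ≤ m2)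
    (hK : 0 < 1 + m1 * m2) (s : ℝ) : ∃ t, Sol f g s t := by
  have cf := Sf.cont
  have cg := Sg.cont
  set κ := min 1 (1 + m1 * m2) with hκ
  have κ0 : 0 < κ := lt_min one_pos hK
  set F : ℝ → ℝ := fun t => g s + (t - s) - g (s - (f t - g s)) with hF
  have cF : Continuous F := by rw [hF]; fun_prop
  have incr : ∀ t t', t ≤ t' → κ * (t' - t) ≤ F t' - F t := by
    intro t t' ht
    obtain ⟨b, b1, b2, eb⟩ := Sf.ex hm t t'
    obtain ⟨d, d1, d2, ed⟩ := Sg.ex hm (s - (f t - g s)) (s - (f t' - g s))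
    have h1 := one_add_mul b1 b2 d1 d2
    have e : F t' - F t = (1 + b * d) * (t' - t) := by
      simp only [hF]
      have : s - (f t' - g s) - (s - (f t - g s)) = -(b * (t' - t)) := by rw [← eb]; ring
      rw [this] at ed
      linarith
    rw [e]
    exact mul_le_mul_of_nonneg_right h1 (by linarith)
  set R := |F 0| / κ with hR
  have R0 : 0 ≤ R := by positivity
  have hRκ : κ * R = |F 0| := by rw [hR]; field_simp
  have h1 := incr 0 R R0
  have h2 := incr (-R) 0 (by linarith)
  have a1 := le_abs_self (F 0)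
  have a2 := neg_abs_le (F 0)
  obtain ⟨t, -, ht⟩ := intermediate_value_Icc (show -R ≤ R by linarith) cF.continuousOn
    (show (0:ℝ) ∈ Set.Icc (F (-R)) (F R) from ⟨by nlinarith, by nlinarith⟩)
  refine ⟨t, ?_⟩
  simp only [hF] at ht
  unfold Sol
  linarith

/-- differences of two solutions -/
theorem sol_diff (Sf : Slope f m1 m2) (Sg : Slope g m1 m2) (hm : m1 ≤ m2) {s t s' t' : ℝ}
    (h : Sol f g s t) (h' : Sol f g s' t') :
    ∃ a b d, m1 ≤ a ∧ a ≤ m2 ∧ m1 ≤ b ∧ b ≤ m2 ∧ m1 ≤ d ∧ d ≤ m2 ∧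
      (1 + b * d) * (t' - t) = (s' - s) * ((1 - a) + d * (1 + a)) ∧
      (1 + b * d) * ((s' - (f t' - g s')) - (s - (f t - g s))) =
        (s' - s) * ((1 + a) - b * (1 - a)) ∧
      (t' - (f t' - g s')) - (t - (f t - g s)) =
        (t' - t) + ((s' - (f t' - g s')) - (s - (f t - g s))) - (s' - s) := by
  obtain ⟨a, a1, a2, ea⟩ := Sg.ex hm s s'
  obtain ⟨b, b1, b2, eb⟩ := Sf.ex hm t t'
  obtain ⟨d, d1, d2, ed⟩ := Sg.ex hm (s - (f t - g s)) (s' - (f t' - g s'))
  unfold Sol at h h'
  rw [h, h'] at ed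
  have e1 : (s' - (f t' - g s')) - (s - (f t - g s)) =
      (s' - s) - (b * (t' - t) - a * (s' - s)) := by linarith
  refine ⟨a, b, d, a1, a2, b1, b2, d1, d2, ?_, ?_, by ring⟩
  · rw [e1] at ed
    linear_combination ed - ea
  · rw [e1]
    rw [e1] at ed
    linear_combination (-b) * (ed - ea)

end Pool.Agent.X150.TG
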