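import Pool.Agent.X150.TG.Lip

/-! Ends with bounded slopes: the chord with both vertices outside. -/

set_option autoImplicit false

namespace Pool.Agent.X150.TG

variable {f g : ℝ → ℝ} {m1 m2 : ℝ}

/-- the action -/
noncomputable def Lam (f g : ℝ → ℝ) (s t : ℝ) : ℝ :=
  (Pr f t - Pr f (t - (f t - g s))) - (Pr g s - Pr g (s - (f t - g s))) +
    ((t - s) ^ 2 - (f t - g s) ^ 2) / 2

theorem lam_step (Sf : Slope f m1 m2) (Sg : Slope g m1 m2) {M : ℝ} (h1 : -M ≤ m1) (h2 : m2 ≤ M)
    {s t s' t' : ℝ} (h : Sol f g s t) (hE : f t + (t - s) ≤ f (t - (f t - g s)))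
    (hx : 0 ≤ (t' - (f t' - g s')) - (t - (f t - g s))) :
    Lam f g s' t' - Lam f g s t ≤ M * (t' - t) ^ 2 + M * (s' - s) ^ 2 +
      M * ((t' - (f t' - g s')) - (t - (f t - g s))) ^ 2 +
      M * ((s' - (f t' - g s')) - (s - (f t - g s))) ^ 2 + ((t' - s') - (t - s)) ^ 2 / 2 := by
  have b1 := (abs_le.1 (Pr_err Sf h1 h2 t t')).2
  have b2 := (abs_le.1 (Pr_err Sf h1 h2 (t - (f t - g s)) (t' - (f t' - g s')))).1
  have b3 := (abs_le.1 (Pr_err Sg h1 h2 s s')).1
  have b4 := (abs_le.1 (Pr_err Sg h1 h2 (s - (f t - g s)) (s' - (f t' - g s')))).2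
  unfold Sol at h
  rw [h] at b4
  unfold Lam
  set q := f t - g s with hq
  set q' := f t' - g s' with hq'
  have hm := mul_le_mul_of_nonneg_right hE hx
  have e1 : f t = g s + q := by rw [hq]; ring
  rw [e1] at b1 hm
  nlinarith [sq_nonneg (q' - q)]

theorem lam_pos (Sf : Slope f m1 m2) (Sg : Slope g m1 m2) (hm : m2 - m1 < 2)
    {s t : ℝ} (h : Sol f g s t) (hE : f t + (t - s) ≤ f (t - (f t - g s)))
    (hq : 0 < f t - g s) : 0 < Lam f g s t := by
  have b1 := (Pr_trap Sf (show t - (f t - g s) ≤ t by linarith)).1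
  have b2 := (Pr_trap Sg (show s - (f t - g s) ≤ s by linarith)).2
  unfold Sol at h
  rw [h] at b2
  unfold Lam
  set q := f t - g s with hqd
  have e1 : t - (t - q) = q := by ring
  have e2 : s - (s - q) = q := by ring
  rw [e1] at b1
  rw [e2] at b2
  have hm' := mul_le_mul_of_nonneg_left hE (show 0 ≤ q / 2 by linarith)
  have e3 : f t = g s + q := by rw [hqd]; ring
  rw [e3] at b1 hm'
  nlinarith [sq_nonneg (t - s), mul_pos (mul_pos hq hq) (sub_pos.2 hm)]

/-- Near the end there is a chord whose square has no vertex inside, on the left side. -/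
theorem lip_tip (Sf : Slope f m1 m2) (Sg : Slope g m1 m2) (hm : m1 ≤ m2) (hK : 0 < 1 + m1 * m2)
    (hN : ∀ a b d, m1 ≤ a → a ≤ m2 → m1 ≤ b → b ≤ m2 → m1 ≤ d → d ≤ m2 →
      0 ≤ 1 + d - b - b * d + a * (b + d)) (hW : m2 - m1 < 2)
    (hle : ∀ x, x ≤ 0 → f x = g x) (hlt : ∀ x, 0 < x → g x < f x) {r : ℝ} (hr : 0 < r) :
    ∃ s t, 0 < s ∧ s < r ∧ 0 < t ∧ t < r ∧ Sol f g s t ∧ f (t - (f t - g s)) ≤ f t + (t - s) := by
  by_contra hcon
  push Not at hcon
  set κ := min 1 (1 + m1 * m2) with hκ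
  have κ0 : 0 < κ := lt_min one_pos hK
  set M := max |m1| |m2| with hM
  have hM0 : 0 ≤ M := (abs_nonneg _).trans (le_max_left _ _)
  have hM1 : -M ≤ m1 := by
    have := neg_abs_le m1
    have h2 : |m1| ≤ M := le_max_left _ _
    linarith
  have hM2 : m2 ≤ M := (le_abs_self m2).trans (le_max_right _ _)
  have hMb : ∀ a, m1 ≤ a → a ≤ m2 → |a| ≤ M := fun a h1 h2 => by
    rw [abs_le]; constructor <;> linarith
  choose τ hτ using exists_sol Sf Sg hm hK
  have hMp : 0 < (1 + M) ^ 2 := by positivity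
  set C := (1 + M) ^ 2 / κ with hC
  have C0 : 0 < C := by positivity
  have hCκ : κ * C = (1 + M) ^ 2 := by rw [hC]; field_simp
  -- Lipschitz bounds
  have bound : ∀ {s t s' t' : ℝ}, Sol f g s t → Sol f g s' t' →
      |t' - t| ≤ C * |s' - s| ∧ |(s' - (f t' - g s')) - (s - (f t - g s))| ≤ C * |s' - s| ∧
      (s ≤ s' → 0 ≤ (t' - (f t' - g s')) - (t - (f t - g s))) ∧
      (t' - (f t' - g s')) - (t - (f t - g s)) =
        (t' - t) + ((s' - (f t' - g s')) - (s - (f t - g s))) - (s' - s) := by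
    intro s t s' t' h h'
    obtain ⟨a, b, d, a1, a2, b1, b2, d1, d2, e1, e2, e3⟩ := sol_diff Sf Sg hm h h'
    have hk := one_add_mul b1 b2 d1 d2
    have ha := hMb a a1 a2
    have hb := hMb b b1 b2
    have hd := hMb d d1 d2
    have hkp : 0 < 1 + b * d := lt_of_lt_of_le κ0 hk
    have key : ∀ X Y : ℝ, (1 + b * d) * X = (s' - s) * Y → |Y| ≤ (1 + M) ^ 2 →
        |X| ≤ C * |s' - s| := by
      intro X Y hXY hY
      have h1 : (1 + b * d) * |X| = |s' - s| * |Y| := by
        rw [← abs_of_pos hkp, ← abs_mul, hXY, abs_mul]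
      have h2 : κ * |X| ≤ κ * (C * |s' - s|) := by
        calc κ * |X| ≤ (1 + b * d) * |X| := mul_le_mul_of_nonneg_right hk (abs_nonneg _)
          _ = |s' - s| * |Y| := h1
          _ ≤ |s' - s| * (1 + M) ^ 2 := mul_le_mul_of_nonneg_left hY (abs_nonneg _)
          _ = κ * (C * |s' - s|) := by rw [← hCκ]; ring
      exact le_of_mul_le_mul_left h2 κ0
    refine ⟨key _ _ e1 ?_, key _ _ e2 ?_, ?_, e3⟩
    · have h3 : |(1 - a) + d * (1 + a)| ≤ (1 + M) + M * (1 + M) := by
        refine (abs_add_le _ _).trans (add_le_add ?_ ?_)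
        · refine (abs_sub _ _).trans ?_
          rw [abs_one]; linarith
        · rw [abs_mul]
          refine mul_le_mul hd ?_ (abs_nonneg _) hM0
          refine (abs_add_le _ _).trans ?_
          rw [abs_one]; linarith
      calc _ ≤ _ := h3
        _ = (1 + M) ^ 2 := by ring
    · have h3 : |(1 + a) - b * (1 - a)| ≤ (1 + M) + M * (1 + M) := by
        refine (abs_sub _ _).trans (add_le_add ?_ ?_)
        · refine (abs_add_le _ _).trans ?_
          rw [abs_one]; linarith
        · rw [abs_mul]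
          refine mul_le_mul hb ?_ (abs_nonneg _) hM0
          refine (abs_sub _ _).trans ?_
          rw [abs_one]; linarith
      calc _ ≤ _ := h3
        _ = (1 + M) ^ 2 := by ring
    · intro hs
      have hn := hN a b d a1 a2 b1 b2 d1 d2
      have e4 : (1 + b * d) * ((t' - (f t' - g s')) - (t - (f t - g s))) =
          (s' - s) * (1 + d - b - b * d + a * (b + d)) := by
        rw [e3]
        linear_combination e1 + e2
      have h5 : 0 ≤ (1 + b * d) * ((t' - (f t' - g s')) - (t - (f t - g s))) := by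
        rw [e4]; exact mul_nonneg (by linarith) hn
      exact nonneg_of_mul_nonneg_right h5 hkp
  have e0 : f 0 = g 0 := hle 0 le_rfl
  have sol0 : Sol f g 0 0 := by
    unfold Sol; rw [e0]; simp
  have τ0 : τ 0 = 0 := by
    have := (bound sol0 (hτ 0)).1
    simp at this
    exact this
  -- signs
  have sg : ∀ s, 0 < s → 0 < τ s ∧ 0 < f (τ s) - g s := by
    intro s hs
    have h := hτ s
    set t := τ s with ht
    obtain ⟨c, c1, c2, ec⟩ := Sg.ex hm s t
    obtain ⟨d, d1, d2, ed⟩ := Sg.ex hm s (s - (f t - g s))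
    unfold Sol at h
    rw [h] at ed
    set q := f t - g s with hq
    have hk := one_add_mul c1 c2 d1 d2
    have hkp : 0 < 1 + c * d := lt_of_lt_of_le κ0 hk
    have e1 : t - s = -(d * q) := by linarith
    have e2 : q * (1 + c * d) = f t - g t := by
      have : q = f t - g t + c * (t - s) := by rw [← ec, hq]; ring
      rw [e1] at this
      linear_combination this
    have tp : 0 < t := by
      by_contra hn
      push Not at hn
      have h3 := hle t hn
      rw [h3, sub_self] at e2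
      have hq0 : q = 0 := by
        rcases mul_eq_zero.1 e2 with h | h
        · exact h
        · linarith
      rw [hq0] at e1
      linarith
    refine ⟨tp, ?_⟩
    have h4 := hlt t tp
    by_contra hn
    push Not at hn
    have : q * (1 + c * d) ≤ 0 := mul_nonpos_of_nonpos_of_nonneg hn hkp.le
    linarith
  -- the range
  set b := min (r / 2) (r / (2 * C)) with hb
  have b0 : 0 < b := by positivity
  have hb1 : b < r := by
    have : b ≤ r / 2 := min_le_left _ _
    linarith
  have τr : ∀ s, 0 < s → s ≤ b → τ s < r := by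
    intro s hs hsb
    have h1 := (bound sol0 (hτ s)).1
    rw [sub_zero, sub_zero, abs_of_pos hs] at h1
    have h2 := le_abs_self (τ s)
    have h3 : C * s ≤ C * (r / (2 * C)) :=
      mul_le_mul_of_nonneg_left (hsb.trans (min_le_right _ _)) C0.le
    have h4 : C * (r / (2 * C)) = r / 2 := by field_simp
    linarith
  have hin : ∀ s, 0 ≤ s → s ≤ b → f (τ s) + (τ s - s) ≤ f (τ s - (f (τ s) - g s)) := by
    intro s h0 h1
    rcases h0.lt_or_eq with h | h
    · exact (hcon s (τ s) h (by linarith) (sg s h).1 (τr s h h1) (hτ s)).le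
    · rw [← h, τ0, e0]; simp [e0]
  have hinc : Lam f g b (τ b) ≤ Lam f g 0 (τ 0) := by
    refine no_incr (lam := fun s => Lam f g s (τ s))
      (K := M * C ^ 2 + M + M * (2 * C + 1) ^ 2 + M * C ^ 2 + (C + 1) ^ 2 / 2) b0 ?_
    intro s s' hs hss hs'
    obtain ⟨u1, u2, u3, u4⟩ := bound (hτ s) (hτ s')
    have hα : 0 < s' - s := by linarith
    rw [abs_of_pos hα] at u1 u2
    have hst := lam_step Sf Sg hM1 hM2 (hτ s) (hin s hs (by linarith)) (u3 hss.le)
    set X := τ s' - τ s with hX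
    set Y := (s' - (f (τ s') - g s')) - (s - (f (τ s) - g s)) with hY
    have v1 : X ^ 2 ≤ C ^ 2 * (s' - s) ^ 2 := by
      rw [← mul_pow, ← sq_abs X]
      exact pow_le_pow_left₀ (abs_nonneg _) u1 2
    have v2 : Y ^ 2 ≤ C ^ 2 * (s' - s) ^ 2 := by
      rw [← mul_pow, ← sq_abs Y]
      exact pow_le_pow_left₀ (abs_nonneg _) u2 2
    have v3 : ((τ s' - (f (τ s') - g s')) - (τ s - (f (τ s) - g s))) ^ 2 ≤
        (2 * C + 1) ^ 2 * (s' - s) ^ 2 := by
      rw [u4, ← mul_pow, ← sq_abs]
      refine pow_le_pow_left₀ (abs_nonneg _) ?_ 2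
      calc |X + Y - (s' - s)| ≤ |X + Y| + |s' - s| := abs_sub _ _
        _ ≤ |X| + |Y| + |s' - s| := by linarith [abs_add_le X Y]
        _ ≤ (2 * C + 1) * (s' - s) := by rw [abs_of_pos hα]; linarith
    have v4 : ((τ s' - s') - (τ s - s)) ^ 2 ≤ (C + 1) ^ 2 * (s' - s) ^ 2 := by
      have : (τ s' - s') - (τ s - s) = X - (s' - s) := by rw [hX]; ring
      rw [this, ← mul_pow, ← sq_abs]
      refine pow_le_pow_left₀ (abs_nonneg _) ?_ 2
      calc |X - (s' - s)| ≤ |X| + |s' - s| := abs_sub _ _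
        _ ≤ (C + 1) * (s' - s) := by rw [abs_of_pos hα]; linarith
    show Lam f g s' (τ s') - Lam f g s (τ s) ≤ _
    have w1 := mul_le_mul_of_nonneg_left v1 hM0
    have w2 := mul_le_mul_of_nonneg_left v2 hM0
    have w3 := mul_le_mul_of_nonneg_left v3 hM0
    linarith
  have h0 : Lam f g 0 (τ 0) = 0 := by
    rw [τ0]; unfold Lam; rw [e0]; simp
  have hp := lam_pos Sf Sg hW (hτ b) (hin b b0.le le_rfl) (sg b b0).2
  linarith

end Pool.Agent.X150.TG
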