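import Pool.Agent.X150.TG.Strip

/-! Existence of the square, given the data at the two ends. -/

set_option autoImplicit false
open Complex Set Topology Metric

namespace Pool.Agent.X150.TG

open Pool.Agent.H763R2 Pool.Agent.H763R2.An Pool.Agent.H765R3.Peg Pool.Agent.TH829.Peg
open Pool.Agent.H763R2.Dm (NoSq)

variable {f g : ℝ → ℝ} {Φa Φb : ℝ → ℝ → ℝ} {c1 c2 e1 e2 : ℝ}

def Pp (f g : ℝ → ℝ) (Φa Φb : ℝ → ℝ → ℝ) (c1 c2 e1 e2 : ℝ) : Set (ℝ × ℝ) :=
  {p | (dd p.1 ≤ dd p.2 ∧ 0 ≤ G1 f g Φa Φb c1 c2 p) ∨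
    (dd p.2 ≤ dd p.1 ∧ 0 ≤ G2 f g Φa Φb e1 e2 p)}

def Pm (f g : ℝ → ℝ) (Φa Φb : ℝ → ℝ → ℝ) (c1 c2 e1 e2 : ℝ) : Set (ℝ × ℝ) :=
  {p | (dd p.1 ≤ dd p.2 ∧ G1 f g Φa Φb c1 c2 p ≤ 0) ∨
    (dd p.2 ≤ dd p.1 ∧ G2 f g Φa Φb e1 e2 p ≤ 0)}

/-- the separating set -/
def SS (f g : ℝ → ℝ) (Φa Φb : ℝ → ℝ → ℝ) (c1 c2 e1 e2 : ℝ) : Set (ℝ × ℝ) :=
  Pp f g Φa Φb c1 c2 e1 e2 ∩ Pm f g Φa Φb c1 c2 e1 e2

theorem Pp_closed (D : Dat f g Φa Φb c1 c2 e1 e2) : IsClosed (Pp f g Φa Φb c1 c2 e1 e2) := by
  have h1 := G1_cont D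
  have h2 := G2_cont D
  have h3 : Continuous fun p : ℝ × ℝ => dd p.1 := dd_cont.comp continuous_fst
  have h4 : Continuous fun p : ℝ × ℝ => dd p.2 := dd_cont.comp continuous_snd
  exact ((isClosed_le h3 h4).inter (isClosed_le continuous_const h1)).union
    ((isClosed_le h4 h3).inter (isClosed_le continuous_const h2))

theorem Pm_closed (D : Dat f g Φa Φb c1 c2 e1 e2) : IsClosed (Pm f g Φa Φb c1 c2 e1 e2) := by
  have h1 := G1_cont D
  have h2 := G2_cont D
  have h3 : Continuous fun p : ℝ × ℝ => dd p.1 := dd_cont.comp continuous_fst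
  have h4 : Continuous fun p : ℝ × ℝ => dd p.2 := dd_cont.comp continuous_snd
  exact ((isClosed_le h3 h4).inter (isClosed_le h1 continuous_const)).union
    ((isClosed_le h4 h3).inter (isClosed_le h2 continuous_const))

theorem SS_per (x y : ℝ) : (x + 1, y + 1) ∈ SS f g Φa Φb c1 c2 e1 e2 ↔
    (x, y) ∈ SS f g Φa Φb c1 c2 e1 e2 := by
  have a := G1_int (f := f) (g := g) (Φa := Φa) (Φb := Φb) (c1 := c1) (c2 := c2) (x, y) 1
  have b := G2_int (f := f) (g := g) (Φa := Φa) (Φb := Φb) (e1 := e1) (e2 := e2) (x, y) 1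
  simp only [Int.cast_one] at a b
  unfold SS Pp Pm
  simp only [mem_inter_iff, mem_ofPred_eq, dd_succ, a, b]

theorem SS_meets (D : Dat f g Φa Φb c1 c2 e1 e2) : Meets (SS f g Φa Φb c1 c2 e1 e2) := by
  intro x y hx hy _ h0 h1
  set K : Set (ℝ × ℝ) := (fun s => (x s, y s)) '' Icc (0:ℝ) 1 with hK
  have hpre : IsPreconnected K := isPreconnected_Icc.image _ (hx.prodMk hy)
  have hcov : K ⊆ Pp f g Φa Φb c1 c2 e1 e2 ∪ Pm f g Φa Φb c1 c2 e1 e2 := by
    intro p _
    rcases le_total (dd p.1) (dd p.2) with h | h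
    · rcases le_total 0 (G1 f g Φa Φb c1 c2 p) with h' | h'
      · exact Or.inl (Or.inl ⟨h, h'⟩)
      · exact Or.inr (Or.inl ⟨h, h'⟩)
    · rcases le_total 0 (G2 f g Φa Φb e1 e2 p) with h' | h'
      · exact Or.inl (Or.inr ⟨h, h'⟩)
      · exact Or.inr (Or.inr ⟨h, h'⟩)
  obtain ⟨p, ⟨s, hs, rfl⟩, hp⟩ := (isPreconnected_closed_iff.1 hpre) _ _ (Pp_closed D)
    (Pm_closed D) hcov
    ⟨(x 1, y 1), ⟨1, ⟨zero_le_one, le_rfl⟩, rfl⟩, by
      rw [h1]; exact Or.inl ⟨(dd_succ _).ge, (outer D _).1.le⟩⟩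
    ⟨(x 0, y 0), ⟨0, ⟨le_rfl, zero_le_one⟩, rfl⟩, by
      rw [h0]; exact Or.inl ⟨le_rfl, (inner D _).1.le⟩⟩
  exact ⟨s, hs, hp⟩

theorem SS_inner (D : Dat f g Φa Φb c1 c2 e1 e2) (x : ℝ) : (x, x) ∉ SS f g Φa Φb c1 c2 e1 e2 := by
  rintro ⟨h, -⟩
  obtain ⟨a, b⟩ := inner D x
  rcases h with ⟨-, h⟩ | ⟨-, h⟩ <;> linarith

theorem SS_outer (D : Dat f g Φa Φb c1 c2 e1 e2) (x : ℝ) :
    (x, x + 1) ∉ SS f g Φa Φb c1 c2 e1 e2 := by
  rintro ⟨-, h⟩
  obtain ⟨a, b⟩ := outer D x
  rcases h with ⟨-, h⟩ | ⟨-, h⟩ <;> linarith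

/-- vertical chords -/
theorem vert (D : Dat f g Φa Φb c1 c2 e1 e2) {x y : ℝ} (hx : x < y) (hy : y < x + 1)
    (hd : dd x = dd y)
    (h : (0 ≤ G1 f g Φa Φb c1 c2 (x, y) ∧ G2 f g Φa Φb e1 e2 (x, y) ≤ 0) ∨
      (0 ≤ G2 f g Φa Φb e1 e2 (x, y) ∧ G1 f g Φa Φb c1 c2 (x, y) ≤ 0)) :
    ¬ Both f g (crv f g x) (crv f g y) := by
  wlog hr : 0 ≤ x + y ∧ x + y < 2 generalizing x y with Hw
  · set n := ⌊(x + y) / 2⌋ with hn
    have b1 := Int.floor_le ((x + y) / 2)
    have b2 := Int.lt_floor_add_one ((x + y) / 2)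
    rw [← hn] at b1 b2
    have ez : ∀ z : ℝ, z = (z - n) + n := fun z => by ring
    have h2 := G1_int (f := f) (g := g) (Φa := Φa) (Φb := Φb) (c1 := c1) (c2 := c2)
      (x - n, y - n) n
    have h3 := G2_int (f := f) (g := g) (Φa := Φa) (Φb := Φb) (e1 := e1) (e2 := e2)
      (x - n, y - n) n
    simp only [sub_add_cancel] at h2 h3
    have := Hw (x := x - n) (y := y - n) (by linarith) (by linarith)
      (by rw [ez x, ez y, dd_add_int, dd_add_int] at hd; exact hd)
      (by rw [← h2, ← h3]; exact h)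
      ⟨by linarith, by linarith⟩
    have ex : crv f g x = crv f g (x - n) := by rw [← crv_int (x - n) n]; ring_nf
    have ey : crv f g y = crv f g (y - n) := by rw [← crv_int (y - n) n]; ring_nf
    rw [ex, ey]; exact this
  obtain ⟨h0, h2⟩ := hr
  have hcase : x + y = 0 ∨ x + y = 1 := by
    rcases h0.lt_or_eq with h3 | h3
    · rcases lt_trichotomy (x + y) 1 with h4 | h4 | h4
      · have := dd_ltR h3 h4 hx hy; linarith
      · exact Or.inr h4
      · have := dd_ltL h4 h2 hx hy; linarith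
    · exact Or.inl h3.symm
  obtain ⟨t1, t2, a1, a2, b1, b2, r1, r2⟩ := factsR D.T h0
    (by rcases hcase with h | h <;> linarith) hx hy
  obtain ⟨m1, m2, -⟩ := crv_mem D.T x
  obtain ⟨m3, m4, -⟩ := crv_mem D.T y
  have hX : (crv f g y).re = (crv f g x).re := by rw [crv_re D.T, crv_re D.T, hd]
  set X := (crv f g x).re with hXd
  have hX0 : 0 < X := by
    rw [r1]
    have : x ≠ 0 := by rintro rfl; rcases hcase with h | h <;> linarith
    positivity
  have hX1 : X < 1 := by
    rw [r1]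
    have : |x| < 1 / 2 := by rw [abs_lt]; rcases hcase with h | h <;> constructor <;> linarith
    linarith
  have hlt := D.T.lt X hX0 hX1
  unfold G1 G2 at h
  rw [t1, t2, hX, ← hXd] at h
  unfold Both
  rw [hX, ← hXd]
  rcases hcase with hc | hc
  · -- first point on the top graph
    have e1' := a1 (by linarith)
    have e2' := b2 (by linarith)
    rw [hX] at e2'
    dsimp only at h
    rw [e1', e2'] at h ⊢
    have hΦ : Φb X X = 0 := by
      unfold GR at h
      simp only [sub_sub_cancel] at h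
      have p1 : 0 < -4 * x := by linarith
      have p2 : 4 * y - 2 < 0 := by linarith
      rcases h with ⟨u, v⟩ | ⟨u, v⟩
      · -- lower bound from the first, upper bound from the second
        have lo : 0 ≤ Φb X X := by
          rcases le_max_iff.1 u with w | w
          · have := (le_min_iff.1 w).2; linarith
          · rcases le_max_iff.1 w with w | w
            · have := (le_min_iff.1 w).1; linarith
            · rcases le_max_iff.1 (le_min_iff.1 w).2 with w | w
              · have := (le_min_iff.1 w).1; linarith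
              · exact w
        have up : Φb X X ≤ 0 := by
          have w := (max_le_iff.1 (max_le_iff.1 v).2).1
          rcases min_le_iff.1 w with w | w
          · linarith
          · exact (max_le_iff.1 w).2
        linarith
      · have lo : 0 ≤ Φb X X := by
          rcases le_max_iff.1 u with w | w
          · have := (le_min_iff.1 w).1; linarith
          · rcases le_max_iff.1 w with w | w
            · rcases le_max_iff.1 (le_min_iff.1 w).2 with w | w
              · have := (le_min_iff.1 w).1; linarith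
              · exact w
            · have := (le_min_iff.1 w).1; linarith
        have up : Φb X X ≤ 0 := by
          have w := (max_le_iff.1 (max_le_iff.1 v).2).2
          rcases min_le_iff.1 w with w | w
          · linarith
          · exact (max_le_iff.1 w).2
        linarith
    have := D.C.okB X X hX0.le le_rfl hX1.le hΦ hlt.le
    simpa using this
  · have e1' := a2 (by linarith)
    have e2' := b1 (by linarith)
    rw [hX] at e2'
    dsimp only at h
    rw [e1', e2'] at h ⊢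
    have hΦ : Φa X X = 0 := by
      unfold GR at h
      simp only [sub_sub_cancel] at h
      have p1 : -4 * x < 0 := by linarith
      have p2 : 0 < 4 * y - 2 := by linarith
      rcases h with ⟨u, v⟩ | ⟨u, v⟩
      · have lo : 0 ≤ Φa X X := by
          rcases le_max_iff.1 u with w | w
          · have := (le_min_iff.1 w).1; linarith
          · rcases le_max_iff.1 w with w | w
            · rcases le_max_iff.1 (le_min_iff.1 w).2 with w | w
              · have := (le_min_iff.1 w).1; linarith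
              · exact w
            · have := (le_min_iff.1 w).1; linarith
        have up : Φa X X ≤ 0 := by
          have w := (max_le_iff.1 (max_le_iff.1 v).2).2
          rcases min_le_iff.1 w with w | w
          · linarith
          · exact (max_le_iff.1 w).2
        linarith
      · have lo : 0 ≤ Φa X X := by
          rcases le_max_iff.1 u with w | w
          · have := (le_min_iff.1 w).2; linarith
          · rcases le_max_iff.1 w with w | w
            · have := (le_min_iff.1 w).1; linarith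
            · rcases le_max_iff.1 (le_min_iff.1 w).2 with w | w
              · have := (le_min_iff.1 w).1; linarith
              · exact w
        have up : Φa X X ≤ 0 := by
          have w := (max_le_iff.1 (max_le_iff.1 v).2).1
          rcases min_le_iff.1 w with w | w
          · linarith
          · exact (max_le_iff.1 w).2
        linarith
    have := D.C.okA X X hX0.le le_rfl hX1.le hΦ hlt.le
    simpa using this

theorem not_both (D : Dat f g Φa Φb c1 c2 e1 e2) {x y : ℝ} (hx : x < y) (hy : y < x + 1)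
    (h : (x, y) ∈ SS f g Φa Φb c1 c2 e1 e2) : ¬ Both f g (crv f g x) (crv f g y) := by
  obtain ⟨hp, hm⟩ := h
  rcases hp with ⟨d1, h1⟩ | ⟨d1, h1⟩
  · rcases hm with ⟨d2, h2⟩ | ⟨d2, h2⟩
    · exact zero1 D hx hy d1 (le_antisymm h2 h1)
    · exact vert D hx hy (le_antisymm d1 d2) (Or.inl ⟨h1, h2⟩)
  · rcases hm with ⟨d2, h2⟩ | ⟨d2, h2⟩
    · exact vert D hx hy (le_antisymm d2 d1) (Or.inr ⟨h1, h2⟩)
    · exact zero2 D hx hy d1 (le_antisymm h2 h1)

theorem exists_square (D : Dat f g Φa Φb c1 c2 e1 e2) : ¬ NoSq (range (crv f g)) := by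
  intro nosq
  have L := crv_loop D.T
  obtain ⟨x, y, t, hx, hy, hS, ht, h1, h2⟩ := crossing_sep L (crv_inj D.T) nosq
    ((Pp_closed D).inter (Pm_closed D)) SS_per (SS_inner D) (SS_outer D) (SS_meets D)
    (Real.pi / 4)
  rw [Real.cos_pi_div_four] at h1
  rw [Real.sin_pi_div_four] at h2
  have hpos : 0 < t * (√2 / 2) := by positivity
  have i1 := ins_of_pos D.T (z := DD (crv f g) x y) (by rw [h1]; exact hpos)
  have i2 := ins_of_pos D.T (z := CC (crv f g) x y) (by rw [h2]; exact hpos)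
  refine not_both D hx hy hS ⟨?_, ?_⟩
  · unfold DD at i1
    rw [Sq.Dv_re, Sq.Dv_im] at i1
    exact i1
  · unfold CC at i2
    rw [Sq.Cv_re, Sq.Cv_im] at i2
    exact i2

end Pool.Agent.X150.TG
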