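import Pool.Agent.X150.TG.Tao

/-! Lipschitz ends with constant one: estimates for the action. -/

set_option autoImplicit false
open Set Topology Filter

namespace Pool.Agent.X150.TG

variable {f g φ ψ : ℝ → ℝ} {L : ℝ}

/-- the sharp trapezoidal bounds -/
theorem Pr_sharp (h : Slope φ (-1) 1) {a b : ℝ} (hab : a ≤ b) :
    (b - a) / 2 * (φ a + φ b) - (b - a) ^ 2 / 4 + (φ b - φ a) ^ 2 / 4 ≤ Pr φ b - Pr φ a ∧
    Pr φ b - Pr φ a ≤ (b - a) / 2 * (φ a + φ b) + (b - a) ^ 2 / 4 - (φ b - φ a) ^ 2 / 4 := by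
  have hc := h.cont
  obtain ⟨s1, s2⟩ := h a b hab
  constructor
  · set c := (a + b) / 2 + (φ a - φ b) / 2 with hcd
    have hac : a ≤ c := by rw [hcd]; linarith
    have hcb : c ≤ b := by rw [hcd]; linarith
    have e : Pr φ b - Pr φ a = (∫ x in a..c, φ x) + ∫ x in c..b, φ x := by
      rw [← Pr_sub hc, ← Pr_sub hc]; ring
    have l1 := int_ge (k := φ a + a) (m := -1) hac hc (fun x hx _ => by
      have := (h a x hx).1; linarith)
    have l2 := int_ge (k := φ b - b) (m := 1) hcb hc (fun x _ hx => by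
      have := (h x b hx).2; linarith)
    rw [e]
    rw [hcd] at l1 l2 ⊢
    linarith
  · set c := (a + b) / 2 + (φ b - φ a) / 2 with hcd
    have hac : a ≤ c := by rw [hcd]; linarith
    have hcb : c ≤ b := by rw [hcd]; linarith
    have e : Pr φ b - Pr φ a = (∫ x in a..c, φ x) + ∫ x in c..b, φ x := by
      rw [← Pr_sub hc, ← Pr_sub hc]; ring
    have l1 := int_le (k := φ a - a) (m := 1) hac hc (fun x hx _ => by
      have := (h a x hx).2; linarith)
    have l2 := int_le (k := φ b + b) (m := -1) hcb hc (fun x _ hx => by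
      have := (h x b hx).1; linarith)
    rw [e]
    rw [hcd] at l1 l2 ⊢
    linarith

/-- strict positivity of the action in the limit case -/
theorem act_pos1 (Sf : Slope f (-1) 1) (Sg : Slope g (-1) 1) {m u v : ℝ} (h : Crit f g m u v)
    (hq : 0 ≤ u + v) (hm : g m < f m) : 0 < Act f g m u v := by
  obtain ⟨p1, p2⟩ := h
  rcases hq.lt_or_eq with hq | hq
  · have b1 := (Pr_sharp Sf (show m - u ≤ m + v by linarith)).1
    have b2 := (Pr_sharp Sg (show m - v ≤ m + u by linarith)).2
    by_contra hcon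
    push Not at hcon
    unfold Act at hcon
    have hsum : (u - v) ^ 2 / 2 + (f (m + v) - f (m - u)) ^ 2 / 4 +
        (g (m + u) - g (m - v)) ^ 2 / 4 ≤ 0 := by
      have e1 : f (m - u) = 2 * v + g (m + u) := by linarith
      have e2 : f (m + v) = 2 * u + g (m - v) := by linarith
      rw [e1, e2] at b1 ⊢
      have r1 : m + v - (m - u) = u + v := by ring
      have r2 : m + u - (m - v) = u + v := by ring
      rw [r1] at b1
      rw [r2] at b2
      linarith
    have k1 := sq_nonneg (u - v)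
    have k2 := sq_nonneg (f (m + v) - f (m - u))
    have k3 := sq_nonneg (g (m + u) - g (m - v))
    have huv : u - v = 0 := by
      have : (u - v) ^ 2 = 0 := by linarith
      exact pow_eq_zero_iff two_ne_zero |>.1 this
    have hv : v = u := by linarith
    subst hv
    have hf : f (m + v) = f (m - v) := by
      have h1 : (f (m + v) - f (m - v)) ^ 2 = 0 := by linarith
      have h2 := pow_eq_zero_iff two_ne_zero |>.1 h1
      linarith
    have hg : g (m + v) = g (m - v) := by
      have h1 : (g (m + v) - g (m - v)) ^ 2 = 0 := by linarith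
      have h2 := pow_eq_zero_iff two_ne_zero |>.1 h1
      linarith
    have hv0 : 0 < v := by linarith
    have c1 := (Pr_sharp Sf (show m - v ≤ m by linarith)).1
    have c2 := (Pr_sharp Sf (show m ≤ m + v by linarith)).1
    have c3 := (Pr_sharp Sg (show m - v ≤ m by linarith)).2
    have c4 := (Pr_sharp Sg (show m ≤ m + v by linarith)).2
    rw [hf] at c2
    rw [hg] at c4 p1
    have r1 : m - (m - v) = v := by ring
    have r2 : m + v - m = v := by ring
    rw [r1] at c1 c3
    rw [r2] at c2 c4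
    have e1 : f (m - v) = 2 * v + g (m - v) := by linarith
    rw [e1] at c1 c2
    set F := f m with hF
    set G := g m with hG
    set γ := g (m - v) with hγ
    have key : (v - (2 * v + γ - F)) ^ 2 / 2 + (v - (G - γ)) ^ 2 / 2 ≤ 0 := by linarith
    have k4 := sq_nonneg (v - (2 * v + γ - F))
    have k5 := sq_nonneg (v - (G - γ))
    have z1 : v - (2 * v + γ - F) = 0 := by
      have : (v - (2 * v + γ - F)) ^ 2 = 0 := by linarith
      exact pow_eq_zero_iff two_ne_zero |>.1 this
    have z2 : v - (G - γ) = 0 := by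
      have : (v - (G - γ)) ^ 2 = 0 := by linarith
      exact pow_eq_zero_iff two_ne_zero |>.1 this
    linarith
  · have hv : v = -u := by linarith
    subst hv
    unfold Act
    have e1 : m + -u = m - u := by ring
    have e2 : m - -u = m + u := by ring
    rw [e1, e2]
    have hu : u ≠ 0 := by
      rintro rfl
      simp at p1
      linarith
    have : 0 < u ^ 2 := by positivity
    linarith

theorem Slope.smul (h : Slope φ (-1) 1) (h0 : 0 ≤ L) : Slope (fun x => L * φ x) (-L) L := by
  intro x y hxy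
  obtain ⟨a, b⟩ := h x y hxy
  have := mul_le_mul_of_nonneg_left a h0
  have := mul_le_mul_of_nonneg_left b h0
  constructor <;> linarith

theorem Pr_smul (L : ℝ) (φ : ℝ → ℝ) (x : ℝ) : Pr (fun x => L * φ x) x = L * Pr φ x := by
  unfold Pr
  exact intervalIntegral.integral_const_mul _ _

theorem Pr_cont (h : Slope φ (-1) 1) : Continuous (Pr φ) := by
  have := h.cont
  unfold Pr
  exact intervalIntegral.continuous_primitive (fun a b => this.intervalIntegrable a b) 0

theorem act_smul (L : ℝ) (φ ψ : ℝ → ℝ) (m u v : ℝ) :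
    Act (fun x => L * φ x) (fun x => L * ψ x) m u v =
      L * (Pr φ (m + v) + Pr ψ (m - v) - Pr φ (m - u) - Pr ψ (m + u)) - 2 * (u * v) := by
  unfold Act
  rw [Pr_smul, Pr_smul, Pr_smul, Pr_smul]
  ring

theorem crit_bound (Sφ : Slope φ (-1) 1) (Sψ : Slope ψ (-1) 1) (z1 : φ 0 = 0) (z2 : ψ 0 = 0)
    (h0 : 0 < L) (h1 : L < 1) {m u v : ℝ} (hm : 0 < m)
    (h : Crit (fun x => L * φ x) (fun x => L * ψ x) m u v) : |u| ≤ m ∧ |v| ≤ m := by
  have hφ : ∀ x, |φ x| ≤ |x| := by
    intro x
    rcases le_total 0 x with hx | hx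
    · have := Sφ 0 x hx
      rw [abs_of_nonneg hx, abs_le]; constructor <;> linarith
    · have := Sφ x 0 hx
      rw [abs_of_nonpos hx, abs_le]; constructor <;> linarith
  have hψ : ∀ x, |ψ x| ≤ |x| := by
    intro x
    rcases le_total 0 x with hx | hx
    · have := Sψ 0 x hx
      rw [abs_of_nonneg hx, abs_le]; constructor <;> linarith
    · have := Sψ x 0 hx
      rw [abs_of_nonpos hx, abs_le]; constructor <;> linarith
  obtain ⟨p1, p2⟩ := h
  simp only at p1 p2
  have mx : ∀ x : ℝ, |m - x| + |m + x| ≤ 2 * max m |x| := by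
    intro x
    have a1 : m ≤ max m |x| := le_max_left _ _
    have a2 : |x| ≤ max m |x| := le_max_right _ _
    have a3 := le_abs_self x
    have a4 := neg_abs_le x
    rcases abs_cases (m - x) with h | h <;> rcases abs_cases (m + x) with h' | h' <;>
      rw [h.1, h'.1] <;> linarith
  have gen : ∀ A B x y : ℝ, 2 * y = L * A - L * B → |A| + |B| ≤ |m - x| + |m + x| →
      |y| ≤ L * max m |x| := by
    intro A B x y e hAB
    have e2 : y = L * ((A - B) / 2) := by linarith
    rw [e2, abs_mul, abs_of_pos h0]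
    apply mul_le_mul_of_nonneg_left _ h0.le
    rw [abs_div, abs_two]
    have := abs_sub A B
    have := mx x
    linarith
  have v1 : |v| ≤ L * max m |u| := gen _ _ u v p1 (add_le_add (hφ _) (hψ _))
  have u1 : |u| ≤ L * max m |v| := by
    refine gen _ _ v u p2 ?_
    have := add_le_add (hφ (m + v)) (hψ (m - v))
    linarith
  have fin : ∀ x y : ℝ, |x| ≤ L * max m |y| → |y| ≤ L * max m |x| → |x| ≤ m := by
    intro x y hx hy
    by_contra hcon
    push Not at hcon
    rw [max_eq_right hcon.le] at hy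
    have hy2 : |y| < |x| := by nlinarith [abs_nonneg x]
    rcases max_choice m |y| with h | h
    · rw [h] at hx
      nlinarith
    · rw [h] at hx
      nlinarith [abs_nonneg y]
  exact ⟨fin u v u1 v1, fin v u v1 u1⟩

/-- uniform positivity of the action -/
theorem act_unif (Sφ : Slope φ (-1) 1) (Sψ : Slope ψ (-1) 1) {r : ℝ} (hm : ψ r < φ r) :
    ∃ c > 0, ∀ L, 1 / 2 ≤ L → L ≤ 1 → ∀ u v, |u| ≤ r → |v| ≤ r → 0 ≤ u + v →
      Crit (fun x => L * φ x) (fun x => L * ψ x) r u v →
      c ≤ Act (fun x => L * φ x) (fun x => L * ψ x) r u v := by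
  have cφ := Sφ.cont
  have cψ := Sψ.cont
  have pφ := Pr_cont Sφ
  have pψ := Pr_cont Sψ
  set B : Set (ℝ × ℝ × ℝ) := Icc (1 / 2) 1 ×ˢ (Icc (-r) r ×ˢ Icc (-r) r) with hB
  have cB : IsCompact B := isCompact_Icc.prod (isCompact_Icc.prod isCompact_Icc)
  set K : Set (ℝ × ℝ × ℝ) := B ∩ {p | 0 ≤ p.2.1 + p.2.2 ∧
    (2 * p.2.2 = p.1 * φ (r - p.2.1) - p.1 * ψ (r + p.2.1) ∧
      2 * p.2.1 = p.1 * φ (r + p.2.2) - p.1 * ψ (r - p.2.2))} with hK
  have cK : IsCompact K := by
    apply cB.inter_right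
    apply IsClosed.inter
    · exact isClosed_le continuous_const
        (by fun_prop : Continuous fun p : ℝ × ℝ × ℝ => p.2.1 + p.2.2)
    · apply IsClosed.inter
      · exact isClosed_eq (by fun_prop : Continuous fun p : ℝ × ℝ × ℝ => 2 * p.2.2)
          (by fun_prop : Continuous fun p : ℝ × ℝ × ℝ => p.1 * φ (r - p.2.1) - p.1 * ψ (r + p.2.1))
      · exact isClosed_eq (by fun_prop : Continuous fun p : ℝ × ℝ × ℝ => 2 * p.2.1)
          (by fun_prop : Continuous fun p : ℝ × ℝ × ℝ => p.1 * φ (r + p.2.2) - p.1 * ψ (r - p.2.2))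
  set F : ℝ × ℝ × ℝ → ℝ := fun p => p.1 * (Pr φ (r + p.2.2) + Pr ψ (r - p.2.2) -
    Pr φ (r - p.2.1) - Pr ψ (r + p.2.1)) - 2 * (p.2.1 * p.2.2) with hF
  have cF : Continuous F := by rw [hF]; fun_prop
  have mem : ∀ L, 1 / 2 ≤ L → L ≤ 1 → ∀ u v, |u| ≤ r → |v| ≤ r → 0 ≤ u + v →
      Crit (fun x => L * φ x) (fun x => L * ψ x) r u v → (L, u, v) ∈ K := by
    intro L l1 l2 u v hu hv huv h
    refine ⟨⟨⟨l1, l2⟩, abs_le.1 hu, abs_le.1 hv⟩, huv, h⟩
  rcases K.eq_empty_or_nonempty with hE | hne
  · refine ⟨1, one_pos, fun L l1 l2 u v hu hv huv h => ?_⟩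
    have := mem L l1 l2 u v hu hv huv h
    rw [hE] at this
    exact absurd this (notMem_empty _)
  · obtain ⟨p, hp, hmin⟩ := cK.exists_isMinOn hne cF.continuousOn
    refine ⟨F p, ?_, fun L l1 l2 u v hu hv huv h => ?_⟩
    · obtain ⟨⟨⟨l1, l2⟩, -, -⟩, huv, h⟩ := hp
      have hl : 0 ≤ p.1 := by linarith
      have S1 : Slope (fun x => p.1 * φ x) (-1) 1 := fun x y hxy => by
        obtain ⟨a, b⟩ := Sφ.smul hl x y hxy
        have : 0 ≤ y - x := by linarith
        constructor <;> nlinarith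
      have S2 : Slope (fun x => p.1 * ψ x) (-1) 1 := fun x y hxy => by
        obtain ⟨a, b⟩ := Sψ.smul hl x y hxy
        have : 0 ≤ y - x := by linarith
        constructor <;> nlinarith
      have := act_pos1 S1 S2 (m := r) (u := p.2.1) (v := p.2.2) h huv
        (mul_lt_mul_of_pos_left hm (by linarith))
      rw [act_smul] at this
      exact this
    · rw [act_smul]
      exact hmin (mem L l1 l2 u v hu hv huv h)

/-- a good critical point in a range -/
theorem exists_good2 (Sf : Slope f (-L) L) (Sg : Slope g (-L) L) (h0 : 0 ≤ L) (h1 : L < 1)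
    {r1 r c : ℝ} (hr : r1 < r) (ha : ∀ u v, Crit f g r u v → c ≤ Act f g r u v)
    (hb : ∀ u v, Crit f g r1 u v → Act f g r1 u v < c) :
    ∃ m u v, r1 ≤ m ∧ m < r ∧ Crit f g m u v ∧
      0 < f (m + v) + g (m - v) - f (m - u) - g (m + u) := by
  by_contra hcon
  push Not at hcon
  choose U V hUV using exists_crit Sf Sg h0 h1
  set C := L / (1 - L) with hC
  have hL1 : 0 < 1 - L := by linarith
  have C0 : 0 ≤ C := by positivity
  have hb0 : 0 < r - r1 := by linarith
  have hinc : Act f g (r1 + (r - r1)) (U (r1 + (r - r1))) (V (r1 + (r - r1))) ≤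
      Act f g (r1 + 0) (U (r1 + 0)) (V (r1 + 0)) := by
    refine no_incr (lam := fun m => Act f g (r1 + m) (U (r1 + m)) (V (r1 + m)))
      (K := 4 * L * (1 + C) ^ 2 + 2 * C ^ 2) hb0 ?_
    intro s s' hs hss hs'
    set m := r1 + s with hm
    set m' := r1 + s' with hm'
    have hst := act_step Sf Sg (m' := m') (u' := U m') (v' := V m') (hUV m)
    obtain ⟨l1, l2⟩ := crit_lip Sf Sg h0 h1 (hUV m) (hUV m')
    have hα : 0 < m' - m := by linarith
    rw [abs_of_pos hα] at l1 l2
    rw [← hC] at l1 l2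
    have hκ : f (m + V m) + g (m - V m) - f (m - U m) - g (m + U m) ≤ 0 :=
      hcon m (U m) (V m) (by linarith) (by linarith) (hUV m)
    have sqb : ∀ X : ℝ, |X| ≤ C * (m' - m) → ((m' - m) + X) ^ 2 ≤ (1 + C) ^ 2 * (m' - m) ^ 2 ∧
        ((m' - m) - X) ^ 2 ≤ (1 + C) ^ 2 * (m' - m) ^ 2 := by
      intro X hX
      rw [← mul_pow]
      constructor
      · rw [← sq_abs]
        refine pow_le_pow_left₀ (abs_nonneg _) ?_ 2
        have := abs_add_le (m' - m) X
        rw [abs_of_pos hα] at this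
        linarith
      · rw [← sq_abs]
        refine pow_le_pow_left₀ (abs_nonneg _) ?_ 2
        have := abs_sub (m' - m) X
        rw [abs_of_pos hα] at this
        linarith
    obtain ⟨s1, s2⟩ := sqb _ l1
    obtain ⟨s3, s4⟩ := sqb _ l2
    have s5 : |(U m' - U m) * (V m' - V m)| ≤ C ^ 2 * (m' - m) ^ 2 := by
      rw [abs_mul]
      calc _ ≤ (C * (m' - m)) * (C * (m' - m)) :=
            mul_le_mul l1 l2 (abs_nonneg _) (by positivity)
        _ = _ := by ring
    have s6 := neg_abs_le ((U m' - U m) * (V m' - V m))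
    have w1 := mul_le_mul_of_nonneg_left s1 h0
    have w2 := mul_le_mul_of_nonneg_left s2 h0
    have w3 := mul_le_mul_of_nonneg_left s3 h0
    have w4 := mul_le_mul_of_nonneg_left s4 h0
    have w5 : (f (m + V m) + g (m - V m) - f (m - U m) - g (m + U m)) * (m' - m) ≤ 0 :=
      mul_nonpos_of_nonpos_of_nonneg hκ hα.le
    have e1 : m' - m = s' - s := by rw [hm, hm']; ring
    show Act f g m' (U m') (V m') - Act f g m (U m) (V m) ≤ _
    rw [← e1]
    linarith
  have e1 : r1 + (r - r1) = r := by ring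
  have e2 : r1 + 0 = r1 := by ring
  rw [e1, e2] at hinc
  have := ha _ _ (hUV r)
  have := hb _ _ (hUV r1)
  linarith

end Pool.Agent.X150.TG
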