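import Pool.Agent.X150.TG.Curve

/-! The separating set of chords of the curve formed by two graphs. -/

set_option autoImplicit false
open Complex Set Topology Metric

namespace Pool.Agent.X150.TG

open Pool.Agent.H763R2 Pool.Agent.H763R2.An Pool.Agent.H765R3.Peg Pool.Agent.TH829.Peg
open Pool.Agent.H763R2.Dm (NoSq)

variable {f g : ℝ → ℝ} {Φa Φb : ℝ → ℝ → ℝ} {c1 c2 e1 e2 : ℝ}

theorem dd_half (x : ℝ) : dd (x + 1 / 2) = 1 / 2 - dd x := by
  obtain ⟨n, h1, h2⟩ := exists_rep x
  have e : x = (x - n) + n := by ring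
  have e1 : dd x = |x - n| := by
    conv_lhs => rw [e]
    rw [dd_add_int, dd_abs (abs_le.2 ⟨by linarith, h2.le⟩)]
  have e2 : dd (x + 1 / 2) = dd (x - n + 1 / 2) := by
    rw [show x + 1 / 2 = (x - n + 1 / 2) + n by ring, dd_add_int]
  rw [e1, e2]
  rcases le_total 0 (x - n) with h | h
  · rw [← dd_one_sub, dd_abs, abs_of_nonneg (by linarith), abs_of_nonneg h]
    · ring
    · rw [abs_of_nonneg (by linarith)]; linarith
  · rw [dd_abs, abs_of_nonneg (by linarith), abs_of_nonpos h]
    · ring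
    · rw [abs_of_nonneg (by linarith)]; linarith

/-- the two sign functions -/
noncomputable def tau1 (p : ℝ × ℝ) : ℝ := 2 * (p.2 - p.1) - 4 * dd ((p.1 + p.2) / 2)
noncomputable def tau2 (p : ℝ × ℝ) : ℝ := 2 * (p.2 - p.1) + 4 * dd ((p.1 + p.2) / 2) - 2

noncomputable def G1 (f g : ℝ → ℝ) (Φa Φb : ℝ → ℝ → ℝ) (c1 c2 : ℝ) (p : ℝ × ℝ) : ℝ :=
  GR Φa Φb c1 c2 (tau1 p) (tau2 p) (crv f g p.1).re (crv f g p.2).re
    ((crv f g p.2).im - (crv f g p.1).im)

noncomputable def G2 (f g : ℝ → ℝ) (Φa Φb : ℝ → ℝ → ℝ) (e1 e2 : ℝ) (p : ℝ × ℝ) : ℝ :=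
  GR (fun s t => Φb (1 - s) (1 - t)) (fun s t => Φa (1 - s) (1 - t)) e1 e2 (tau2 p) (tau1 p)
    (1 - (crv f g p.1).re) (1 - (crv f g p.2).re) (-(crv f g p.2).im - -(crv f g p.1).im)

structure Dat (f g : ℝ → ℝ) (Φa Φb : ℝ → ℝ → ℝ) (c1 c2 e1 e2 : ℝ) : Prop where
  T : Two f g
  ca : Continuous fun p : ℝ × ℝ => Φa p.1 p.2
  cb : Continuous fun p : ℝ × ℝ => Φb p.1 p.2
  pa : 0 < Φa 0 0
  pb : 0 < Φb 1 1
  C : Cut f g Φa Φb c1 c2
  C' : Cut (fun x => -g (1 - x)) (fun x => -f (1 - x)) (fun s t => Φb (1 - s) (1 - t))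
    (fun s t => Φa (1 - s) (1 - t)) e1 e2

theorem tau1_cont : Continuous tau1 := by
  have := dd_cont
  unfold tau1; fun_prop
theorem tau2_cont : Continuous tau2 := by
  have := dd_cont
  unfold tau2; fun_prop

theorem GR_cont {X : Type*} [TopologicalSpace X] {k1 k2 : ℝ} {τA τB xA xB q wa wb : X → ℝ}
    (h1 : Continuous τA) (h2 : Continuous τB) (h3 : Continuous xA) (h4 : Continuous xB)
    (h5 : Continuous q) (h6 : Continuous wa) (h7 : Continuous wb) :
    Continuous fun p => max (min (τA p) (τB p)) (max (min (τB p)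
      (max (min (-(q p)) (k2 - xB p)) (wa p))) (min (τA p) (max (min (q p) (xA p - k1)) (wb p)))) := by
  fun_prop

theorem G1_cont (D : Dat f g Φa Φb c1 c2 e1 e2) : Continuous (G1 f g Φa Φb c1 c2) := by
  have h1 := tau1_cont
  have h2 := tau2_cont
  have hc := crv_cont D.T
  have r1 : Continuous fun p : ℝ × ℝ => (crv f g p.1).re := continuous_re.comp (hc.comp continuous_fst)
  have r2 : Continuous fun p : ℝ × ℝ => (crv f g p.2).re := continuous_re.comp (hc.comp continuous_snd)
  have i1 : Continuous fun p : ℝ × ℝ => (crv f g p.1).im := continuous_im.comp (hc.comp continuous_fst)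
  have i2 : Continuous fun p : ℝ × ℝ => (crv f g p.2).im := continuous_im.comp (hc.comp continuous_snd)
  have a : Continuous fun p : ℝ × ℝ => Φa (crv f g p.1).re (crv f g p.2).re :=
    D.ca.comp (r1.prodMk r2)
  have b : Continuous fun p : ℝ × ℝ => Φb (crv f g p.1).re (crv f g p.2).re :=
    D.cb.comp (r1.prodMk r2)
  exact GR_cont h1 h2 r1 r2 (i2.sub i1) a b

theorem G2_cont (D : Dat f g Φa Φb c1 c2 e1 e2) : Continuous (G2 f g Φa Φb e1 e2) := by
  have h1 := tau1_cont
  have h2 := tau2_cont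
  have hc := crv_cont D.T
  have r1 : Continuous fun p : ℝ × ℝ => (crv f g p.1).re := continuous_re.comp (hc.comp continuous_fst)
  have r2 : Continuous fun p : ℝ × ℝ => (crv f g p.2).re := continuous_re.comp (hc.comp continuous_snd)
  have i1 : Continuous fun p : ℝ × ℝ => (crv f g p.1).im := continuous_im.comp (hc.comp continuous_fst)
  have i2 : Continuous fun p : ℝ × ℝ => (crv f g p.2).im := continuous_im.comp (hc.comp continuous_snd)
  have s1 := (continuous_const (y := (1:ℝ))).sub r1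
  have s2 := (continuous_const (y := (1:ℝ))).sub r2
  have a : Continuous fun p : ℝ × ℝ =>
      Φa (1 - (1 - (crv f g p.1).re)) (1 - (1 - (crv f g p.2).re)) :=
    D.ca.comp ((continuous_const.sub s1).prodMk (continuous_const.sub s2))
  have b : Continuous fun p : ℝ × ℝ =>
      Φb (1 - (1 - (crv f g p.1).re)) (1 - (1 - (crv f g p.2).re)) :=
    D.cb.comp ((continuous_const.sub s1).prodMk (continuous_const.sub s2))
  exact GR_cont h2 h1 s1 s2 (i2.neg.sub i1.neg) b a

theorem tau1_int (p : ℝ × ℝ) (n : ℤ) : tau1 (p.1 + n, p.2 + n) = tau1 p := by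
  unfold tau1
  simp only
  rw [show (p.1 + n + (p.2 + n)) / 2 = (p.1 + p.2) / 2 + n by ring, dd_add_int]
  ring
theorem tau2_int (p : ℝ × ℝ) (n : ℤ) : tau2 (p.1 + n, p.2 + n) = tau2 p := by
  unfold tau2
  simp only
  rw [show (p.1 + n + (p.2 + n)) / 2 = (p.1 + p.2) / 2 + n by ring, dd_add_int]
  ring
theorem G1_int (p : ℝ × ℝ) (n : ℤ) :
    G1 f g Φa Φb c1 c2 (p.1 + n, p.2 + n) = G1 f g Φa Φb c1 c2 p := by
  unfold G1
  rw [tau1_int, tau2_int]
  simp only [crv_int]
theorem G2_int (p : ℝ × ℝ) (n : ℤ) :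
    G2 f g Φa Φb e1 e2 (p.1 + n, p.2 + n) = G2 f g Φa Φb e1 e2 p := by
  unfold G2
  rw [tau1_int, tau2_int]
  simp only [crv_int]

theorem GR_pos {τA τB xA xB q : ℝ} (hs : τA + τB = 2) (hA : 0 ≤ τA) (hB : 0 ≤ τB)
    (h1 : τA = 0 → 0 < Φa xA xB) (h2 : τB = 0 → 0 < Φb xA xB) :
    0 < GR Φa Φb c1 c2 τA τB xA xB q := by
  unfold GR
  rcases hA.lt_or_eq with h | h
  · rcases hB.lt_or_eq with h' | h'
    · exact lt_max_of_lt_left (lt_min h h')
    · exact lt_max_of_lt_right (lt_max_of_lt_right (lt_min h (lt_max_of_lt_right (h2 h'.symm))))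
  · have hb : 0 < τB := by linarith
    exact lt_max_of_lt_right (lt_max_of_lt_left (lt_min hb (lt_max_of_lt_right (h1 h.symm))))

theorem GR_neg {τA τB xA xB q : ℝ} (hs : τA + τB = -2) (hA : τA ≤ 0) (hB : τB ≤ 0)
    (h1 : τB = 0 → c2 - xB < 0 ∧ Φa xA xB < 0) (h2 : τA = 0 → xA - c1 < 0 ∧ Φb xA xB < 0) :
    GR Φa Φb c1 c2 τA τB xA xB q < 0 := by
  unfold GR
  refine max_lt ?_ (max_lt ?_ ?_)
  · rcases hA.lt_or_eq with h | h
    · exact min_lt_of_left_lt h
    · exact min_lt_of_right_lt (by linarith)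
  · rcases hB.lt_or_eq with h | h
    · exact min_lt_of_left_lt h
    · exact min_lt_of_right_lt (max_lt (min_lt_of_right_lt (h1 h).1) (h1 h).2)
  · rcases hA.lt_or_eq with h | h
    · exact min_lt_of_left_lt h
    · exact min_lt_of_right_lt (max_lt (min_lt_of_right_lt (h2 h).1) (h2 h).2)

theorem tau_outer (x : ℝ) : tau1 (x, x + 1) = 4 * dd x ∧ tau2 (x, x + 1) = 2 - 4 * dd x := by
  unfold tau1 tau2
  simp only
  rw [show (x + (x + 1)) / 2 = x + 1 / 2 by ring, dd_half]
  constructor <;> ring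

theorem tau_inner (x : ℝ) : tau1 (x, x) = - (4 * dd x) ∧ tau2 (x, x) = 4 * dd x - 2 := by
  unfold tau1 tau2
  simp only
  rw [show (x + x) / 2 = x by ring]
  constructor <;> ring

theorem dd_succ (x : ℝ) : dd (x + 1) = dd x := by
  have := dd_add_int x 1
  simpa using this

theorem outer (D : Dat f g Φa Φb c1 c2 e1 e2) (x : ℝ) :
    0 < G1 f g Φa Φb c1 c2 (x, x + 1) ∧ 0 < G2 f g Φa Φb e1 e2 (x, x + 1) := by
  obtain ⟨t1, t2⟩ := tau_outer x
  have h0 := dd_nonneg x
  have h1 := dd_le_half x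
  unfold G1 G2
  rw [t1, t2]
  simp only [crv_per]
  have hre := crv_re D.T x
  constructor
  · refine GR_pos (by ring) (by linarith) (by linarith) (fun h => ?_) (fun h => ?_)
    · rw [hre, show dd x = 0 by linarith, mul_zero]; exact D.pa
    · rw [hre, show dd x = 1 / 2 by linarith, show (2:ℝ) * (1 / 2) = 1 by norm_num]; exact D.pb
  · refine GR_pos (by ring) (by linarith) (by linarith) (fun h => ?_) (fun h => ?_)
    · simp only [sub_sub_cancel]
      rw [hre, show dd x = 1 / 2 by linarith, show (2:ℝ) * (1 / 2) = 1 by norm_num]; exact D.pb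
    · simp only [sub_sub_cancel]
      rw [hre, show dd x = 0 by linarith, mul_zero]; exact D.pa

theorem inner (D : Dat f g Φa Φb c1 c2 e1 e2) (x : ℝ) :
    G1 f g Φa Φb c1 c2 (x, x) < 0 ∧ G2 f g Φa Φb e1 e2 (x, x) < 0 := by
  obtain ⟨t1, t2⟩ := tau_inner x
  have h0 := dd_nonneg x
  have h1 := dd_le_half x
  unfold G1 G2
  rw [t1, t2]
  simp only
  have hre := crv_re D.T x
  constructor
  · refine GR_neg (by ring) (by linarith) (by linarith) (fun h => ?_) (fun h => ?_)
    · rw [hre, show dd x = 1 / 2 by linarith, show (2:ℝ) * (1 / 2) = 1 by norm_num]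
      exact ⟨by linarith [D.C.c2l], D.C.a2 1 1 zero_le_one le_rfl D.C.c2l.le le_rfl⟩
    · rw [hre, show dd x = 0 by linarith, mul_zero]
      exact ⟨by linarith [D.C.c1p], D.C.b1 0 0 le_rfl D.C.c1p.le le_rfl zero_le_one⟩
  · refine GR_neg (by ring) (by linarith) (by linarith) (fun h => ?_) (fun h => ?_)
    · rw [hre, show dd x = 0 by linarith, mul_zero]
      have := D.C'.a2 1 1 zero_le_one le_rfl D.C'.c2l.le le_rfl
      refine ⟨by linarith [D.C'.c2l], ?_⟩
      simpa using this
    · rw [hre, show dd x = 1 / 2 by linarith, show (2:ℝ) * (1 / 2) = 1 by norm_num]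
      have := D.C'.b1 0 0 le_rfl D.C'.c1p.le le_rfl zero_le_one
      refine ⟨by linarith [D.C'.c1p], ?_⟩
      simpa using this

/-- positions of the points, first kind -/
theorem factsR (T : Two f g) {x y : ℝ} (h0 : 0 ≤ x + y) (h1 : x + y ≤ 1) (hx : x < y)
    (hy : y < x + 1) :
    tau1 (x, y) = -4 * x ∧ tau2 (x, y) = 4 * y - 2 ∧
    (x < 0 → (crv f g x).im = f (crv f g x).re) ∧ (0 ≤ x → (crv f g x).im = g (crv f g x).re) ∧
    (1 / 2 < y → (crv f g y).im = f (crv f g y).re) ∧
    (y ≤ 1 / 2 → (crv f g y).im = g (crv f g y).re) ∧ (crv f g x).re = 2 * |x| ∧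
    (y = 1 / 2 → (crv f g y).re = 1) := by
  have e : dd ((x + y) / 2) = (x + y) / 2 := by
    rw [dd_abs (by rw [abs_of_nonneg (by linarith)]; linarith), abs_of_nonneg (by linarith)]
  have ex := crv_gam T (t := x) (by linarith) (by linarith)
  refine ⟨by unfold tau1; simp only; rw [e]; ring, by unfold tau2; simp only; rw [e]; ring,
    ?_, ?_, ?_, ?_, ?_, ?_⟩
  · intro h
    rw [ex]; unfold gam; simp only; rw [if_pos h.le]
  · intro h
    rw [ex]; unfold gam; simp only
    rcases h.lt_or_eq with h' | h'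
    · rw [if_neg (by push Not; exact h')]
    · rw [← h']; simp [T.e0]
  · intro h
    have e2 : crv f g y = gam f g (y - 1) := by
      rw [← crv_gam T (by linarith) (by linarith), ← crv_per (y - 1)]; ring_nf
    rw [e2]; unfold gam; simp only; rw [if_pos (by linarith)]
  · intro h
    have e2 : crv f g y = gam f g y := crv_gam T (by linarith) h
    rw [e2]; unfold gam; simp only; rw [if_neg (by push Not; linarith)]
  · rw [ex]; rfl
  · intro h
    have e2 : crv f g y = gam f g y := crv_gam T (by linarith) h.le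
    rw [e2]; unfold gam; simp only; rw [h, abs_of_pos (by norm_num)]; norm_num

/-- positions of the points, second kind -/
theorem factsL (T : Two f g) {x y : ℝ} (h0 : 1 ≤ x + y) (h1 : x + y ≤ 2) (hx : x < y)
    (hy : y < x + 1) :
    tau1 (x, y) = 4 * y - 4 ∧ tau2 (x, y) = 2 - 4 * x ∧
    (x < 1 / 2 → (crv f g x).im = g (crv f g x).re) ∧
    (1 / 2 ≤ x → (crv f g x).im = f (crv f g x).re) ∧
    (1 < y → (crv f g y).im = g (crv f g y).re) ∧ (y ≤ 1 → (crv f g y).im = f (crv f g y).re) ∧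
    (x = 1 / 2 → (crv f g x).re = 1) ∧ (y = 1 → (crv f g y).re = 0) := by
  have e : dd ((x + y) / 2) = 1 - (x + y) / 2 := by
    rw [← dd_one_sub, dd_abs (by rw [abs_of_nonneg (by linarith)]; linarith),
      abs_of_nonneg (by linarith)]
  have ey : crv f g y = gam f g (y - 1) := by
    rw [← crv_gam T (by linarith) (by linarith), ← crv_per (y - 1)]; ring_nf
  refine ⟨by unfold tau1; simp only; rw [e]; ring, by unfold tau2; simp only; rw [e]; ring,
    ?_, ?_, ?_, ?_, ?_, ?_⟩
  · intro h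
    have e2 : crv f g x = gam f g x := crv_gam T (by linarith) h.le
    rw [e2]; unfold gam; simp only; rw [if_neg (by push Not; linarith)]
  · intro h
    have e2 : crv f g x = gam f g (x - 1) := by
      rw [← crv_gam T (by linarith) (by linarith), ← crv_per (x - 1)]; ring_nf
    rw [e2]; unfold gam; simp only; rw [if_pos (by linarith)]
  · intro h
    rw [ey]; unfold gam; simp only; rw [if_neg (by push Not; linarith)]
  · intro h
    rw [ey]; unfold gam; simp only; rw [if_pos (by linarith)]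
  · intro h
    have e2 : crv f g x = gam f g x := crv_gam T (by linarith) h.le
    rw [e2]; unfold gam; simp only; rw [h, abs_of_pos (by norm_num)]; norm_num
  · intro h
    rw [ey, h]; unfold gam; simp

/-- both vertices inside -/
def Both (f g : ℝ → ℝ) (a b : ℂ) : Prop :=
  Ins f g (a.re - (b.im - a.im)) (a.im + (b.re - a.re)) ∧
  Ins f g (b.re - (b.im - a.im)) (b.im + (b.re - a.re))

theorem ins_rot {x y : ℝ} (h : Ins f g x y) :
    Ins (fun x => -g (1 - x)) (fun x => -f (1 - x)) (1 - x) (-y) := by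
  obtain ⟨a, b, c, d⟩ := h
  refine ⟨by linarith, by linarith, ?_, ?_⟩ <;> simp only [sub_sub_cancel] <;> linarith

theorem dd_ltR {x y : ℝ} (h0 : 0 < x + y) (h1 : x + y < 1) (hx : x < y)
    (hy : y < x + 1) : dd x < dd y := by
  rw [dd_abs (z := x) (abs_le.2 ⟨by linarith, by linarith⟩)]
  have hy' : dd y = min y (1 - y) := by
    rcases le_total y (1 / 2) with h | h
    · rw [dd_abs (abs_le.2 ⟨by linarith, h⟩), abs_of_pos (by linarith), min_eq_left (by linarith)]
    · rw [← dd_one_sub, dd_abs (abs_le.2 ⟨by linarith, by linarith⟩), abs_of_pos (by linarith),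
        min_eq_right (by linarith)]
  rw [hy', lt_min_iff, abs_lt, abs_lt]
  refine ⟨⟨by linarith, by linarith⟩, by linarith, by linarith⟩

theorem dd_ltL {x y : ℝ} (h0 : 1 < x + y) (h1 : x + y < 2) (hx : x < y)
    (hy : y < x + 1) : dd y < dd x := by
  have e : dd y = dd (y - 1) := by
    have := dd_succ (y - 1)
    rw [← this]; ring_nf
  rw [e]
  have h2 := dd_ltR (x := y - 1) (y := x) (by linarith) (by linarith) (by linarith) (by linarith)
  exact h2

theorem zero1 (D : Dat f g Φa Φb c1 c2 e1 e2) {x y : ℝ} (hx : x < y) (hy : y < x + 1)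
    (hd : dd x ≤ dd y) (h : G1 f g Φa Φb c1 c2 (x, y) = 0) :
    ¬ Both f g (crv f g x) (crv f g y) := by
  -- reduction to the basic period
  wlog hr : 0 ≤ x + y ∧ x + y < 2 generalizing x y with Hw
  · set n := ⌊(x + y) / 2⌋ with hn
    have b1 := Int.floor_le ((x + y) / 2)
    have b2 := Int.lt_floor_add_one ((x + y) / 2)
    rw [← hn] at b1 b2
    have ez : ∀ z : ℝ, z = (z - n) + n := fun z => by ring
    have := Hw (x := x - n) (y := y - n) (by linarith) (by linarith)
      (by rw [ez x, ez y, dd_add_int, dd_add_int] at hd; exact hd)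
      (by
        have h2 := G1_int (f := f) (g := g) (Φa := Φa) (Φb := Φb) (c1 := c1) (c2 := c2)
          (x - n, y - n) n
        simp only [sub_add_cancel] at h2
        rw [← h2]; exact h)
      ⟨by linarith, by linarith⟩
    have ex : crv f g x = crv f g (x - n) := by rw [← crv_int (x - n) n]; ring_nf
    have ey : crv f g y = crv f g (y - n) := by rw [← crv_int (y - n) n]; ring_nf
    rw [ex, ey]; exact this
  obtain ⟨h0, h2⟩ := hr
  have h1 : x + y ≤ 1 := by
    by_contra hcon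
    push Not at hcon
    have := dd_ltL hcon h2 hx hy
    linarith
  obtain ⟨t1, t2, a1, a2, b1, b2, r1, r2⟩ := factsR D.T h0 h1 hx hy
  obtain ⟨m1, m2, -⟩ := crv_mem D.T x
  obtain ⟨m3, m4, -⟩ := crv_mem D.T y
  unfold G1 at h
  rw [t1, t2] at h
  exact zeroR D.C m1 (by rw [crv_re D.T, crv_re D.T]; linarith) m4
    (fun h' => a1 (by linarith)) (fun h' => a2 (by linarith))
    (fun h' => by rw [r1, show x = 0 by linarith]; simp)
    (fun h' => b1 (by linarith)) (fun h' => b2 (by linarith)) (fun h' => r2 (by linarith)) h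

theorem zero2 (D : Dat f g Φa Φb c1 c2 e1 e2) {x y : ℝ} (hx : x < y) (hy : y < x + 1)
    (hd : dd y ≤ dd x) (h : G2 f g Φa Φb e1 e2 (x, y) = 0) :
    ¬ Both f g (crv f g x) (crv f g y) := by
  wlog hr : 0 < x + y ∧ x + y ≤ 2 generalizing x y with Hw
  · set n := ⌈(x + y) / 2⌉ - 1 with hn
    have b1 := Int.le_ceil ((x + y) / 2)
    have b2 := Int.ceil_lt_add_one ((x + y) / 2)
    have e0 : ((n : ℤ) : ℝ) = ⌈(x + y) / 2⌉ - 1 := by rw [hn]; push_cast; ring
    have ez : ∀ z : ℝ, z = (z - n) + n := fun z => by ring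
    have := Hw (x := x - n) (y := y - n) (by linarith) (by linarith)
      (by rw [ez x, ez y, dd_add_int, dd_add_int] at hd; exact hd)
      (by
        have h2 := G2_int (f := f) (g := g) (Φa := Φa) (Φb := Φb) (e1 := e1) (e2 := e2)
          (x - n, y - n) n
        simp only [sub_add_cancel] at h2
        rw [← h2]; exact h)
      ⟨by linarith, by linarith⟩
    have ex : crv f g x = crv f g (x - n) := by rw [← crv_int (x - n) n]; ring_nf
    have ey : crv f g y = crv f g (y - n) := by rw [← crv_int (y - n) n]; ring_nf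
    rw [ex, ey]; exact this
  obtain ⟨h0, h2⟩ := hr
  have h1 : 1 ≤ x + y := by
    by_contra hcon
    push Not at hcon
    have := dd_ltR h0 hcon hx hy
    linarith
  obtain ⟨t1, t2, a1, a2, b1, b2, r1, r2⟩ := factsL D.T h1 h2 hx hy
  obtain ⟨m1, m2, -⟩ := crv_mem D.T x
  obtain ⟨m3, m4, -⟩ := crv_mem D.T y
  unfold G2 at h
  rw [t1, t2] at h
  rintro ⟨hD, hE⟩
  have := zeroR D.C' (xA := 1 - (crv f g x).re) (xB := 1 - (crv f g y).re)
    (yA := -(crv f g x).im) (yB := -(crv f g y).im) (by linarith)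
    (by rw [crv_re D.T, crv_re D.T]; linarith) (by linarith)
    (fun h' => by simp only [sub_sub_cancel]; rw [a1 (by linarith)])
    (fun h' => by simp only [sub_sub_cancel]; rw [a2 (by linarith)])
    (fun h' => by rw [r1 (by linarith)]; ring)
    (fun h' => by simp only [sub_sub_cancel]; rw [b1 (by linarith)])
    (fun h' => by simp only [sub_sub_cancel]; rw [b2 (by linarith)])
    (fun h' => by rw [r2 (by linarith)]; ring) h
  apply this
  have k1 := ins_rot hD
  have k2 := ins_rot hE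
  constructor
  · convert k1 using 1 <;> ring
  · convert k2 using 1 <;> ring

end Pool.Agent.X150.TG
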