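import Pool.Agent.X150.TG.Lip

/-! Lipschitz ends with a constant less than one: a variational argument with the abscissa of the
centre as parameter. -/

set_option autoImplicit false

namespace Pool.Agent.X150.TG

variable {f g : ℝ → ℝ} {L : ℝ}

/-- critical points of the action for a fixed abscissa of the centre -/
def Crit (f g : ℝ → ℝ) (m u v : ℝ) : Prop :=
  2 * v = f (m - u) - g (m + u) ∧ 2 * u = f (m + v) - g (m - v)

theorem exists_crit (Sf : Slope f (-L) L) (Sg : Slope g (-L) L) (h0 : 0 ≤ L) (h1 : L < 1) (m : ℝ) :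
    ∃ u v, Crit f g m u v := by
  have hm : -L ≤ L := by linarith
  have cf := Sf.cont
  have cg := Sg.cont
  set V : ℝ → ℝ := fun u => (f (m - u) - g (m + u)) / 2 with hV
  set W : ℝ → ℝ := fun u => u - (f (m + V u) - g (m - V u)) / 2 with hW
  have cW : Continuous W := by rw [hW]; simp only [hV]; fun_prop
  have incr : ∀ u u', u ≤ u' → (1 - L ^ 2) * (u' - u) ≤ W u' - W u := by
    intro u u' hu
    obtain ⟨e, b1, b2, ee⟩ := Sf.ex hm (m - u) (m - u')
    obtain ⟨a, a1, a2, ea⟩ := Sg.ex hm (m + u) (m + u')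
    obtain ⟨b, b3, b4, eb⟩ := Sf.ex hm (m + V u) (m + V u')
    obtain ⟨d, d1, d2, ed⟩ := Sg.ex hm (m - V u) (m - V u')
    have e1 : V u' - V u = -(e + a) / 2 * (u' - u) := by
      simp only [hV]
      linear_combination (ee - ea) / 2
    have e2 : W u' - W u = (u' - u) - (b + d) / 2 * (V u' - V u) := by
      have : W u' - W u = (u' - u) - ((f (m + V u') - f (m + V u)) -
        (g (m - V u') - g (m - V u))) / 2 := by simp only [hW]; ring
      rw [this, eb, ed]; ring
    have e3 : W u' - W u = (1 + (b + d) * (e + a) / 4) * (u' - u) := by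
      rw [e2, e1]; ring
    rw [e3]
    apply mul_le_mul_of_nonneg_right _ (by linarith)
    have h2 : |(b + d) / 2| ≤ L := by rw [abs_le]; constructor <;> linarith
    have h3 : |(e + a) / 2| ≤ L := by rw [abs_le]; constructor <;> linarith
    have h4 : |(b + d) / 2 * ((e + a) / 2)| ≤ L * L := by
      rw [abs_mul]; exact mul_le_mul h2 h3 (abs_nonneg _) h0
    have h5 := neg_abs_le ((b + d) / 2 * ((e + a) / 2))
    nlinarith
  have k0 : 0 < 1 - L ^ 2 := by nlinarith
  set R := |W 0| / (1 - L ^ 2) with hR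
  have R0 : 0 ≤ R := by positivity
  have hRκ : (1 - L ^ 2) * R = |W 0| := by rw [hR]; field_simp
  have g1 := incr 0 R R0
  have g2 := incr (-R) 0 (by linarith)
  have a1 := le_abs_self (W 0)
  have a2 := neg_abs_le (W 0)
  obtain ⟨u, -, hu⟩ := intermediate_value_Icc (show -R ≤ R by linarith) cW.continuousOn
    (show (0:ℝ) ∈ Set.Icc (W (-R)) (W R) from ⟨by nlinarith, by nlinarith⟩)
  refine ⟨u, V u, ?_, ?_⟩
  · simp only [hV]; ring
  · simp only [hW] at hu; linarith

theorem crit_lip (Sf : Slope f (-L) L) (Sg : Slope g (-L) L) (h0 : 0 ≤ L) (h1 : L < 1)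
    {m u v m' u' v' : ℝ} (h : Crit f g m u v) (h' : Crit f g m' u' v') :
    |u' - u| ≤ L / (1 - L) * |m' - m| ∧ |v' - v| ≤ L / (1 - L) * |m' - m| := by
  have hm : -L ≤ L := by linarith
  obtain ⟨e, b1, b2, ee⟩ := Sf.ex hm (m - u) (m' - u')
  obtain ⟨a, a1, a2, ea⟩ := Sg.ex hm (m + u) (m' + u')
  obtain ⟨b, b3, b4, eb⟩ := Sf.ex hm (m + v) (m' + v')
  obtain ⟨d, d1, d2, ed⟩ := Sg.ex hm (m - v) (m' - v')
  obtain ⟨p1, p2⟩ := h
  obtain ⟨q1, q2⟩ := h'
  set μ := |m' - m| with hμ
  set X := |u' - u| with hX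
  set Y := |v' - v| with hY
  have absL : ∀ z, -L ≤ z → z ≤ L → |z| ≤ L := fun z k1 k2 => abs_le.2 ⟨k1, k2⟩
  have t1 : Y ≤ L * (μ + X) := by
    have e1 : v' - v = (e * ((m' - m) - (u' - u)) - a * ((m' - m) + (u' - u))) / 2 := by
      linear_combination (q1 - p1 + ee - ea) / 2
    rw [hY, e1, abs_div, abs_two]
    have k1 : |e * ((m' - m) - (u' - u))| ≤ L * (μ + X) := by
      rw [abs_mul]
      exact mul_le_mul (absL e b1 b2) (abs_sub _ _) (abs_nonneg _) h0
    have k2 : |a * ((m' - m) + (u' - u))| ≤ L * (μ + X) := by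
      rw [abs_mul]
      exact mul_le_mul (absL a a1 a2) (abs_add_le _ _) (abs_nonneg _) h0
    have k3 := abs_sub (e * ((m' - m) - (u' - u))) (a * ((m' - m) + (u' - u)))
    linarith
  have t2 : X ≤ L * (μ + Y) := by
    have e1 : u' - u = (b * ((m' - m) + (v' - v)) - d * ((m' - m) - (v' - v))) / 2 := by
      linear_combination (q2 - p2 + eb - ed) / 2
    rw [hX, e1, abs_div, abs_two]
    have k1 : |b * ((m' - m) + (v' - v))| ≤ L * (μ + Y) := by
      rw [abs_mul]
      exact mul_le_mul (absL b b3 b4) (abs_add_le _ _) (abs_nonneg _) h0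
    have k2 : |d * ((m' - m) - (v' - v))| ≤ L * (μ + Y) := by
      rw [abs_mul]
      exact mul_le_mul (absL d d1 d2) (abs_sub _ _) (abs_nonneg _) h0
    have k3 := abs_sub (b * ((m' - m) + (v' - v))) (d * ((m' - m) - (v' - v)))
    linarith
  have hL1 : 0 < 1 - L := by linarith
  have X0 : 0 ≤ X := abs_nonneg _
  have Y0 : 0 ≤ Y := abs_nonneg _
  have μ0 : 0 ≤ μ := abs_nonneg _
  have fin : ∀ P Q : ℝ, 0 ≤ P → 0 ≤ Q → P ≤ L * (μ + Q) → Q ≤ L * (μ + P) →
      P ≤ L / (1 - L) * μ := by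
    intro P Q P0 Q0 hP hQ
    rw [div_mul_eq_mul_div, le_div_iff₀ hL1]
    have h3 : P ≤ L * (μ + L * (μ + P)) := hP.trans (mul_le_mul_of_nonneg_left (by linarith) h0)
    have h4 : (1 + L) * (P * (1 - L)) ≤ (1 + L) * (L * μ) := by nlinarith
    exact le_of_mul_le_mul_left h4 (by linarith)
  exact ⟨fin X Y X0 Y0 t2 t1, fin Y X Y0 X0 t1 t2⟩

/-- the action -/
noncomputable def Act (f g : ℝ → ℝ) (m u v : ℝ) : ℝ :=
  Pr f (m + v) + Pr g (m - v) - Pr f (m - u) - Pr g (m + u) - 2 * (u * v)

theorem act_step (Sf : Slope f (-L) L) (Sg : Slope g (-L) L) {m u v m' u' v' : ℝ}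
    (h : Crit f g m u v) : Act f g m' u' v' - Act f g m u v ≤
      (f (m + v) + g (m - v) - f (m - u) - g (m + u)) * (m' - m) +
      L * ((m' - m) + (v' - v)) ^ 2 + L * ((m' - m) - (v' - v)) ^ 2 +
      L * ((m' - m) - (u' - u)) ^ 2 + L * ((m' - m) + (u' - u)) ^ 2 -
      2 * ((u' - u) * (v' - v)) := by
  have b1 := (abs_le.1 (Pr_err Sf le_rfl le_rfl (m + v) (m' + v'))).2
  have b2 := (abs_le.1 (Pr_err Sg le_rfl le_rfl (m - v) (m' - v'))).2
  have b3 := (abs_le.1 (Pr_err Sf le_rfl le_rfl (m - u) (m' - u'))).1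
  have b4 := (abs_le.1 (Pr_err Sg le_rfl le_rfl (m + u) (m' + u'))).1
  obtain ⟨p1, p2⟩ := h
  have e1 : g (m + u) = f (m - u) - 2 * v := by linarith
  have e2 : g (m - v) = f (m + v) - 2 * u := by linarith
  unfold Act
  rw [e1] at b4 ⊢
  rw [e2] at b2 ⊢
  have r1 : (m' + v') - (m + v) = (m' - m) + (v' - v) := by ring
  have r2 : (m' - v') - (m - v) = (m' - m) - (v' - v) := by ring
  have r3 : (m' - u') - (m - u) = (m' - m) - (u' - u) := by ring
  have r4 : (m' + u') - (m + u) = (m' - m) + (u' - u) := by ring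
  rw [r1] at b1
  rw [r2] at b2
  rw [r3] at b3
  rw [r4] at b4
  linarith

theorem crit_pos (Sf : Slope f (-L) L) (Sg : Slope g (-L) L) (h0 : 0 ≤ L) (h1 : L < 1)
    (hle : ∀ x, g x ≤ f x) {m u v : ℝ} (hm : g m < f m) (h : Crit f g m u v) : 0 < u + v := by
  have hL : -L ≤ L := by linarith
  obtain ⟨p1, p2⟩ := h
  obtain ⟨c, c1, c2, ec⟩ := Sg.ex hL (m - v) (m - u)
  obtain ⟨c', c3, c4, ec'⟩ := Sg.ex hL (m + u) (m + v)
  obtain ⟨b, b1, b2, eb⟩ := Sf.ex hL (m - u) (m + v)
  obtain ⟨a, a1, a2, ea⟩ := Sg.ex hL (m - v) (m + u)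
  have k1 := hle (m - u)
  have k2 := hle (m + v)
  -- q and p
  have eq : 2 * (u + v) = (f (m - u) - g (m - u)) + (f (m + v) - g (m + v)) +
      (c + c') * (v - u) := by linear_combination p1 + p2 + ec + ec'
  have ep : 2 * (v - u) = -(b + a) * (u + v) := by
    linear_combination p1 - p2 - eb - ea
  by_contra hcon
  push Not at hcon
  set q := u + v with hq
  have hp : |v - u| ≤ L * |q| := by
    have : v - u = -(b + a) / 2 * q := by linarith
    rw [this, abs_mul]
    refine mul_le_mul_of_nonneg_right ?_ (abs_nonneg _)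
    rw [abs_le]; constructor <;> linarith
  have hcc : |(c + c') * (v - u)| ≤ 2 * L * (L * |q|) := by
    rw [abs_mul]
    refine mul_le_mul ?_ hp (abs_nonneg _) (by linarith)
    rw [abs_le]; constructor <;> linarith
  have hn := neg_abs_le ((c + c') * (v - u))
  rw [abs_of_nonpos hcon] at hcc hp
  have hq0 : q = 0 := by
    by_contra hne
    have hlt : q < 0 := lt_of_le_of_ne hcon hne
    have w1 : -(2 * L * (L * -q)) ≤ 2 * q := by linarith
    have w2 : 0 < (1 - L * L) * (-q) := mul_pos (by nlinarith) (by linarith)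
    linarith
  rw [hq0] at hp
  have hvu : v - u = 0 := by
    have : |v - u| ≤ 0 := by simpa using hp
    exact abs_nonpos_iff.1 this
  have hu : u = 0 := by linarith
  have hv : v = 0 := by linarith
  rw [hu, hv] at p1
  simp at p1
  linarith

theorem act_pos (Sf : Slope f (-L) L) (Sg : Slope g (-L) L) (h1 : L < 1)
    {m u v : ℝ} (h : Crit f g m u v) (hq : 0 < u + v) : 0 < Act f g m u v := by
  have b1 := (Pr_trap Sf (show m - u ≤ m + v by linarith)).1
  have b2 := (Pr_trap Sg (show m - v ≤ m + u by linarith)).2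
  obtain ⟨p1, p2⟩ := h
  have e1 : g (m + u) = f (m - u) - 2 * v := by linarith
  have e2 : g (m - v) = f (m + v) - 2 * u := by linarith
  unfold Act
  rw [e1, e2] at b2
  have r1 : m + v - (m - u) = u + v := by ring
  have r2 : m + u - (m - v) = u + v := by ring
  rw [r1] at b1
  rw [r2] at b2
  nlinarith [sq_nonneg (u - v), mul_pos (mul_pos hq hq) (sub_pos.2 h1)]

/-- near the end there is a critical point at which the action increases -/
theorem exists_good (Sf : Slope f (-L) L) (Sg : Slope g (-L) L) (h0 : 0 ≤ L) (h1 : L < 1)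
    (hle : ∀ x, g x ≤ f x) (he : f 0 = g 0) (hlt : ∀ x, 0 < x → g x < f x) {r : ℝ} (hr : 0 < r) :
    ∃ m u v, 0 < m ∧ m < r ∧ Crit f g m u v ∧
      0 < f (m + v) + g (m - v) - f (m - u) - g (m + u) := by
  by_contra hcon
  push Not at hcon
  choose U V hUV using exists_crit Sf Sg h0 h1
  have c0 : Crit f g 0 0 0 := by unfold Crit; simp [he]
  have z := crit_lip Sf Sg h0 h1 c0 (hUV 0)
  simp only [sub_zero, sub_self, abs_zero, mul_zero, abs_nonpos_iff] at z
  obtain ⟨U0, V0⟩ := z
  set C := L / (1 - L) with hC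
  have hL1 : 0 < 1 - L := by linarith
  have C0 : 0 ≤ C := by positivity
  have hb : 0 < r / 2 := by linarith
  have hinc : Act f g (r / 2) (U (r / 2)) (V (r / 2)) ≤ Act f g 0 (U 0) (V 0) := by
    refine no_incr (lam := fun m => Act f g m (U m) (V m))
      (K := 4 * L * (1 + C) ^ 2 + 2 * C ^ 2) hb ?_
    intro m m' hm hmm hm'
    have hst := act_step Sf Sg (m' := m') (u' := U m') (v' := V m') (hUV m)
    obtain ⟨l1, l2⟩ := crit_lip Sf Sg h0 h1 (hUV m) (hUV m')
    have hα : 0 < m' - m := by linarith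
    rw [abs_of_pos hα] at l1 l2
    rw [← hC] at l1 l2
    have hκ : f (m + V m) + g (m - V m) - f (m - U m) - g (m + U m) ≤ 0 := by
      rcases hm.lt_or_eq with h | h
      · exact hcon m (U m) (V m) h (by linarith) (hUV m)
      · rw [← h, U0, V0]; simp [he]
    have sqb : ∀ X : ℝ, |X| ≤ C * (m' - m) → ((m' - m) + X) ^ 2 ≤ (1 + C) ^ 2 * (m' - m) ^ 2 ∧
        ((m' - m) - X) ^ 2 ≤ (1 + C) ^ 2 * (m' - m) ^ 2 := by
      intro X hX
      rw [← mul_pow]
      constructor
      · rw [← sq_abs]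
        refine pow_le_pow_left₀ (abs_nonneg _) ?_ 2
        have := abs_add_le (m' - m) X
        rw [abs_of_pos hα] at this
        linarith
      · rw [← sq_abs]
        refine pow_le_pow_left₀ (abs_nonneg _) ?_ 2
        have := abs_sub (m' - m) X
        rw [abs_of_pos hα] at this
        linarith
    obtain ⟨s1, s2⟩ := sqb _ l1
    obtain ⟨s3, s4⟩ := sqb _ l2
    have s5 : |(U m' - U m) * (V m' - V m)| ≤ C ^ 2 * (m' - m) ^ 2 := by
      rw [abs_mul]
      calc _ ≤ (C * (m' - m)) * (C * (m' - m)) :=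
            mul_le_mul l1 l2 (abs_nonneg _) (by positivity)
        _ = _ := by ring
    have s6 := neg_abs_le ((U m' - U m) * (V m' - V m))
    have w1 := mul_le_mul_of_nonneg_left s1 h0
    have w2 := mul_le_mul_of_nonneg_left s2 h0
    have w3 := mul_le_mul_of_nonneg_left s3 h0
    have w4 := mul_le_mul_of_nonneg_left s4 h0
    have w5 : (f (m + V m) + g (m - V m) - f (m - U m) - g (m + U m)) * (m' - m) ≤ 0 :=
      mul_nonpos_of_nonpos_of_nonneg hκ hα.le
    show Act f g m' (U m') (V m') - Act f g m (U m) (V m) ≤ _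
    linarith
  have hz : Act f g 0 (U 0) (V 0) = 0 := by
    rw [U0, V0]; unfold Act; simp
  have hp := act_pos Sf Sg h1 (hUV (r / 2))
    (crit_pos Sf Sg h0 h1 hle (hlt _ hb) (hUV (r / 2)))
  linarith

theorem no_case {L a b d e x y : ℝ} (h1 : L < 1) (e1 : -L ≤ e) (e2 : e ≤ L) (a1 : -L ≤ a)
    (a2 : a ≤ L) (b1 : -L ≤ b) (b2 : b ≤ L) (d1 : -L ≤ d) (d2 : d ≤ L)
    (Uc : 0 < -(a + e) * x - 2 * y) (Vc : 0 < (b + d) * y - 2 * x)
    (Kc : 0 < (1 + a) * x + (1 - b) * y) : False := by
  rcases le_total 0 x with hx0 | hx0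
  · rcases le_total 0 y with hy0 | hy0
    · have w1 := mul_nonneg hx0 (show 0 ≤ 2 + a + e by linarith)
      have w2 := mul_nonneg hy0 (show 0 ≤ 2 - b - d by linarith)
      linarith
    · have w1 := mul_nonneg hx0 (show 0 ≤ 1 - a by linarith)
      have h3 : (1 - b) * (-y) < 2 * x := by linarith
      have h4 : 2 * x < -(b + d) * (-y) := by linarith
      have h5 : (1 + d) * (-y) < 0 := by linarith
      have h6 : 0 ≤ (1 + d) * (-y) := mul_nonneg (by linarith) (by linarith)
      linarith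
  · rcases le_total 0 y with hy0 | hy0
    · have w1 := mul_nonneg hy0 (show 0 ≤ 1 + b by linarith)
      have h3 : (1 + a) * (-x) < 2 * y := by linarith
      have h4 : 2 * y < (a + e) * (-x) := by linarith
      have h5 : (1 - e) * (-x) < 0 := by linarith
      have h6 : 0 ≤ (1 - e) * (-x) := mul_nonneg (by linarith) (by linarith)
      linarith
    · have w1 := mul_nonneg (show 0 ≤ -x by linarith) (show 0 ≤ 1 + a by linarith)
      have w2 := mul_nonneg (show 0 ≤ -y by linarith) (show 0 ≤ 1 - b by linarith)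
      linarith

/-- chords with the abscissa of the centre at a good critical point -/
theorem good_not_both (Sf : Slope f (-L) L) (Sg : Slope g (-L) L) (h0 : 0 ≤ L) (h1 : L < 1)
    {m u v : ℝ} (h : Crit f g m u v) (hκ : 0 < f (m + v) + g (m - v) - f (m - u) - g (m + u))
    {s t : ℝ} (hc : s + t - (f t - g s) = 2 * m)
    (hD : g (s - (f t - g s)) < g s + (t - s)) (hE : f t + (t - s) < f (t - (f t - g s))) :
    False := by
  have hL : -L ≤ L := by linarith
  obtain ⟨p1, p2⟩ := h
  set u' := (s - (t - (f t - g s))) / 2 with hu'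
  set v' := (t - (s - (f t - g s))) / 2 with hv'
  have xA : s = m + u' := by rw [hu']; linarith
  have xE : t - (f t - g s) = m - u' := by rw [hu']; linarith
  have xB : t = m + v' := by rw [hv']; linarith
  have xD : s - (f t - g s) = m - v' := by rw [hv']; linarith
  have eq : f t - g s = u' + v' := by rw [hu', hv']; ring
  rw [xD] at hD
  rw [xE] at hE
  obtain ⟨e, b1, b2, ee⟩ := Sf.ex hL (m - u) (m - u')
  obtain ⟨a, a1, a2, ea⟩ := Sg.ex hL (m + u) (m + u')
  obtain ⟨b, b3, b4, eb⟩ := Sf.ex hL (m + v) (m + v')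
  obtain ⟨d, d1, d2, ed⟩ := Sg.ex hL (m - v) (m - v')
  have ft : f t = f (m + v') := by rw [← xB]
  have gs : g s = g (m + u') := by rw [← xA]
  set x := u' - u with hx
  set y := v' - v with hy
  have hts : t - s = v' - u' := by linarith
  have Uc : 0 < -(a + e) * x - 2 * y := by
    have h3 : 0 < f (m - u') - f t - (t - s) := by linarith
    have h4 : f (m - u') - f t - (t - s) = -(a + e) * x - 2 * y := by
      have h5 : f t = g s + (u' + v') := by linarith
      rw [h5, gs, hts]
      linear_combination ee - ea - p1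
    linarith
  have Vc : 0 < (b + d) * y - 2 * x := by
    have h3 : 0 < g s + (t - s) - g (m - v') := by linarith
    have h4 : g s + (t - s) - g (m - v') = (b + d) * y - 2 * x := by
      have h5 : g s = f t - (u' + v') := by linarith
      rw [h5, ft, hts]
      linear_combination eb - ed - p2
    linarith
  have Kc : 0 < (1 + a) * x + (1 - b) * y := by
    have h5 : f (m + v') - g (m + u') = u' + v' := by rw [← ft, ← gs]; exact eq
    have h6 : (1 + a) * x + (1 - b) * y = f (m + v) - g (m + u) - (u + v) := by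
      linear_combination eb - ea - h5
    have h7 : f (m + v) + g (m - v) - f (m - u) - g (m + u) =
        2 * (f (m + v) - g (m + u) - (u + v)) := by linear_combination p1 + p2
    linarith
  exact no_case h1 b1 b2 a1 a2 b3 b4 d1 d2 Uc Vc Kc

end Pool.Agent.X150.TG
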