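import Pool.Agent.X150.TG.Ends

/-! Ends with records and ends with corners. -/

set_option autoImplicit false
open Set Topology Filter

namespace Pool.Agent.X150.TG

variable {f g : ℝ → ℝ}

/-- records of both functions, with no obstruction between them -/
theorem tip_rec {c c' : ℝ} (c0 : 0 < c) (c1 : c < 1) (d0 : 0 < c') (d1 : c' < 1)
    (hf : ∀ x, 0 ≤ x → x ≤ c → f x ≤ f c) (hg : ∀ x, 0 ≤ x → x ≤ c' → g c' ≤ g x)
    (hd : ∀ x, min c c' ≤ x → x ≤ max c c' →
      ¬ (Ins f g (x - (f x - g x)) (g x) ∧ Ins f g (x - (f x - g x)) (f x))) : Tip f g := by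
  have kD : ∀ t, t ≤ c' → g c' ≤ f t → ¬ Ins f g (c' - (f t - g c')) (g c' + (t - c')) := by
    intro t ht hq hI
    have h1 := hg _ hI.1.le (by linarith)
    have h2 := hI.2.2.1
    linarith
  have kE : ∀ s, s ≤ c → g s ≤ f c → ¬ Ins f g (c - (f c - g s)) (f c + (c - s)) := by
    intro s hs hq hI
    have h1 := hf _ hI.1.le (by linarith)
    have h2 := hI.2.2.2
    linarith
  have kV : ∀ x, min c c' ≤ x → x ≤ max c c' →
      ¬ (Ins f g (x - (f x - g x)) (g x + (x - x)) ∧ Ins f g (x - (f x - g x)) (f x + (x - x))) := by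
    intro x h1 h2
    simpa using hd x h1 h2
  rcases le_total c c' with hcc | hcc
  · refine ⟨fun s t => min (c' - s) (max c s - t), by fun_prop, ?_, ?_, ?_⟩
    · simp only [sub_zero]
      exact lt_min d0 (lt_of_lt_of_le c0 (le_max_left _ _))
    · intro s hs0 hs1
      refine ⟨?_, lt_of_le_of_lt (min_le_left _ _) (by linarith)⟩
      rcases lt_or_eq_of_le hs1 with h | h
      · exact lt_of_le_of_lt (min_le_right _ _) (by linarith [max_lt c1 h])
      · exact lt_of_le_of_lt (min_le_left _ _) (by linarith)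
    · intro s t s0 s1 t0 t1 hz hq hI
      change min (c' - s) (max c s - t) = 0 at hz
      rcases min_choice (c' - s) (max c s - t) with h | h
      · rw [h] at hz
        have hs : s = c' := by linarith
        have h2 : c' - s ≤ max c s - t := by
          by_contra hcon
          push Not at hcon
          rw [min_eq_right hcon.le] at h
          linarith
        rw [hs, max_eq_right hcc] at h2
        rw [hs] at hI hq
        exact kD t (by linarith) hq hI.1
      · rw [h] at hz
        have h2 : max c s - t ≤ c' - s := by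
          by_contra hcon
          push Not at hcon
          rw [min_eq_left hcon.le] at h
          linarith
        have ht : t = max c s := by linarith
        rcases le_total s c with hsc | hsc
        · rw [max_eq_left hsc] at ht
          rw [ht] at hI hq
          exact kE s hsc hq hI.2
        · rw [max_eq_right hsc] at ht
          rw [ht] at hI
          refine kV s (by rw [min_eq_left hcc]; exact hsc) ?_ hI
          rw [max_eq_right hcc]
          linarith
  · refine ⟨fun s t => min (c - t) (max c' t - s), by fun_prop, ?_, ?_, ?_⟩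
    · simp only [sub_zero]
      exact lt_min c0 (lt_of_lt_of_le d0 (le_max_left _ _))
    · intro s hs0 hs1
      refine ⟨lt_of_le_of_lt (min_le_left _ _) (by linarith), ?_⟩
      rcases lt_or_eq_of_le hs1 with h | h
      · exact lt_of_le_of_lt (min_le_right _ _) (by linarith [max_lt d1 h])
      · exact lt_of_le_of_lt (min_le_left _ _) (by linarith)
    · intro s t s0 s1 t0 t1 hz hq hI
      change min (c - t) (max c' t - s) = 0 at hz
      rcases min_choice (c - t) (max c' t - s) with h | h
      · rw [h] at hz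
        have hs : t = c := by linarith
        have h2 : c - t ≤ max c' t - s := by
          by_contra hcon
          push Not at hcon
          rw [min_eq_right hcon.le] at h
          linarith
        rw [hs, max_eq_right hcc] at h2
        rw [hs] at hI hq
        exact kE s (by linarith) hq hI.2
      · rw [h] at hz
        have h2 : max c' t - s ≤ c - t := by
          by_contra hcon
          push Not at hcon
          rw [min_eq_left hcon.le] at h
          linarith
        have ht : s = max c' t := by linarith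
        rcases le_total t c' with hsc | hsc
        · rw [max_eq_left hsc] at ht
          rw [ht] at hI hq
          exact kD t hsc hq hI.1
        · rw [max_eq_right hsc] at ht
          rw [ht] at hI
          refine kV t (by rw [min_eq_right hcc]; exact hsc) ?_ hI
          rw [max_eq_left hcc]
          linarith

theorem tip_max {r : ℝ} (r0 : 0 < r) (r1 : r < 1)
    (h : ∀ s t, 0 ≤ s → s ≤ r → 0 ≤ t → t ≤ r → s = r ∨ t = r → g s ≤ f t →
      ¬ (Ins f g (s - (f t - g s)) (g s + (t - s)) ∧ Ins f g (t - (f t - g s)) (f t + (t - s)))) :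
    Tip f g := by
  refine ⟨fun s t => r - max s t, by fun_prop, by simpa using r0, ?_, ?_⟩
  · intro s hs0 hs1
    constructor
    · have := le_max_right s 1
      linarith
    · have := le_max_left 1 s
      linarith
  · intro s t s0 s1 t0 t1 hz hq
    have hm : max s t = r := by linarith
    refine h s t s0 (by rw [← hm]; exact le_max_left _ _) t0 (by rw [← hm]; exact le_max_right _ _)
      ?_ hq
    rcases max_choice s t with h | h
    · left; rw [← h, hm]
    · right; rw [← h, hm]

/-- from a limit of difference quotients to bounds -/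
theorem quot_real {h : ℝ → ℝ} {a : ℝ}
    (ht : Tendsto (fun x => (h x - h 0) / x) (𝓝[>] 0) (𝓝 a)) {ε : ℝ} (hε : 0 < ε) :
    ∃ δ > 0, ∀ x, 0 ≤ x → x ≤ δ → a * x - ε * x ≤ h x - h 0 ∧ h x - h 0 ≤ a * x + ε * x := by
  have h1 := ht (Icc_mem_nhds (show a - ε < a by linarith) (show a < a + ε by linarith))
  rw [Filter.mem_map, mem_nhdsGT_iff_exists_Ioo_subset] at h1
  obtain ⟨u, hu, hu2⟩ := h1
  have hu' : (0:ℝ) < u := hu
  refine ⟨u / 2, by linarith, fun x hx hx2 => ?_⟩
  rcases hx.lt_or_eq with h | h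
  · have h3 := hu2 (show x ∈ Ioo 0 u from ⟨h, by linarith⟩)
    simp only [mem_preimage, mem_Icc] at h3
    rw [le_div_iff₀ h, div_le_iff₀ h] at h3
    constructor <;> linarith [h3.1, h3.2]
  · rw [← h]; simp

theorem quot_top {h : ℝ → ℝ}
    (ht : Tendsto (fun x => (h x - h 0) / x) (𝓝[>] 0) atTop) (K : ℝ) :
    ∃ δ > 0, ∀ x, 0 ≤ x → x ≤ δ → K * x ≤ h x - h 0 := by
  have h1 := ht (Ici_mem_atTop K)
  rw [Filter.mem_map, mem_nhdsGT_iff_exists_Ioo_subset] at h1
  obtain ⟨u, hu, hu2⟩ := h1
  have hu' : (0:ℝ) < u := hu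
  refine ⟨u / 2, by linarith, fun x hx hx2 => ?_⟩
  rcases hx.lt_or_eq with h | h
  · have h3 := hu2 (show x ∈ Ioo 0 u from ⟨h, by linarith⟩)
    simp only [mem_preimage, mem_Ici] at h3
    rwa [le_div_iff₀ h] at h3
  · rw [← h]; simp

theorem quot_bot {h : ℝ → ℝ}
    (ht : Tendsto (fun x => (h x - h 0) / x) (𝓝[>] 0) atBot) (K : ℝ) :
    ∃ δ > 0, ∀ x, 0 ≤ x → x ≤ δ → h x - h 0 ≤ -(K * x) := by
  have h1 := ht (Iic_mem_atBot (-K))
  rw [Filter.mem_map, mem_nhdsGT_iff_exists_Ioo_subset] at h1
  obtain ⟨u, hu, hu2⟩ := h1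
  have hu' : (0:ℝ) < u := hu
  refine ⟨u / 2, by linarith, fun x hx hx2 => ?_⟩
  rcases hx.lt_or_eq with h | h
  · have h3 := hu2 (show x ∈ Ioo 0 u from ⟨h, by linarith⟩)
    simp only [mem_preimage, mem_Iic] at h3
    rw [div_le_iff₀ h] at h3
    linarith
  · rw [← h]; simp

theorem corner_rr (he : f 0 = g 0) {a b : ℝ} (hab : b < a)
    (hf : Tendsto (fun x => (f x - f 0) / x) (𝓝[>] 0) (𝓝 a))
    (hg : Tendsto (fun x => (g x - g 0) / x) (𝓝[>] 0) (𝓝 b)) : Tip f g := by
  set A := a - b with hA
  have A0 : 0 < A := by linarith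
  set M := |a| + |b| with hM
  have M0 : 0 ≤ M := by positivity
  have aM : |a| ≤ M := by have := abs_nonneg b; linarith
  have bM : |b| ≤ M := by have := abs_nonneg a; linarith
  set ε := A ^ 2 / (4 * (1 + M ^ 2) + 2 * (M + 1) * A) with hε
  have den : 0 < 4 * (1 + M ^ 2) + 2 * (M + 1) * A := by positivity
  have ε0 : 0 < ε := by positivity
  have hεe : ε * (4 * (1 + M ^ 2) + 2 * (M + 1) * A) = A ^ 2 := by rw [hε]; field_simp
  obtain ⟨δ1, p1, hf'⟩ := quot_real hf ε0
  obtain ⟨δ2, p2, hg'⟩ := quot_real hg ε0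
  set r := min (min δ1 δ2) (1 / 2) with hr
  have r0 : 0 < r := by positivity
  have r1 : r ≤ δ1 := (min_le_left _ _).trans (min_le_left _ _)
  have r2 : r ≤ δ2 := (min_le_left _ _).trans (min_le_right _ _)
  have r3 : r ≤ 1 / 2 := min_le_right _ _
  refine tip_max r0 (by linarith) ?_
  rintro s t s0 sr t0 tr hst hq ⟨hD, hE⟩
  have f1 := hf' t t0 (by linarith)
  have f2 := hf' (t - (f t - g s)) hE.1.le (by linarith)
  have g1 := hg' s s0 (by linarith)
  have g2 := hg' (s - (f t - g s)) hD.1.le (by linarith)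
  have d1 := hD.2.2.1
  have e1 := hE.2.2.2
  have d0 := hD.1
  have e0 := hE.1
  set q := f t - g s with hqd
  have q0 : 0 ≤ q := by linarith
  have es : ε * s ≤ ε * r := mul_le_mul_of_nonneg_left sr ε0.le
  have et : ε * t ≤ ε * r := mul_le_mul_of_nonneg_left tr ε0.le
  have eq : 0 ≤ ε * q := mul_nonneg ε0.le q0
  have h1 : -(b * q) - 2 * (ε * r) < t - s := by linarith [g1.2, g2.1]
  have h2 : t - s < -(a * q) + 2 * (ε * r) := by linarith [f1.1, f2.2]
  have h3 : A * q < 4 * (ε * r) := by rw [hA]; linarith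
  have bq : |b * q| ≤ M * q := by
    rw [abs_mul, abs_of_nonneg q0]; exact mul_le_mul_of_nonneg_right bM q0
  have aq : |a * q| ≤ M * q := by
    rw [abs_mul, abs_of_nonneg q0]; exact mul_le_mul_of_nonneg_right aM q0
  have h4 : |t - s| ≤ M * q + 2 * (ε * r) := by
    rw [abs_le]
    have := abs_le.1 bq
    have := abs_le.1 aq
    constructor <;> linarith
  have h5 : A * r - M * |t - s| ≤ a * t - b * s := by
    have k1 : |b * (t - s)| ≤ M * |t - s| := by
      rw [abs_mul]; exact mul_le_mul_of_nonneg_right bM (abs_nonneg _)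
    have k2 : |a * (t - s)| ≤ M * |t - s| := by
      rw [abs_mul]; exact mul_le_mul_of_nonneg_right aM (abs_nonneg _)
    have k3 := abs_le.1 k1
    have k4 := abs_le.1 k2
    rcases hst with h | h
    · rw [← h, hA]; linarith [k4.1]
    · rw [← h, hA]; linarith [k3.1]
  have h6 : a * t - b * s - 2 * (ε * r) ≤ q := by linarith [f1.1, g1.2]
  have h7 : M * |t - s| ≤ M * (M * q + 2 * (ε * r)) := mul_le_mul_of_nonneg_left h4 M0
  have h8 : A * r - 2 * (M + 1) * (ε * r) ≤ (1 + M ^ 2) * q := by linarith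
  have h9 : A * (A * r - 2 * (M + 1) * (ε * r)) ≤ A * ((1 + M ^ 2) * q) :=
    mul_le_mul_of_nonneg_left h8 A0.le
  have h10 : (1 + M ^ 2) * (A * q) < (1 + M ^ 2) * (4 * (ε * r)) :=
    mul_lt_mul_of_pos_left h3 (by positivity)
  have h11 : A ^ 2 * r = ε * (4 * (1 + M ^ 2) + 2 * (M + 1) * A) * r := by rw [hεe]
  linarith

theorem corner_tr (he : f 0 = g 0) {b : ℝ}
    (hf : Tendsto (fun x => (f x - f 0) / x) (𝓝[>] 0) atTop)
    (hg : Tendsto (fun x => (g x - g 0) / x) (𝓝[>] 0) (𝓝 b)) : Tip f g := by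
  set N := |b| + 1 with hN
  have N0 : 0 < N := by positivity
  obtain ⟨δ1, p1, hf'⟩ := quot_top hf (4 * N ^ 2 + 1)
  obtain ⟨δ2, p2, hg'⟩ := quot_real hg (show (0:ℝ) < 1 / 4 by norm_num)
  set r := min (min δ1 δ2) (1 / 2) with hr
  have r0 : 0 < r := by positivity
  have r1 : r ≤ δ1 := (min_le_left _ _).trans (min_le_left _ _)
  have r2 : r ≤ δ2 := (min_le_left _ _).trans (min_le_right _ _)
  have r3 : r ≤ 1 / 2 := min_le_right _ _
  refine tip_max r0 (by linarith) ?_
  rintro s t s0 sr t0 tr hst hq ⟨hD, hE⟩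
  have f1 := hf' t t0 (by linarith)
  have g1 := hg' s s0 (by linarith)
  have g2 := hg' (s - (f t - g s)) hD.1.le (by linarith)
  have d1 := hD.2.2.1
  have d0 := hD.1
  have e0 := hE.1
  set q := f t - g s with hqd
  have q0 : 0 ≤ q := by linarith
  have bs : b * s ≤ |b| * s := mul_le_mul_of_nonneg_right (le_abs_self b) s0
  have bq : b * q ≤ |b| * q := mul_le_mul_of_nonneg_right (le_abs_self b) q0
  have bq2 : |b| * q ≤ |b| * t := mul_le_mul_of_nonneg_left (by linarith) (abs_nonneg b)
  have h1 : 4 * N ^ 2 * t < N * s := by rw [hN] at f1 ⊢; linarith [g1.2]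
  have h2 : 4 * N * t < s := by
    have : N * (4 * N * t) < N * s := by linarith
    exact lt_of_mul_lt_mul_left this N0.le
  have h3 : -(b * q) - s / 2 < t - s := by linarith [g1.2, g2.1]
  have h4 : N * t < s / 4 := by linarith
  rw [hN] at h4
  linarith

theorem corner_rb (he : f 0 = g 0) {a : ℝ}
    (hf : Tendsto (fun x => (f x - f 0) / x) (𝓝[>] 0) (𝓝 a))
    (hg : Tendsto (fun x => (g x - g 0) / x) (𝓝[>] 0) atBot) : Tip f g := by
  set N := |a| + 1 with hN
  have N0 : 0 < N := by positivity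
  obtain ⟨δ1, p1, hf'⟩ := quot_real hf (show (0:ℝ) < 1 / 4 by norm_num)
  obtain ⟨δ2, p2, hg'⟩ := quot_bot hg (4 * N ^ 2 + 1)
  set r := min (min δ1 δ2) (1 / 2) with hr
  have r0 : 0 < r := by positivity
  have r1 : r ≤ δ1 := (min_le_left _ _).trans (min_le_left _ _)
  have r2 : r ≤ δ2 := (min_le_left _ _).trans (min_le_right _ _)
  have r3 : r ≤ 1 / 2 := min_le_right _ _
  refine tip_max r0 (by linarith) ?_
  rintro s t s0 sr t0 tr hst hq ⟨hD, hE⟩
  have f1 := hf' t t0 (by linarith)
  have f2 := hf' (t - (f t - g s)) hE.1.le (by linarith)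
  have g1 := hg' s s0 (by linarith)
  have d0 := hD.1
  have e0 := hE.1
  have e1 := hE.2.2.2
  set q := f t - g s with hqd
  have q0 : 0 ≤ q := by linarith
  have at' : -(|a| * t) ≤ a * t := by
    have := mul_le_mul_of_nonneg_right (neg_abs_le a) t0
    linarith
  have aq : -(|a| * q) ≤ a * q := by
    have := mul_le_mul_of_nonneg_right (neg_abs_le a) q0
    linarith
  have aq2 : |a| * q ≤ |a| * s := mul_le_mul_of_nonneg_left (by linarith) (abs_nonneg a)
  have h1 : 4 * N ^ 2 * s < N * t := by rw [hN] at g1 ⊢; linarith [f1.1]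
  have h2 : 4 * N * s < t := by
    have : N * (4 * N * s) < N * t := by linarith
    exact lt_of_mul_lt_mul_left this N0.le
  have h3 : t - s < -(a * q) + t / 2 := by linarith [f1.1, f2.2]
  have h4 : N * s < t / 4 := by linarith
  rw [hN] at h4
  linarith

theorem corner_tb (he : f 0 = g 0)
    (hf : Tendsto (fun x => (f x - f 0) / x) (𝓝[>] 0) atTop)
    (hg : Tendsto (fun x => (g x - g 0) / x) (𝓝[>] 0) atBot) : Tip f g := by
  obtain ⟨δ1, p1, hf'⟩ := quot_top hf 1
  obtain ⟨δ2, p2, hg'⟩ := quot_bot hg 1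
  set r := min (min δ1 δ2) (1 / 2) with hr
  have r0 : 0 < r := by positivity
  have r1 : r ≤ δ1 := (min_le_left _ _).trans (min_le_left _ _)
  have r2 : r ≤ δ2 := (min_le_left _ _).trans (min_le_right _ _)
  have r3 : r ≤ 1 / 2 := min_le_right _ _
  refine tip_max r0 (by linarith) ?_
  rintro s t s0 sr t0 tr hst hq ⟨hD, hE⟩
  have f1 := hf' t t0 (by linarith)
  have g1 := hg' s s0 (by linarith)
  have d0 := hD.1
  linarith

/-- different one-sided derivatives, possibly infinite, at the end -/
theorem tip_corner (T : Two f g) {a b : EReal} (hab : a ≠ b)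
    (hf : Tendsto (fun x => (((f x - f 0) / x : ℝ) : EReal)) (𝓝[>] 0) (𝓝 a))
    (hg : Tendsto (fun x => (((g x - g 0) / x : ℝ) : EReal)) (𝓝[>] 0) (𝓝 b)) : Tip f g := by
  have he := T.e0
  have hle : b ≤ a := by
    refine le_of_tendsto_of_tendsto hg hf ?_
    have : Ioo (0:ℝ) 1 ∈ 𝓝[>] (0:ℝ) := Ioo_mem_nhdsGT one_pos
    filter_upwards [this] with x hx
    rw [EReal.coe_le_coe_iff, he]
    have := T.lt x hx.1 hx.2
    exact div_le_div_of_nonneg_right (by linarith) hx.1.le
  have hlt : b < a := lt_of_le_of_ne hle (Ne.symm hab)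
  have top_case : ∀ h : ℝ → ℝ, Tendsto (fun x => (((h x - h 0) / x : ℝ) : EReal)) (𝓝[>] 0) (𝓝 ⊤) →
      Tendsto (fun x => (h x - h 0) / x) (𝓝[>] 0) atTop := by
    intro h hh
    rwa [EReal.tendsto_coe_nhds_top_iff] at hh
  have bot_case : ∀ h : ℝ → ℝ, Tendsto (fun x => (((h x - h 0) / x : ℝ) : EReal)) (𝓝[>] 0) (𝓝 ⊥) →
      Tendsto (fun x => (h x - h 0) / x) (𝓝[>] 0) atBot := by
    intro h hh
    rwa [EReal.tendsto_coe_nhds_bot_iff] at hh
  induction a with
  | bot => exact absurd hlt not_lt_bot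
  | top =>
    induction b with
    | bot => exact corner_tb he (top_case f hf) (bot_case g hg)
    | top => exact absurd rfl hab
    | coe b => exact corner_tr he (top_case f hf) (EReal.tendsto_coe.1 hg)
  | coe a =>
    induction b with
    | bot => exact corner_rb he (EReal.tendsto_coe.1 hf) (bot_case g hg)
    | top => exact absurd hlt not_top_lt
    | coe b =>
      have h1 := EReal.tendsto_coe.1 hf
      have h2 := EReal.tendsto_coe.1 hg
      exact corner_rr he (EReal.coe_lt_coe_iff.1 hlt) h1 h2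

end Pool.Agent.X150.TG
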