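import Pool.Agent.X150.TG.Frame
import Pool.Agent.X150.TG.Tips1

/-! Ends where one graph has one-sided slopes. -/

set_option autoImplicit false
open Set Topology Filter

namespace Pool.Agent.X150.TG

variable {f g : ℝ → ℝ}

theorem tip_L {s0 t0 : ℝ} (s0p : 0 < s0) (s01 : s0 < 1) (t0p : 0 < t0) (t01 : t0 < 1)
    (h1 : ∀ t, 0 ≤ t → t ≤ t0 → g s0 ≤ f t →
      ¬ (Ins f g (s0 - (f t - g s0)) (g s0 + (t - s0)) ∧
        Ins f g (t - (f t - g s0)) (f t + (t - s0))))
    (h2 : ∀ s, 0 ≤ s → s ≤ s0 → g s ≤ f t0 →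
      ¬ (Ins f g (s - (f t0 - g s)) (g s + (t0 - s)) ∧
        Ins f g (t0 - (f t0 - g s)) (f t0 + (t0 - s)))) : Tip f g := by
  refine ⟨fun a b => min (s0 - a) (t0 - b), by fun_prop, by simp [s0p, t0p], ?_, ?_⟩
  · intro s _ _
    exact ⟨lt_of_le_of_lt (min_le_right _ _) (by linarith),
      lt_of_le_of_lt (min_le_left _ _) (by linarith)⟩
  · intro a b a1 a2 b1 b2 hz hq
    change min (s0 - a) (t0 - b) = 0 at hz
    have m1 := min_le_left (s0 - a) (t0 - b)
    have m2 := min_le_right (s0 - a) (t0 - b)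
    rw [hz] at m1 m2
    rcases min_choice (s0 - a) (t0 - b) with h | h
    · rw [h] at hz
      have : a = s0 := by linarith
      rw [this] at hq ⊢
      exact h1 b b1 (by linarith) hq
    · rw [h] at hz
      have : b = t0 := by linarith
      rw [this] at hq ⊢
      exact h2 a a1 (by linarith) hq

/-- a record of `f - κ x` at a small point -/
theorem exists_rec {h : ℝ → ℝ} (hc : Continuous h) {κ : ℝ}
    (hr : ∀ ε > 0, ∃ x, 0 < x ∧ x < ε ∧ κ * x < h x - h 0) {ε : ℝ} (hε : 0 < ε) :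
    ∃ t, 0 < t ∧ t < ε ∧ ∀ x, 0 ≤ x → x ≤ t → h x - κ * x ≤ h t - κ * t := by
  obtain ⟨x, x0, x1, hx⟩ := hr ε hε
  obtain ⟨t, ht, hmax⟩ := isCompact_Icc.exists_isMaxOn (nonempty_Icc.2 x0.le)
    ((by fun_prop : Continuous fun y => h y - κ * y).continuousOn (s := Icc 0 x))
  have hm : ∀ y, 0 ≤ y → y ≤ x → h y - κ * y ≤ h t - κ * t := fun y a b => hmax ⟨a, b⟩
  refine ⟨t, ?_, by linarith [ht.2], fun y a b => hm y a (by linarith [ht.2])⟩
  rcases ht.1.lt_or_eq with h' | h'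
  · exact h'
  · have := hm x x0.le le_rfl
    rw [← h'] at this
    linarith

/-- chords of `g` of slope at most `κ`; `f` exceeds slope `κ` arbitrarily near the end -/
theorem tip_one (T : Two f g) {κ δ : ℝ} (hδ : 0 < δ) (hδ1 : δ < 1)
    (hg : ∀ x x', 0 ≤ x → x ≤ x' → x' ≤ δ → g x' - g x ≤ κ * (x' - x))
    (hX : 0 < δ + κ * (g δ - g 0))
    (hf : ∀ ε > 0, ∃ x, 0 < x ∧ x < ε ∧ κ * x < f x - f 0) : Tip f g := by
  have cf := T.cf
  have c1 : Continuous fun t => t + κ * (f t - f 0) := by fun_prop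
  obtain ⟨ρ, ρ0, hρ⟩ := Metric.continuous_iff.1 c1 0 _ hX
  obtain ⟨t0, t0p, t0l, ht⟩ := exists_rec T.cf hf (show 0 < min ρ 1 by positivity)
  have l1 : t0 < ρ := t0l.trans_le (min_le_left _ _)
  have l2 : t0 < 1 := t0l.trans_le (min_le_right _ _)
  have hc : ∀ t, 0 ≤ t → t ≤ t0 → t + κ * (f t - f 0) ≤ δ + κ * (g δ - g 0) := by
    intro t a b
    have := hρ t (by rw [Real.dist_eq, sub_zero, abs_of_nonneg a]; linarith)
    rw [Real.dist_eq] at this
    have := (abs_lt.1 this).2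
    simp only [sub_self, mul_zero, add_zero, sub_zero] at this
    exact this.le
  have e0 := T.e0
  refine tip_L hδ hδ1 t0p l2 ?_ ?_
  · rintro t a b hq ⟨hD, -⟩
    have h1 := hg (δ - (f t - g δ)) δ hD.1.le (by linarith) le_rfl
    have h2 := hD.2.2.1
    have h3 := hc t a b
    rw [e0] at h3
    linarith
  · rintro s a b hq ⟨hD, hE⟩
    have h1 := hg (s - (f t0 - g s)) s hD.1.le (by linarith) b
    have h2 := hD.2.2.1
    have h3 := ht (t0 - (f t0 - g s)) hE.1.le (by linarith)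
    have h4 := hE.2.2.2
    linarith

/-- chords of `f` of slope at least `κ`; `g` is below slope `κ` arbitrarily near the end -/
theorem tip_one' (T : Two f g) {κ δ : ℝ} (hδ : 0 < δ) (hδ1 : δ < 1)
    (hf : ∀ x x', 0 ≤ x → x ≤ x' → x' ≤ δ → κ * (x' - x) ≤ f x' - f x)
    (hX : 0 < δ + κ * (f δ - f 0))
    (hg : ∀ ε > 0, ∃ x, 0 < x ∧ x < ε ∧ g x - g 0 < κ * x) : Tip f g := by
  have cg := T.cg
  have c1 : Continuous fun t => t + κ * (g t - g 0) := by fun_prop
  obtain ⟨ρ, ρ0, hρ⟩ := Metric.continuous_iff.1 c1 0 _ hX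
  obtain ⟨s0, s0p, s0l, hs⟩ := exists_rec (h := fun x => -g x) (κ := -κ) cg.neg
    (fun ε hε => by
      obtain ⟨x, a, b, c⟩ := hg ε hε
      exact ⟨x, a, b, by linarith⟩) (show 0 < min ρ 1 by positivity)
  have l1 : s0 < ρ := s0l.trans_le (min_le_left _ _)
  have l2 : s0 < 1 := s0l.trans_le (min_le_right _ _)
  have hc : ∀ t, 0 ≤ t → t ≤ s0 → t + κ * (g t - g 0) ≤ δ + κ * (f δ - f 0) := by
    intro t a b
    have := hρ t (by rw [Real.dist_eq, sub_zero, abs_of_nonneg a]; linarith)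
    rw [Real.dist_eq] at this
    have := (abs_lt.1 this).2
    simp only [sub_self, mul_zero, add_zero, sub_zero] at this
    exact this.le
  have e0 := T.e0
  refine tip_L s0p l2 hδ hδ1 ?_ ?_
  · rintro t a b hq ⟨hD, hE⟩
    have h1 := hf (t - (f t - g s0)) t hE.1.le (by linarith) b
    have h2 := hD.2.2.1
    have h3 := hs (s0 - (f t - g s0)) hD.1.le (by linarith)
    have h4 := hE.2.2.2
    linarith
  · rintro s a b hq ⟨hD, hE⟩
    have h1 := hf (δ - (f δ - g s)) δ hE.1.le (by linarith) le_rfl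
    have h4 := hE.2.2.2
    have h3 := hc s a b
    rw [e0] at h3
    linarith

end Pool.Agent.X150.TG
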