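import Mathlib

/-! The chords on the frontier of the outer region (two graphs). -/

set_option autoImplicit false

namespace Pool.Agent.X150.TG

/-- strictly between the graphs -/
def Ins (f g : ℝ → ℝ) (x y : ℝ) : Prop := 0 < x ∧ x < 1 ∧ g x < y ∧ y < f x

/-- data for the chords with the first point to the left of the second -/
structure Cut (f g : ℝ → ℝ) (Φa Φb : ℝ → ℝ → ℝ) (c1 c2 : ℝ) : Prop where
  c1p : 0 < c1
  c1l : c1 < 1
  c2p : 0 < c2
  c2l : c2 < 1
  a2 : ∀ s t, 0 ≤ s → s ≤ 1 → c2 ≤ t → t ≤ 1 → Φa s t < 0
  b1 : ∀ s t, 0 ≤ s → s ≤ c1 → 0 ≤ t → t ≤ 1 → Φb s t < 0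
  h2 : ∀ t x, c2 ≤ t → t ≤ 1 → c2 ≤ x → x ≤ 1 → f x ≤ f t + t
  h1 : ∀ s x, 0 ≤ s → s ≤ c1 → 0 ≤ x → x ≤ c1 → f x ≤ f s + (1 - s)
  cut2 : ∀ s, 0 ≤ s → s ≤ c2 → f c2 ≤ g s → ¬ Ins f g (c2 - (f c2 - g s)) (f c2 + (c2 - s))
  cut1 : ∀ t, c1 ≤ t → t ≤ 1 → f c1 ≤ g t → ¬ Ins f g (c1 - (g t - f c1)) (f c1 + (t - c1))
  okA : ∀ s t, 0 ≤ s → s ≤ t → t ≤ 1 → Φa s t = 0 → g s ≤ f t →
    ¬ (Ins f g (s - (f t - g s)) (g s + (t - s)) ∧ Ins f g (t - (f t - g s)) (f t + (t - s)))
  okB : ∀ s t, 0 ≤ s → s ≤ t → t ≤ 1 → Φb s t = 0 → g t ≤ f s →
    ¬ (Ins f g (s - (g t - f s)) (f s + (t - s)) ∧ Ins f g (t - (g t - f s)) (g t + (t - s)))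

/-- the gauge -/
noncomputable def GR (Φa Φb : ℝ → ℝ → ℝ) (c1 c2 τA τB xA xB q : ℝ) : ℝ :=
  max (min τA τB) (max (min τB (max (min (-q) (c2 - xB)) (Φa xA xB)))
    (min τA (max (min q (xA - c1)) (Φb xA xB))))

theorem zeroR {f g : ℝ → ℝ} {Φa Φb : ℝ → ℝ → ℝ} {c1 c2 : ℝ} (H : Cut f g Φa Φb c1 c2)
    {τA τB xA yA xB yB : ℝ} (x0 : 0 ≤ xA) (xAB : xA ≤ xB) (x1 : xB ≤ 1)
    (hA1 : 0 < τA → yA = f xA) (hA2 : τA ≤ 0 → yA = g xA) (hA0 : τA = 0 → xA = 0)
    (hB1 : 0 < τB → yB = f xB) (hB2 : τB ≤ 0 → yB = g xB) (hB0 : τB = 0 → xB = 1)
    (hG : GR Φa Φb c1 c2 τA τB xA xB (yB - yA) = 0) :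
    ¬ (Ins f g (xA - (yB - yA)) (yA + (xB - xA)) ∧ Ins f g (xB - (yB - yA)) (yB + (xB - xA))) := by
  rintro ⟨hD, hE⟩
  have h01 : f 0 = f 0 := rfl
  unfold GR at hG
  set q := yB - yA with hq
  set Wa := max (min (-q) (c2 - xB)) (Φa xA xB) with hWa
  set Wb := max (min q (xA - c1)) (Φb xA xB) with hWb
  have g1 : min τA τB ≤ 0 := by rw [← hG]; exact le_max_left _ _
  have g2 : min τB Wa ≤ 0 := by rw [← hG]; exact (le_max_left _ _).trans (le_max_right _ _)
  have g3 : min τA Wb ≤ 0 := by rw [← hG]; exact (le_max_right _ _).trans (le_max_right _ _)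
  have geq : min τA τB = 0 ∨ min τB Wa = 0 ∨ min τA Wb = 0 := by
    rcases max_choice (min τA τB) (max (min τB Wa) (min τA Wb)) with h | h
    · left; rw [← h]; exact hG
    · rcases max_choice (min τB Wa) (min τA Wb) with h' | h'
      · right; left; rw [← h', ← h]; exact hG
      · right; right; rw [← h', ← h]; exact hG
  -- the first point is the left end
  have left : τA = 0 → 0 < τB → Wa ≤ 0 → False := by
    intro e hb hW
    have ex := hA0 e
    rw [ex] at hD
    rcases le_or_gt 0 q with h | h
    · have := hD.1; linarith
    · have h3 : min (-q) (c2 - xB) ≤ 0 := (le_max_left _ _).trans hW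
      have h4 : c2 - xB ≤ 0 := by
        rcases min_le_iff.1 h3 with h5 | h5
        · linarith
        · exact h5
      have h5 := H.h2 xB (xB - q) (by linarith) x1 (by linarith) hE.2.1.le
      have h6 := hE.2.2.2
      rw [hB1 hb, ex] at h6
      linarith
  have right : τB = 0 → 0 < τA → Wb ≤ 0 → False := by
    intro e ha hW
    have ex := hB0 e
    rw [ex] at hE
    rcases le_or_gt q 0 with h | h
    · have := hE.2.1; linarith
    · have h3 : min q (xA - c1) ≤ 0 := (le_max_left _ _).trans hW
      have h4 : xA - c1 ≤ 0 := by
        rcases min_le_iff.1 h3 with h5 | h5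
        · linarith
        · exact h5
      have h5 := H.h1 xA (xA - q) x0 (by linarith) hD.1.le (by linarith)
      have h6 := hD.2.2.2
      rw [hA1 ha, ex] at h6
      linarith
  rcases lt_or_ge 0 τA with hA | hA
  · rcases lt_or_ge 0 τB with hB | hB
    · have := lt_min hA hB
      linarith
    · -- first on the top graph, second on the bottom graph
      have hW : Wb ≤ 0 := by
        rcases min_le_iff.1 g3 with h | h
        · linarith
        · exact h
      have yAe := hA1 hA
      have yBe := hB2 hB
      rcases geq with e | e | e
      · have : τB = 0 := by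
          rcases min_choice τA τB with h | h
          · rw [h] at e; linarith
          · rw [h] at e; exact e
        exact right this hA hW
      · have : τB = 0 := le_antisymm hB (by rw [← e]; exact min_le_left _ _)
        exact right this hA hW
      · have hW0 : Wb = 0 := by
          rcases min_choice τA Wb with h | h
          · rw [h] at e; linarith
          · rw [h] at e; exact e
        have w1 : min q (xA - c1) ≤ 0 := (le_max_left _ _).trans hW
        rcases max_choice (min q (xA - c1)) (Φb xA xB) with h | h
        · rw [hWb, h] at hW0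
          have q0 : 0 ≤ q := by rw [← hW0]; exact min_le_left _ _
          have c0 : 0 ≤ xA - c1 := by rw [← hW0]; exact min_le_right _ _
          rcases min_choice q (xA - c1) with h' | h'
          · rw [h'] at hW0
            have h6 := hD.2.2.2
            rw [yAe, hW0, sub_zero] at h6
            linarith
          · rw [h'] at hW0
            have ex : xA = c1 := by linarith
            have := H.cut1 xB (by linarith) x1 (by
              have : 0 ≤ yB - yA := q0
              rw [yBe, yAe, ex] at this; linarith)
            apply this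
            have h7 := hD
            rw [hq, yAe, yBe, ex] at h7
            exact h7
        · rw [hWb, h] at hW0
          rcases le_or_gt q 0 with h' | h'
          · have := H.okB xA xB x0 xAB x1 hW0 (by
              have : yB - yA ≤ 0 := h'
              rw [yBe, yAe] at this; linarith)
            apply this
            rw [hq, yAe, yBe] at hD hE
            exact ⟨hD, hE⟩
          · have : xA - c1 ≤ 0 := by
              rcases min_le_iff.1 w1 with h5 | h5
              · linarith
              · exact h5
            have := H.b1 xA xB x0 (by linarith) (by linarith) x1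
            linarith
  · rcases lt_or_ge 0 τB with hB | hB
    · have hW : Wa ≤ 0 := by
        rcases min_le_iff.1 g2 with h | h
        · linarith
        · exact h
      have yAe := hA2 hA
      have yBe := hB1 hB
      rcases geq with e | e | e
      · have : τA = 0 := by
          rcases min_choice τA τB with h | h
          · rw [h] at e; exact e
          · rw [h] at e; linarith
        exact left this hB hW
      · have hW0 : Wa = 0 := by
          rcases min_choice τB Wa with h | h
          · rw [h] at e; linarith
          · rw [h] at e; exact e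
        have w1 : min (-q) (c2 - xB) ≤ 0 := (le_max_left _ _).trans hW
        rcases max_choice (min (-q) (c2 - xB)) (Φa xA xB) with h | h
        · rw [hWa, h] at hW0
          have q0 : 0 ≤ -q := by rw [← hW0]; exact min_le_left _ _
          have c0 : 0 ≤ c2 - xB := by rw [← hW0]; exact min_le_right _ _
          rcases min_choice (-q) (c2 - xB) with h' | h'
          · rw [h'] at hW0
            have hq0 : q = 0 := by linarith
            have h6 := hE.2.2.2
            rw [yBe, hq0, sub_zero] at h6
            linarith
          · rw [h'] at hW0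
            have ex : xB = c2 := by linarith
            have := H.cut2 xA x0 (by linarith) (by
              have : 0 ≤ -(yB - yA) := q0
              rw [yBe, yAe, ex] at this; linarith)
            apply this
            have h7 := hE
            rw [hq, yAe, yBe, ex] at h7
            exact h7
        · rw [hWa, h] at hW0
          rcases le_or_gt 0 q with h' | h'
          · have := H.okA xA xB x0 xAB x1 hW0 (by
              have : 0 ≤ yB - yA := h'
              rw [yBe, yAe] at this; linarith)
            apply this
            rw [hq, yAe, yBe] at hD hE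
            exact ⟨hD, hE⟩
          · have : c2 - xB ≤ 0 := by
              rcases min_le_iff.1 w1 with h5 | h5
              · linarith
              · exact h5
            have := H.a2 xA xB x0 (by linarith) (by linarith) x1
            linarith
      · have : τA = 0 := le_antisymm hA (by rw [← e]; exact min_le_left _ _)
        exact left this hB hW
    · -- both on the bottom graph
      rcases geq with e | e | e
      · have e1 : τA = 0 := le_antisymm hA (by rw [← e]; exact min_le_left _ _)
        have e2 : τB = 0 := le_antisymm hB (by rw [← e]; exact min_le_right _ _)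
        have ex := hA0 e1
        have ey := hB0 e2
        rcases le_or_gt 0 q with h | h
        · have := hD.1; linarith
        · have := hE.2.1; linarith
      · have e2 : τB = 0 := le_antisymm hB (by rw [← e]; exact min_le_left _ _)
        have ey := hB0 e2
        have hW0 : 0 ≤ Wa := by rw [← e]; exact min_le_right _ _
        rcases le_max_iff.1 hW0 with h | h
        · have := le_min_iff.1 h
          have c := H.c2l
          linarith [this.2]
        · have := H.a2 xA xB x0 (by linarith) (by rw [ey]; exact H.c2l.le) x1
          linarith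
      · have e1 : τA = 0 := le_antisymm hA (by rw [← e]; exact min_le_left _ _)
        have ex := hA0 e1
        have hW0 : 0 ≤ Wb := by rw [← e]; exact min_le_right _ _
        rcases le_max_iff.1 hW0 with h | h
        · have := le_min_iff.1 h
          have c := H.c1p
          linarith [this.2]
        · have := H.b1 xA xB x0 (by rw [ex]; exact H.c1p.le) (by linarith) x1
          linarith

end Pool.Agent.X150.TG
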